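import Pool.Agent.KS6_81.HP.One4
import Pool.Agent.KS6_81.HP.Hol
import Pool.Agent.KS6_81.HN.Crit

set_option autoImplicit false

/-! # The regularized integral is holomorphic -/

namespace Pool.Agent.KS6_81.HN

open Set Filter Topology Metric MeasureTheory
open scoped ContDiff
open Pool.Agent.H628R4.TP (weylS IsBFunction)
open Pool.Agent.KS6_81.HP (cpw re_2kc re_2c amgm norm_pw th0 th0_zero pw_le int_ball Gint Kc th
  th_bd th_zero th_meas Ic upper diffOn_int)

variable {n : ℕ}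

/-- the space of the outer variables -/
abbrev EE (n : ℕ) := Fin n → ℂ

/-- integrable on all balls -/
def LI (F : EE n → ℝ) : Prop := ∀ R : ℝ, IntegrableOn F (closedBall 0 R)

lemma LI.mono {F G : EE n → ℝ} (hG : LI G) (hF : Measurable F) (R : ℝ)
    (h : ∀ᵐ t, t ∈ closedBall (0 : EE n) R → |F t| ≤ G t) : IntegrableOn F (closedBall 0 R) := by
  refine Integrable.mono' (hG R) hF.aestronglyMeasurable ?_
  rw [ae_restrict_iff' measurableSet_closedBall]
  filter_upwards [h] with t ht hm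
  exact ht hm

/-- the analytic data at a point of high multiplicity -/
structure Heavy (k : ℕ) (ρ : ℝ) (f : MvPolynomial (Fin (n + 1)) ℂ) (A : EE n → ℂ)
    (Y : EE n → ℝ) : Prop where
  hk : 0 < k
  ρ0 : 0 < ρ
  kρ : k * ρ < 1
  cA : Continuous A
  mY : Measurable Y
  root : ∀ t, A t ≠ 0 → ∃ r : Fin k → ℂ,
    (∀ x, ff f (x, t) = A t * ∏ i, (x - r i)) ∧ ∀ i, ‖r i‖ ≤ Y t
  ae : ∀ᵐ t, A t ≠ 0
  I1 : ∃ ε : ℝ, 0 < ε ∧ ε ≤ ρ ∧ ∀ s : ℝ, -ε < s → s < 0 → LI fun t => ‖A t‖ ^ (2 * s)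
  I2 : ∀ s : ℝ, -ρ < s → s < 0 → LI fun t => ‖A t‖ ^ (2 * s) * Y t ^ (2 - 2 * k * ρ : ℝ)

variable {k : ℕ} {ρ : ℝ} {f : MvPolynomial (Fin (n + 1)) ℂ} {A : EE n → ℂ} {Y : EE n → ℝ}

/-- the inner integral -/
noncomputable def inn (f : MvPolynomial (Fin (n + 1)) ℂ) (k : ℕ) (c : ℂ) (t : EE n) : ℂ :=
  ∫ x, ((‖ff f (x, t)‖ : ℝ) : ℂ) ^ (2 * c) * th k c x

lemma inn_eq {t : EE n} {r : Fin k → ℂ} (hr : ∀ x, ff f (x, t) = A t * ∏ i, (x - r i)) (c : ℂ) :
    inn f k c t = ((‖A t‖ : ℝ) : ℂ) ^ (2 * c) * Ic r c := by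
  unfold inn Ic
  rw [← integral_const_mul]
  refine integral_congr_ae (Eventually.of_forall fun x => ?_)
  simp only
  have h1 : ‖ff f (x, t)‖ = ‖A t‖ * ∏ i, ‖x - r i‖ := by
    rw [hr, norm_mul, norm_prod]
  rw [h1, Complex.ofReal_mul, Complex.mul_cpow_ofReal_nonneg (norm_nonneg _)
    (Finset.prod_nonneg fun i _ => norm_nonneg _)]
  ring

/-- the strip -/
def UU (σ : ℝ) : Set ℂ := {c | σ < c.re ∧ c.re < 0 ∧ ‖c‖ < 1}

lemma UU_open (σ : ℝ) : IsOpen (UU σ) := by
  unfold UU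
  refine (isOpen_lt continuous_const Complex.continuous_re).inter ?_
  exact (isOpen_lt Complex.continuous_re continuous_const).inter
    (isOpen_lt continuous_norm continuous_const)

lemma meas_F (f : MvPolynomial (Fin (n + 1)) ℂ) (k : ℕ) (c : ℂ) :
    Measurable fun z : ℂ × EE n => ((‖ff f z‖ : ℝ) : ℂ) ^ (2 * c) * th k c z.1 :=
  ((Complex.measurable_ofReal.comp (ff_cont f).measurable.norm).pow_const _).mul
    ((th_meas k c).comp measurable_fst)

lemma inn_meas (f : MvPolynomial (Fin (n + 1)) ℂ) (k : ℕ) (c : ℂ) :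
    StronglyMeasurable (inn f k c) := by
  unfold inn
  have h1 : StronglyMeasurable fun p : EE n × ℂ =>
      ((‖ff f (p.2, p.1)‖ : ℝ) : ℂ) ^ (2 * c) * th k c p.2 :=
    ((meas_F f k c).comp measurable_swap).stronglyMeasurable
  exact h1.integral_prod_right

lemma cpow_diff (y : ℝ) {U : Set ℂ} (hU : ∀ c ∈ U, c ≠ 0) :
    DifferentiableOn ℂ (fun c : ℂ => (y : ℂ) ^ (2 * c)) U := by
  by_cases hy : y = 0
  · refine DifferentiableOn.congr (differentiableOn_const (0 : ℂ)) fun c hc => ?_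
    rw [hy, Complex.ofReal_zero, Complex.zero_cpow]
    exact mul_ne_zero two_ne_zero (hU c hc)
  · have h1 : Differentiable ℂ (fun c : ℂ => (y : ℂ) ^ (2 * c)) := by
      have h2 : (y : ℂ) ≠ 0 := by exact_mod_cast hy
      intro c
      exact (DifferentiableAt.const_cpow (by fun_prop) (Or.inl h2))
    exact h1.differentiableOn

lemma th_diff (k : ℕ) (x : ℂ) : Differentiable ℂ (fun c : ℂ => th k c x) := by
  unfold th
  intro c
  refine DifferentiableAt.sub (differentiableAt_const _) ?_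
  refine DifferentiableAt.mul ?_ (differentiableAt_const _)
  exact DifferentiableAt.const_cpow (by fun_prop) (Or.inl two_ne_zero)

/-- the inner integral is holomorphic -/
lemma inn_diff (hk : 0 < k) {σ : ℝ} (hσ : -2 < 2 * k * σ) {t : EE n} (hA : A t ≠ 0)
    {r : Fin k → ℂ} (hr : ∀ x, ff f (x, t) = A t * ∏ i, (x - r i)) :
    DifferentiableOn ℂ (fun c => inn f k c t) (UU σ) := by
  have hkR : (0 : ℝ) < k := by exact_mod_cast hk
  set a : ℝ := ‖A t‖ with ha
  have ha0 : 0 < a := norm_pos_iff.2 hA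
  set B : ℂ → ℝ := fun x => 5 * (a ^ (2 * σ) + 1) *
    ((1 / (k : ℝ)) * ∑ i, (‖x - r i‖ ^ (2 * k * σ) + 1)) with hB
  have iB : IntegrableOn B (closedBall 0 4) := by
    refine Integrable.const_mul (Integrable.const_mul ?_ _) _
    refine integrable_finsetSum _ fun i _ => ?_
    exact (int_ball hσ (r i) 4).add (integrableOn_const (measure_closedBall_lt_top).ne)
  have hBnn : ∀ x, 0 ≤ B x := fun x => by
    rw [hB]
    refine mul_nonneg (by positivity) (mul_nonneg (by positivity) ?_)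
    exact Finset.sum_nonneg fun i _ => by positivity
  refine diffOn_int (UU_open σ) volume
    (fun c x => ((‖ff f (x, t)‖ : ℝ) : ℂ) ^ (2 * c) * th k c x)
    ((closedBall (0 : ℂ) 4).indicator B)
    ((integrable_indicator_iff measurableSet_closedBall).2 iB) ?_ ?_ ?_
  · intro c _
    exact ((meas_F f k c).comp (measurable_id.prodMk measurable_const)).aestronglyMeasurable
  · refine Eventually.of_forall fun x => ?_
    exact (cpow_diff _ fun c hc => fun h0 => by
      rw [h0] at hc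
      exact absurd hc.2.1 (by simp)).mul (th_diff k x).differentiableOn
  · refine Eventually.of_forall fun x c hc => ?_
    obtain ⟨h1, h2, h3⟩ := hc
    by_cases hx : x ∈ closedBall (0 : ℂ) 4
    · rw [indicator_of_mem hx, norm_mul, norm_pw (norm_nonneg _) (by rw [re_2c]; linarith), re_2c]
      have e1 : ‖ff f (x, t)‖ = a * ∏ i, ‖x - r i‖ := by
        rw [hr, norm_mul, norm_prod]
      rw [e1, Real.mul_rpow ha0.le (Finset.prod_nonneg fun i _ => norm_nonneg _)]
      have e2 : a ^ (2 * c.re) ≤ a ^ (2 * σ) + 1 := pw_le ha0.le (by linarith) (by linarith)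
      have e3 : (∏ i, ‖x - r i‖) ^ (2 * c.re) ≤
          (1 / (k : ℝ)) * ∑ i, (‖x - r i‖ ^ (2 * k * σ) + 1) := by
        refine (amgm hk r c.re x).trans ?_
        refine mul_le_mul_of_nonneg_left ?_ (by positivity)
        refine Finset.sum_le_sum fun i _ => pw_le (norm_nonneg _) ?_ ?_
        · exact mul_le_mul_of_nonneg_left h1.le (by positivity)
        · exact mul_nonpos_of_nonneg_of_nonpos (by positivity) h2.le
      have e4 : 0 ≤ (∏ i, ‖x - r i‖) ^ (2 * c.re) :=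
        Real.rpow_nonneg (Finset.prod_nonneg fun i _ => norm_nonneg _) _
      calc a ^ (2 * c.re) * (∏ i, ‖x - r i‖) ^ (2 * c.re) * ‖th k c x‖ ≤
          ((a ^ (2 * σ) + 1) * ((1 / (k : ℝ)) * ∑ i, (‖x - r i‖ ^ (2 * k * σ) + 1))) * 5 := by
            refine mul_le_mul (mul_le_mul e2 e3 e4 (by positivity)) (th_bd k h2 x)
              (norm_nonneg _) ?_
            exact mul_nonneg (by positivity) (e4.trans e3)
        _ = B x := by rw [hB]; ring
    · rw [indicator_of_notMem hx]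
      rw [mem_closedBall_zero_iff, not_le] at hx
      rw [th_zero k c hx.le, mul_zero, norm_zero]

/-- the bump function in the plane -/
noncomputable def rh0 : ContDiffBump (0 : EE n) := ⟨1, 2, one_pos, one_lt_two⟩

/-- the regularized integral -/
noncomputable def ZZ (f : MvPolynomial (Fin (n + 1)) ℂ) (k : ℕ) (c : ℂ) : ℂ :=
  ∫ t, ((rh0 t : ℝ) : ℂ) * inn f k c t

lemma Heavy.kd (H : Heavy k ρ f A Y) : 2 * (k : ℝ) * ρ < 2 := by
  have := H.kρ
  linarith

lemma Heavy.ρ1 (H : Heavy k ρ f A Y) : ρ < 1 := by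
  have h1 := H.kρ
  have h2 := H.ρ0
  have h3 : (1 : ℝ) ≤ k := by exact_mod_cast H.hk
  nlinarith

lemma A_bd (H : Heavy k ρ f A Y) (R : ℝ) : ∃ M : ℝ, 1 ≤ M ∧ ∀ t ∈ closedBall (0 : EE n) R,
    ‖A t‖ ≤ M := by
  obtain ⟨M, hM⟩ := (isCompact_closedBall (0 : EE n) R).exists_bound_of_continuousOn
    H.cA.continuousOn
  exact ⟨max M 1, le_max_right _ _, fun t ht => (hM t ht).trans (le_max_left _ _)⟩

/-- comparison of the powers -/
lemma pw_cmp {y M σ τ : ℝ} (hy : 0 < y) (hM : 1 ≤ M) (hyM : y ≤ M) (h1 : σ ≤ τ) (h2 : τ ≤ σ + 1) :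
    y ^ (2 * τ) ≤ M ^ (2 : ℝ) * y ^ (2 * σ) := by
  have e1 : y ^ (2 * τ) = y ^ (2 * (τ - σ)) * y ^ (2 * σ) := by
    rw [← Real.rpow_add hy]
    congr 1
    ring
  rw [e1]
  refine mul_le_mul_of_nonneg_right ?_ (by positivity)
  calc y ^ (2 * (τ - σ)) ≤ M ^ (2 * (τ - σ)) := Real.rpow_le_rpow hy.le hyM (by linarith)
    _ ≤ M ^ (2 : ℝ) := Real.rpow_le_rpow_of_exponent_le hM (by linarith)

/-- the domination -/
theorem rinn_dom (H : Heavy k ρ f A Y) {σ : ℝ} (hσ : -ρ < σ) (hσ0 : σ < 0) :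
    ∃ g : EE n → ℝ, Integrable g ∧ ∀ᵐ t, ∀ c ∈ UU σ, ‖((rh0 t : ℝ) : ℂ) * inn f k c t‖ ≤ g t := by
  have hkR : (0 : ℝ) < k := by exact_mod_cast H.hk
  have hρ0 := H.ρ0
  have hρ1 := H.ρ1
  have hkd := H.kd
  set q : ℝ := 2 - 2 * k * ρ with hq
  have hq0 : 0 ≤ q := by rw [hq]; linarith
  have hq2 : q ≤ 2 := by
    have : 0 ≤ 2 * (k : ℝ) * ρ := by positivity
    rw [hq]
    linarith
  set β : ℝ := 2 * k * σ - q with hβd
  have hks : -(2 * (k : ℝ) * ρ) < 2 * k * σ := by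
    have := mul_lt_mul_of_pos_left hσ (show (0 : ℝ) < 2 * k by positivity)
    linarith
  have hβ : -2 < β := by
    rw [hβd, hq]
    linarith
  have hks0 : 2 * (k : ℝ) * σ < 0 := mul_neg_of_pos_of_neg (by positivity) hσ0
  have hβ0 : β ≤ 0 := by linarith
  obtain ⟨C, hC0, hC⟩ := upper (k := k) H.hk hβ hβ0 1
  obtain ⟨M, hM1, hM⟩ := A_bd H 2
  have hd1 : -(1 : ℝ) ≤ σ := by
    have := H.ρ1
    linarith
  set g : EE n → ℝ := fun t => C * M ^ (2 : ℝ) * (‖A t‖ ^ (2 * σ) * Y t ^ q) with hg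
  have ig : IntegrableOn g (closedBall 0 2) := (H.I2 σ hσ hσ0 2).const_mul _
  refine ⟨(closedBall (0 : EE n) 2).indicator g,
    (integrable_indicator_iff measurableSet_closedBall).2 ig, ?_⟩
  filter_upwards [H.ae] with t ht c hc
  obtain ⟨r, hr, hrY⟩ := H.root t ht
  obtain ⟨h1, h2, h3⟩ := hc
  by_cases ht2 : t ∈ closedBall (0 : EE n) 2
  · rw [indicator_of_mem ht2, norm_mul, Complex.norm_real, Real.norm_eq_abs,
      abs_of_nonneg rh0.nonneg, inn_eq hr, norm_mul, norm_pw (norm_nonneg _)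
      (by rw [re_2c]; linarith), re_2c]
    have hA0 : 0 < ‖A t‖ := norm_pos_iff.2 ht
    have e1 : ‖A t‖ ^ (2 * c.re) ≤ M ^ (2 : ℝ) * ‖A t‖ ^ (2 * σ) :=
      pw_cmp hA0 hM1 (hM t ht2) h1.le (by linarith)
    have hmono : 2 * (k : ℝ) * σ ≤ 2 * k * c.re := mul_le_mul_of_nonneg_left h1.le (by positivity)
    have e2 : ‖Ic r c‖ ≤ C * Y t ^ q :=
      hC c h2 (by linarith) h3.le q hq0 hq2 (by linarith) r (Y t) hrY
    calc rh0 t * (‖A t‖ ^ (2 * c.re) * ‖Ic r c‖) ≤
        1 * ((M ^ (2 : ℝ) * ‖A t‖ ^ (2 * σ)) * (C * Y t ^ q)) := by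
          refine mul_le_mul rh0.le_one ?_ (by positivity) zero_le_one
          exact mul_le_mul e1 e2 (norm_nonneg _) (by positivity)
      _ = g t := by rw [hg]; ring
  · rw [indicator_of_notMem ht2]
    rw [mem_closedBall_zero_iff, not_le] at ht2
    have h4 : rh0 t = 0 := rh0.zero_of_le_dist (by rw [dist_zero_right]; exact ht2.le)
    rw [h4]
    simp

lemma rinn_meas (f : MvPolynomial (Fin (n + 1)) ℂ) (k : ℕ) (c : ℂ) :
    AEStronglyMeasurable (fun t : EE n => ((rh0 t : ℝ) : ℂ) * inn f k c t) :=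
  ((Complex.measurable_ofReal.comp rh0.continuous.measurable).aestronglyMeasurable).mul
    (inn_meas f k c).aestronglyMeasurable

lemma rinn_int (H : Heavy k ρ f A Y) {σ : ℝ} (hσ : -ρ < σ) (hσ0 : σ < 0) {c : ℂ}
    (hc : c ∈ UU σ) : Integrable (fun t : EE n => ((rh0 t : ℝ) : ℂ) * inn f k c t) := by
  obtain ⟨g, hg, hg2⟩ := rinn_dom H hσ hσ0
  refine Integrable.mono' hg (rinn_meas f k c) ?_
  filter_upwards [hg2] with t ht
  exact ht c hc

/-- **The regularized integral is holomorphic.** -/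
theorem ZZ_diff (H : Heavy k ρ f A Y) {σ : ℝ} (hσ : -ρ < σ) (hσ0 : σ < 0) :
    DifferentiableOn ℂ (ZZ f k) (UU σ) := by
  obtain ⟨g, hg, hg2⟩ := rinn_dom H hσ hσ0
  have hkR : (0 : ℝ) < k := by exact_mod_cast H.hk
  have hkd := H.kd
  have hks : -(2 * (k : ℝ) * ρ) < 2 * k * σ := by
    have := mul_lt_mul_of_pos_left hσ (show (0 : ℝ) < 2 * k by positivity)
    linarith
  refine diffOn_int (UU_open σ) volume (fun c t => ((rh0 t : ℝ) : ℂ) * inn f k c t) g hg
    (fun c _ => rinn_meas f k c) ?_ hg2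
  filter_upwards [H.ae] with t ht
  obtain ⟨r, hr, -⟩ := H.root t ht
  refine (differentiableOn_const _).mul ?_
  exact inn_diff H.hk (by linarith) ht hr

/-- the regularized integral is real analytic -/
lemma ZZ_ana (H : Heavy k ρ f A Y) {σ : ℝ} (hσ : -ρ < σ) (hσ0 : σ < 0) :
    AnalyticOnNhd ℝ (fun c : ℝ => ZZ f k (c : ℂ)) (Ioo σ 0) := by
  intro c hc
  have hd1 : -(1 : ℝ) ≤ σ := by
    have := H.ρ1
    linarith
  have hcU : (c : ℂ) ∈ UU σ := by
    refine ⟨by rw [Complex.ofReal_re]; exact hc.1, by rw [Complex.ofReal_re]; exact hc.2, ?_⟩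
    rw [Complex.norm_real, Real.norm_eq_abs, abs_of_neg hc.2]
    linarith [hc.1]
  have h1 : AnalyticAt ℂ (ZZ f k) (c : ℂ) :=
    (ZZ_diff H hσ hσ0).analyticAt ((UU_open σ).mem_nhds hcU)
  have h2 := h1.restrictScalars (𝕜 := ℝ)
  exact h2.comp (Complex.ofRealCLM.analyticAt c)

/-- local integrability -/
lemma loc_int (H : Heavy k ρ f A Y) : ∃ ε : ℝ, 0 < ε ∧ ε ≤ ρ ∧
    ∀ s : ℝ, -ε < s → s < 0 → ∀ r : ℝ,
    IntegrableOn (fun z : VV n => ‖ff f z‖ ^ (2 * s)) (closedBall 0 r) := by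
  obtain ⟨ε, hε, hερ, hI1⟩ := H.I1
  refine ⟨ε, hε, hερ, fun s hs hs0 r => ?_⟩
  have hkR : (0 : ℝ) < k := by exact_mod_cast H.hk
  have hβ : -2 < 2 * (k : ℝ) * s := by
    have h1 := H.kρ
    have h4 : 2 * (k : ℝ) * -ρ < 2 * k * s := mul_lt_mul_of_pos_left (by linarith) (by positivity)
    linarith
  have hβ0 : 2 * (k : ℝ) * s ≤ 0 := mul_nonpos_of_nonneg_of_nonpos (by positivity) hs0.le
  obtain ⟨C2, hC20, hC2⟩ := Gint hβ hβ0 r
  have hme : Measurable fun z : VV n => ‖ff f z‖ ^ (2 * s) :=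
    (ff_cont f).measurable.norm.pow_const _
  have hfib : ∀ t, A t ≠ 0 → IntegrableOn (fun x => ‖ff f (x, t)‖ ^ (2 * s)) (closedBall 0 r) ∧
      ∫ x in closedBall (0 : ℂ) r, ‖ff f (x, t)‖ ^ (2 * s) ≤ C2 * ‖A t‖ ^ (2 * s) := by
    intro t ht
    obtain ⟨ρ, hρ, -⟩ := H.root t ht
    have hpt : ∀ x, ‖ff f (x, t)‖ ^ (2 * s) ≤
        ‖A t‖ ^ (2 * s) * ((1 / (k : ℝ)) * ∑ i, (‖x - ρ i‖ ^ (2 * k * s) + 1)) := by
      intro x
      rw [hρ, norm_mul, norm_prod,
        Real.mul_rpow (norm_nonneg _) (Finset.prod_nonneg fun i _ => norm_nonneg _)]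
      refine mul_le_mul_of_nonneg_left ?_ (by positivity)
      refine (amgm H.hk ρ s x).trans ?_
      refine mul_le_mul_of_nonneg_left ?_ (by positivity)
      exact Finset.sum_le_sum fun i _ => by linarith
    have hI : IntegrableOn (fun x : ℂ => ‖A t‖ ^ (2 * s) * ((1 / (k : ℝ)) *
        ∑ i, (‖x - ρ i‖ ^ (2 * k * s) + 1))) (closedBall 0 r) := by
      refine Integrable.const_mul (Integrable.const_mul ?_ _) _
      exact integrable_finsetSum _ fun i _ => (hC2 (ρ i)).1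
    have hI2 : IntegrableOn (fun x => ‖ff f (x, t)‖ ^ (2 * s)) (closedBall 0 r) := by
      refine Integrable.mono' hI ?_ (Eventually.of_forall fun x => ?_)
      · exact (hme.comp (measurable_id.prodMk measurable_const)).aestronglyMeasurable
      · rw [Real.norm_eq_abs, abs_of_nonneg (by positivity)]
        exact hpt x
    refine ⟨hI2, (setIntegral_mono hI2 hI hpt).trans ?_⟩
    rw [integral_const_mul, integral_const_mul, integral_finsetSum _ fun i _ => (hC2 (ρ i)).1]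
    have h8 : ∑ i, ∫ x in closedBall (0 : ℂ) r, (‖x - ρ i‖ ^ (2 * k * s) + 1) ≤ k * C2 := by
      refine (Finset.sum_le_sum fun i _ => (hC2 (ρ i)).2).trans ?_
      rw [Finset.sum_const, Finset.card_univ, Fintype.card_fin, nsmul_eq_mul]
    have h9 : 1 / (k : ℝ) * ∑ i, ∫ x in closedBall (0 : ℂ) r, (‖x - ρ i‖ ^ (2 * k * s) + 1) ≤
        C2 := by
      calc _ ≤ 1 / (k : ℝ) * (k * C2) := mul_le_mul_of_nonneg_left h8 (by positivity)
        _ = C2 := by field_simp
    have h10 : 0 ≤ ‖A t‖ ^ (2 * s) := by positivity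
    calc _ ≤ ‖A t‖ ^ (2 * s) * C2 := mul_le_mul_of_nonneg_left h9 h10
      _ = _ := by ring
  have hprod : IntegrableOn (fun z : VV n => ‖ff f z‖ ^ (2 * s))
      (closedBall (0 : ℂ) r ×ˢ closedBall (0 : EE n) r) := by
    unfold IntegrableOn
    rw [Measure.volume_eq_prod, ← Measure.prod_restrict]
    rw [integrable_prod_iff' hme.aestronglyMeasurable]
    refine ⟨?_, ?_⟩
    · refine ae_restrict_of_ae ?_
      filter_upwards [H.ae] with t ht
      exact (hfib t ht).1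
    · have h1 : IntegrableOn (fun t => C2 * ‖A t‖ ^ (2 * s)) (closedBall (0 : EE n) r) :=
        (hI1 s hs hs0 r).const_mul _
      refine Integrable.mono' h1 ?_ ?_
      · have h2 : StronglyMeasurable fun p : EE n × ℂ => ‖‖ff f (p.2, p.1)‖ ^ (2 * s)‖ :=
          ((hme.comp measurable_swap).norm).stronglyMeasurable
        exact (h2.integral_prod_right (ν := volume.restrict (closedBall (0 : ℂ) r))).aestronglyMeasurable
      · refine ae_restrict_of_ae ?_
        filter_upwards [H.ae] with t ht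
        rw [Real.norm_eq_abs, abs_of_nonneg (integral_nonneg fun x => norm_nonneg _)]
        have h3 := (hfib t ht).2
        refine le_trans (le_of_eq ?_) h3
        refine integral_congr_ae (Eventually.of_forall fun x => ?_)
        simp only
        rw [Real.norm_eq_abs, abs_of_nonneg (by positivity)]
  refine hprod.mono_set ?_
  intro z hz
  rw [mem_closedBall_zero_iff] at hz
  refine ⟨?_, ?_⟩
  · rw [mem_closedBall_zero_iff]
    exact (norm_fst_le z).trans hz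
  · rw [mem_closedBall_zero_iff]
    exact (norm_snd_le z).trans hz

end Pool.Agent.KS6_81.HN
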