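import Mathlib

set_option autoImplicit false

/-! # Weighted homogeneous polynomials with a point of high multiplicity: the definition -/

namespace Pool.Agent.KS6_81.HN

open MvPolynomial MeasureTheory

/-- The weighted homogeneous polynomial `f` in `x_0, …, x_n`, of the degree `d` for the weights `w_i`,
has a heavy point with a mild tangent cone.

After an automorphism `φ` of `ℂ[x_0, …, x_n]` (for instance a linear change of coordinates, or a
permutation of the variables) `f = ∑_{j ≤ k} x_0 ^ (k - j) A_j(x_1, …, x_n)` is weighted homogeneous of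
a degree `e` for weights `u_i > 0` with `ρ = (∑ u_i) / e = (∑ w_i) / d`, and `k ρ < 1`. (If all
weights are `1`, then the hypersurface `f = 0` in the projective space has the multiplicity
`d - k > n d / (n + 1)` at `P = (1 : 0 : … : 0)`, and `A_0 = 0` is its tangent cone.) And

* there is `c > 1 - k ρ` such that `|A_0| ^ (-2ρ) (|A_j| / |A_0|) ^ (2q/j)` is locally integrable on
  `ℂ ^ n ∖ 0` for `1 ≤ j ≤ k`, `1 - k ρ ≤ q ≤ c` (this is a condition at the zeros `t ≠ 0` of
  `A_0`; it holds if `|A_0| ^ (-2c')` is locally integrable there for some `c' > 1 - (k - 1) ρ`);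
* for some `t` with `A_0(t) ≠ 0` the polynomial `f(x, t)` in `x` has two different zeros.

There is no condition on the other singularities of `f = 0`, or on multiple components. -/
def HeavyVar (n : ℕ) (w : Fin (n + 1) → ℕ) (d : ℕ) (f : MvPolynomial (Fin (n + 1)) ℂ) : Prop :=
  ∃ (φ : MvPolynomial (Fin (n + 1)) ℂ ≃ₐ[ℂ] MvPolynomial (Fin (n + 1)) ℂ)
    (u : Fin (n + 1) → ℕ) (U e k : ℕ) (A : ℕ → MvPolynomial (Fin n) ℂ) (ρ c : ℝ),
    U = ∑ i, u i ∧ (∀ i, 0 < u i) ∧ e * ∑ i, w i = d * U ∧ k * U < e ∧ ρ * e = U ∧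
    1 < c + k * ρ ∧ φ f = ∑ j ∈ Finset.range (k + 1), X 0 ^ (k - j) * rename Fin.succ (A j) ∧
    (∀ j ≤ k, (A j).IsWeightedHomogeneous (fun i => u i.succ) (e - (k - j) * u 0)) ∧
    (∀ (j : ℕ) (q : ℝ), 1 ≤ j → j ≤ k → 1 ≤ q + k * ρ → q ≤ c →
      LocallyIntegrableOn (fun t => ‖eval t (A 0)‖ ^ (-(2 * ρ)) *
        (‖eval t (A j)‖ / ‖eval t (A 0)‖) ^ (2 * q / j)) {t | t ≠ 0}) ∧
    ∃ t x y, eval t (A 0) ≠ 0 ∧ x ≠ y ∧ eval (Fin.cons x t) (φ f) = 0 ∧
      eval (Fin.cons y t) (φ f) = 0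

end Pool.Agent.KS6_81.HN
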