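import Pool.Agent.KS6_81.HN.Cont

set_option autoImplicit false

/-! # The functional equation for the regularized integral -/

namespace Pool.Agent.KS6_81.HN

open Set Filter Topology Metric MeasureTheory
open scoped ContDiff
open Pool.Agent.H628R4.TP (weylS IsBFunction)
open Pool.Agent.KS6_81.HP (cpw re_2kc re_2c amgm norm_pw th0 th0_zero pw_le int_ball Gint Kc th
  th_bd th_zero th_meas Ic upper diffOn_int)

variable {n k : ℕ} {ρ : ℝ} {f : MvPolynomial (Fin (n + 1)) ℂ} {A : EE n → ℂ} {Y : EE n → ℝ}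

/-- the test functions -/
noncomputable def psi (a : ℂ) (z : VV n) : ℂ := ((rh0 z.2 : ℝ) : ℂ) * ((th0 (z.1 / a) : ℝ) : ℂ)

lemma psi_smooth (a : ℂ) : ContDiff ℝ ∞ (psi (n := n) a) := by
  unfold psi
  refine ContDiff.mul ?_ ?_
  · exact Complex.ofRealCLM.contDiff.comp (rh0.contDiff.comp contDiff_snd)
  · exact Complex.ofRealCLM.contDiff.comp (th0.contDiff.comp (contDiff_fst.div_const a))

lemma psi_zero {a : ℂ} (ha0 : a ≠ 0) (ha : ‖a‖ ≤ 2) {z : VV n} (hz : 4 ≤ ‖z‖) : psi a z = 0 := by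
  unfold psi
  rcases le_or_gt 2 ‖z.2‖ with h | h
  · rw [rh0.zero_of_le_dist (show (2 : ℝ) ≤ dist z.2 0 by rw [dist_zero_right]; exact h)]
    simp
  · have h1 : 4 ≤ ‖z.1‖ := by
      rw [Prod.norm_def] at hz
      rcases le_max_iff.1 hz with h2 | h2
      · exact h2
      · linarith
    have h2 : 2 ≤ ‖z.1 / a‖ := by
      rw [norm_div, le_div_iff₀ (norm_pos_iff.2 ha0)]
      linarith
    rw [th0_zero h2]
    simp

lemma psi_cs {a : ℂ} (ha0 : a ≠ 0) (ha : ‖a‖ ≤ 2) : HasCompactSupport (psi (n := n) a) := by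
  refine HasCompactSupport.intro (isCompact_closedBall (0 : VV n) 4) fun z hz => ?_
  rw [mem_closedBall_zero_iff, not_le] at hz
  exact psi_zero ha0 ha hz.le

lemma psi_le (a : ℂ) (z : VV n) : ‖psi a z‖ ≤ 1 := by
  unfold psi
  rw [norm_mul, Complex.norm_real, Complex.norm_real, Real.norm_eq_abs, Real.norm_eq_abs,
    abs_of_nonneg rh0.nonneg, abs_of_nonneg th0.nonneg]
  calc rh0 z.2 * th0 (z.1 / a) ≤ 1 * 1 :=
        mul_le_mul rh0.le_one th0.le_one th0.nonneg zero_le_one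
    _ = 1 := one_mul 1

lemma psi_int {a : ℂ} (ha0 : a ≠ 0) (ha : ‖a‖ ≤ 2) {c : ℝ}
    (hloc : ∀ r : ℝ, IntegrableOn (fun z : VV n => ‖ff f z‖ ^ (2 * c)) (closedBall 0 r)) :
    Integrable fun z : VV n => ((‖ff f z‖ ^ (2 * c) : ℝ) : ℂ) * psi a z := by
  have h1 := (integrable_indicator_iff measurableSet_closedBall).2 (hloc 4)
  refine Integrable.mono' h1 ?_ (Eventually.of_forall fun z => ?_)
  · refine Measurable.aestronglyMeasurable ?_
    refine Measurable.mul ?_ (psi_smooth a).continuous.measurable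
    exact Complex.measurable_ofReal.comp ((ff_cont f).measurable.norm.pow_const _)
  · by_cases hz : z ∈ closedBall (0 : VV n) 4
    · rw [indicator_of_mem hz, norm_mul, Complex.norm_real, Real.norm_eq_abs,
        abs_of_nonneg (by positivity)]
      exact mul_le_of_le_one_right (by positivity) (psi_le a z)
    · rw [indicator_of_notMem hz]
      rw [mem_closedBall_zero_iff, not_le] at hz
      rw [psi_zero ha0 ha hz.le, mul_zero, norm_zero]

/-- Fubini -/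
lemma ZZ_fub {c : ℝ}
    (hloc : ∀ r : ℝ, IntegrableOn (fun z : VV n => ‖ff f z‖ ^ (2 * c)) (closedBall 0 r)) :
    ZZ f k (c : ℂ) = (∫ z, ((‖ff f z‖ ^ (2 * c) : ℝ) : ℂ) * psi 2 z) -
      (2 : ℂ) ^ (2 * k * (c : ℂ) + 2) * ∫ z, ((‖ff f z‖ ^ (2 * c) : ℝ) : ℂ) * psi 1 z := by
  have i1 := psi_int (two_ne_zero) (by norm_num : ‖(2 : ℂ)‖ ≤ 2) hloc
  have i2 := psi_int (one_ne_zero) (by norm_num : ‖(1 : ℂ)‖ ≤ 2) hloc
  rw [← integral_const_mul, ← integral_sub i1 (i2.const_mul _)]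
  have i3 := i1.sub (i2.const_mul ((2 : ℂ) ^ (2 * k * (c : ℂ) + 2)))
  have h1 := integral_prod_symm _ i3
  refine Eq.trans ?_ h1.symm
  unfold ZZ
  refine integral_congr_ae (Eventually.of_forall fun t => ?_)
  simp only
  unfold inn
  rw [← integral_const_mul]
  refine integral_congr_ae (Eventually.of_forall fun x => ?_)
  simp only [Pi.sub_apply]
  have e1 : ((‖ff f (x, t)‖ : ℝ) : ℂ) ^ (2 * (c : ℂ)) = ((‖ff f (x, t)‖ ^ (2 * c) : ℝ) : ℂ) := by
    rw [Complex.ofReal_cpow (norm_nonneg _)]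
    push_cast
    rfl
  rw [e1]
  unfold psi th
  simp only [div_one]
  ring

/-- **The functional equation for the regularized integral.** -/
theorem ZZ_eq (H : Heavy k ρ f A Y) (hf : f ≠ 0) {b : Polynomial ℂ} (hb : IsBFunction f b) :
    ∃ R : ℝ → ℂ, AnalyticOnNhd ℝ R (Ioi (-1)) ∧ ∀ c : ℝ, -ρ < c → c < 0 →
      (b.eval (c : ℂ) * (b.map (starRingEnd ℂ)).eval (c : ℂ)) * ZZ f k (c : ℂ) = R c := by
  have hρ0 := H.ρ0
  have hρ1 := H.ρ1
  obtain ⟨ε, hε, hερ, hloc⟩ := loc_int H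
  have hε1 : ε ≤ 1 := by linarith
  obtain ⟨R1, hR1, hR1'⟩ := crit f hf b hb hε hε1 hloc
    (psi 2) (psi_smooth 2) (psi_cs two_ne_zero (by norm_num))
  obtain ⟨R2, hR2, hR2'⟩ := crit f hf b hb hε hε1 hloc
    (psi 1) (psi_smooth 1) (psi_cs one_ne_zero (by norm_num))
  have hpow : AnalyticOnNhd ℝ (fun c : ℝ => (2 : ℂ) ^ (2 * k * (c : ℂ) + 2)) univ := by
    intro c _
    have h1 : Differentiable ℂ (fun z : ℂ => (2 : ℂ) ^ (2 * k * z + 2)) := fun z =>
      DifferentiableAt.const_cpow (by fun_prop) (Or.inl two_ne_zero)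
    have h2 := (h1.analyticAt (c : ℂ)).restrictScalars (𝕜 := ℝ)
    exact h2.comp (Complex.ofRealCLM.analyticAt c)
  have hBa : AnalyticOnNhd ℝ (fun t : ℝ =>
      b.eval (t : ℂ) * (b.map (starRingEnd ℂ)).eval (t : ℂ)) univ := by
    have hpoly : ∀ B : Polynomial ℂ, AnalyticOnNhd ℝ (fun t : ℝ => B.eval (t : ℂ)) univ := by
      intro B t _
      have h1 : AnalyticAt ℝ (fun z : ℂ => B.eval z) (t : ℂ) := by
        have h2 : AnalyticAt ℂ (fun z : ℂ => Polynomial.aeval z B) (t : ℂ) :=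
          AnalyticAt.aeval_polynomial analyticAt_id _
        have h3 := h2.restrictScalars (𝕜 := ℝ)
        refine h3.congr (Eventually.of_forall fun z => ?_)
        simp only [Polynomial.coe_aeval_eq_eval]
      exact h1.comp (Complex.ofRealCLM.analyticAt t)
    exact (hpoly _).mul (hpoly _)
  refine ⟨fun c => R1 c - (2 : ℂ) ^ (2 * k * (c : ℂ) + 2) * R2 c,
    hR1.sub ((hpow.mono (subset_univ _)).mul hR2), fun c hc hc0 => ?_⟩
  -- choose `σ`
  obtain ⟨σ, hσ1, hσ2⟩ := exists_between hc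
  have hσ0 : σ < 0 := hσ2.trans hc0
  have hσm : -1 ≤ σ := by linarith
  set z0 : ℝ := max (c / 2) (-ε / 2) with hz0
  have hz01 : z0 < 0 := max_lt (by linarith) (by linarith)
  have hz02 : σ < z0 := lt_of_lt_of_le (by linarith) (le_max_left _ _)
  have hz03 : -ε < z0 := lt_of_lt_of_le (by linarith) (le_max_right _ _)
  have hfe : EqOn (fun t : ℝ => (b.eval (t : ℂ) * (b.map (starRingEnd ℂ)).eval (t : ℂ)) *
      ZZ f k (t : ℂ) - (R1 t - (2 : ℂ) ^ (2 * k * (t : ℂ) + 2) * R2 t)) 0 (Ioo σ 0) := by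
    refine AnalyticOnNhd.eqOn_zero_of_preconnected_of_eventuallyEq_zero (𝕜 := ℝ) ?_
      isPreconnected_Ioo (z₀ := z0) ⟨hz02, hz01⟩ ?_
    · have hsub : Ioo σ 0 ⊆ Ioi (-1 : ℝ) := fun t ht => lt_of_le_of_lt hσm ht.1
      exact ((hBa.mono (subset_univ _)).mul (ZZ_ana H hσ1 hσ0)).sub
        ((hR1.mono hsub).sub ((hpow.mono (subset_univ _)).mul (hR2.mono hsub)))
    · have h1 : Ioo (-ε) 0 ∈ 𝓝 z0 := Ioo_mem_nhds hz03 hz01
      filter_upwards [h1] with t ht
      simp only [Pi.zero_apply]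
      rw [ZZ_fub (hloc t ht.1 ht.2), mul_sub, hR1' t ht.1 ht.2, ← hR2' t ht.1 ht.2]
      ring
  have h1 := hfe (show c ∈ Ioo σ 0 from ⟨hσ2, hc0⟩)
  simp only [Pi.zero_apply] at h1
  exact sub_eq_zero.1 h1

end Pool.Agent.KS6_81.HN
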