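import Pool.Agent.KS6_81.HP.Low
import Pool.Agent.KS6_81.HN.Ident

set_option autoImplicit false

/-! # The uniform lower bound -/

namespace Pool.Agent.KS6_81.HN

open Set Filter Topology Metric MeasureTheory
open scoped ContDiff Pointwise
open Pool.Agent.H628R4.TP (weylS IsBFunction)
open Pool.Agent.KS6_81.HP (Dr Dr_nonneg Dr_int Dr_low Dr_scal small_factor)

variable {n k : ℕ} {ρ : ℝ} {f : MvPolynomial (Fin (n + 1)) ℂ} {A : EE n → ℂ} {Y : EE n → ℝ}

/-- the weighted action -/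
def act (w : Fin n → ℕ) (l : ℂ) (t : EE n) : EE n := fun i => l ^ w i * t i

/-- the full data -/
structure Heavy2 (w0 : ℕ) (w : Fin n → ℕ) (k D : ℕ) (ρ : ℝ) (f : MvPolynomial (Fin (n + 1)) ℂ)
    (A : EE n → ℂ) (Y : EE n → ℝ) : Prop extends Heavy k ρ f A Y where
  w0pos : 0 < w0
  wpos : ∀ i, 0 < w i
  hρ : ρ * (D + k * w0) = w0 + ∑ i, (w i : ℝ)
  I3 : ∃ q : ℝ, 0 ≤ q ∧ q ≤ 2 ∧ LI fun t => ‖A t‖ ^ (2 * (-ρ)) * Y t ^ q
  hA : ∀ (l : ℝ) (t : EE n), A (act w l t) = (l : ℂ) ^ D * A t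
  hf : ∀ (l : ℝ) (x : ℂ) (t : EE n),
    ff f ((l : ℂ) ^ w0 * x, act w l t) = (l : ℂ) ^ (D + k * w0) * ff f (x, t)
  dist : ∃ (t : EE n) (x x' : ℂ), A t ≠ 0 ∧ x ≠ x' ∧ ff f (x, t) = 0 ∧ ff f (x', t) = 0

variable {w0 D : ℕ} {w : Fin n → ℕ}

lemma Heavy2.Dpos (H : Heavy2 w0 w k D ρ f A Y) : 0 < D := by
  by_contra h
  have hD : D = 0 := by omega
  have h1 := H.hρ
  have h2 := H.kρ
  have h3 : (0 : ℝ) < w0 := by exact_mod_cast H.w0pos
  have h4 : (0 : ℝ) ≤ ∑ i, (w i : ℝ) := Finset.sum_nonneg fun i _ => by positivity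
  rw [hD] at h1
  push_cast at h1
  nlinarith

/-- **The uniform lower bound near a line with two different roots.** -/
theorem unif (H : Heavy2 w0 w k D ρ f A Y) : ∃ (t0 : EE n) (i0 : Fin n) (ε η : ℝ),
    0 < ε ∧ 0 < η ∧ ‖t0‖ + ε ≤ 1 ∧ 4 * ε ≤ ‖t0 i0‖ ∧ ∀ u ∈ ball t0 ε, A u ≠ 0 ∧
      ∀ c : ℝ, -ρ < c → c ≤ -ρ / 2 → ∀ r : Fin k → ℂ,
        (∀ x, ff f (x, u) = A u * ∏ i, (x - r i)) →
          η ≤ ∫ x in closedBall (0 : ℂ) 1, Dr r c x := by
  have hk := H.hk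
  have hkR : (0 : ℝ) < k := by exact_mod_cast hk
  have hρ0 := H.ρ0
  have hρ1 := H.toHeavy.ρ1
  have hw0 := H.w0pos
  obtain ⟨t', x', y', hA', hxy', hx', hy'⟩ := H.dist
  -- scale
  set l : ℝ := 1 / (2 * (1 + ‖t'‖ + ‖x'‖ + ‖y'‖)) with hl
  have hden : 0 < 2 * (1 + ‖t'‖ + ‖x'‖ + ‖y'‖) := by positivity
  have hl0 : 0 < l := by positivity
  have hlC : (l : ℂ) ≠ 0 := by exact_mod_cast hl0.ne'
  have hsm : ∀ v : ℝ, 0 ≤ v → v ≤ 1 + ‖t'‖ + ‖x'‖ + ‖y'‖ → l * v ≤ 1 / 2 := by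
    intro v _ hv2
    rw [hl, div_mul_eq_mul_div, one_mul, div_le_iff₀ hden]
    linarith
  have hl1 : l ≤ 1 := by
    have := hsm 1 zero_le_one (by
      have := norm_nonneg t'
      have := norm_nonneg x'
      have := norm_nonneg y'
      linarith)
    linarith
  have hpw : ∀ m : ℕ, 0 < m → ‖(l : ℂ) ^ m‖ ≤ l := by
    intro m hm
    rw [norm_pow, Complex.norm_real, Real.norm_eq_abs, abs_of_pos hl0]
    calc l ^ m ≤ l ^ 1 := pow_le_pow_of_le_one hl0.le hl1 hm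
      _ = l := pow_one l
  set t0 : EE n := act w (l : ℂ) t' with ht0
  set x1 : ℂ := (l : ℂ) ^ w0 * x' with hx1
  set x2 : ℂ := (l : ℂ) ^ w0 * y' with hx2
  have nt0 : ‖t0‖ ≤ l * ‖t'‖ := by
    refine (pi_norm_le_iff_of_nonneg (by positivity)).2 fun i => ?_
    rw [ht0]
    unfold act
    rw [norm_mul]
    exact mul_le_mul (hpw _ (H.wpos i)) (norm_le_pi_norm t' i) (norm_nonneg _) hl0.le
  have nx1 : ‖x1‖ ≤ 1 / 2 := by
    rw [hx1, norm_mul]
    have h1 : l * ‖x'‖ ≤ 1 / 2 := by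
      refine hsm _ (norm_nonneg _) ?_
      have := norm_nonneg t'
      have := norm_nonneg y'
      linarith
    exact (mul_le_mul_of_nonneg_right (hpw _ hw0) (norm_nonneg _)).trans h1
  have hA0 : A t0 ≠ 0 := by
    rw [ht0, H.hA]
    exact mul_ne_zero (pow_ne_zero _ hlC) hA'
  have hf1 : ff f (x1, t0) = 0 := by
    rw [hx1, ht0, H.hf, hx', mul_zero]
  have hf2 : ff f (x2, t0) = 0 := by
    rw [hx2, ht0, H.hf, hy', mul_zero]
  have hx12 : x1 ≠ x2 := by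
    intro h
    exact hxy' (mul_left_cancel₀ (pow_ne_zero w0 hlC) h)
  have hD : 0 < ‖x1 - x2‖ := norm_pos_iff.2 (sub_ne_zero.2 hx12)
  have hD1 : ‖x1 - x2‖ ≤ 1 := by
    have nx2 : ‖x2‖ ≤ 1 / 2 := by
      rw [hx2, norm_mul]
      have h1 : l * ‖y'‖ ≤ 1 / 2 := by
        refine hsm _ (norm_nonneg _) ?_
        have := norm_nonneg t'
        have := norm_nonneg x'
        linarith
      exact (mul_le_mul_of_nonneg_right (hpw _ hw0) (norm_nonneg _)).trans h1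
    have := norm_sub_le x1 x2
    linarith
  set δ : ℝ := ‖x1 - x2‖ / 16 with hδ
  have hδ0 : 0 < δ := by positivity
  have hδ1 : δ ≤ 1 / 16 := by rw [hδ]; linarith
  -- `t0 ≠ 0`
  obtain ⟨i0, hi0⟩ : ∃ i0, t0 i0 ≠ 0 := by
    by_contra hcon
    push Not at hcon
    refine hA0 ?_
    have h1 := H.hA 0 t0
    have h2 : act w ((0 : ℝ) : ℂ) t0 = t0 := by
      funext i
      unfold act
      rw [hcon i, mul_zero]
    rw [h2, Complex.ofReal_zero, zero_pow (Heavy2.Dpos H).ne', zero_mul] at h1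
    exact h1
  have ht00 : 0 < ‖t0 i0‖ := norm_pos_iff.2 hi0
  -- the neighbourhood
  have cA := H.cA
  have cG : ∀ x : ℂ, Continuous fun u : EE n => ff f (x, u) := fun x =>
    (ff_cont f).comp (continuous_const.prodMk continuous_id)
  have ev1 : ∀ᶠ u in 𝓝 t0, A u ≠ 0 := cA.continuousAt.eventually_ne hA0
  have ev2 : ∀ x : ℂ, ff f (x, t0) = 0 → ∀ᶠ u in 𝓝 t0, ‖ff f (x, u)‖ / ‖A u‖ < δ ^ k := by
    intro x hx
    have h1 : Tendsto (fun u => ‖ff f (x, u)‖ / ‖A u‖) (𝓝 t0) (𝓝 (‖ff f (x, t0)‖ / ‖A t0‖)) :=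
      (((cG x).norm.tendsto t0).div (cA.norm.tendsto t0) (norm_ne_zero_iff.2 hA0))
    rw [hx, norm_zero, zero_div] at h1
    exact h1.eventually (gt_mem_nhds (by positivity))
  obtain ⟨ε', hε', hball⟩ := Metric.eventually_nhds_iff_ball.1
    (ev1.and ((ev2 x1 hf1).and (ev2 x2 hf2)))
  set ε : ℝ := min ε' (‖t0 i0‖ / 4) with hε
  have hε0 : 0 < ε := lt_min hε' (by positivity)
  -- the constant
  set θ : ℝ := 1 - (7 : ℝ) ^ (k * (-ρ / 2)) with hθ
  have hθ0 : 0 < θ := by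
    have : (7 : ℝ) ^ (k * (-ρ / 2)) < 1 := by
      refine Real.rpow_lt_one_of_one_lt_of_neg (by norm_num) ?_
      refine mul_neg_of_pos_of_neg hkR ?_
      linarith
    rw [hθ]
    linarith
  set V : ℝ := (volume : Measure ℂ).real (ball x1 δ) with hV
  have hV0 : 0 < V := by
    rw [hV, Measure.real, ENNReal.toReal_pos_iff]
    exact ⟨measure_ball_pos _ _ hδ0, measure_ball_lt_top⟩
  refine ⟨t0, i0, ε, (1 / k : ℝ) * θ ^ 2 * V, hε0, by positivity, ?_, ?_, ?_⟩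
  · have h1 : l * ‖t'‖ ≤ 1 / 2 := by
      refine hsm _ (norm_nonneg _) ?_
      have := norm_nonneg x'
      have := norm_nonneg y'
      linarith
    have h2 : ε ≤ ‖t0 i0‖ / 4 := min_le_right _ _
    have h3 := norm_le_pi_norm t0 i0
    linarith
  · have h2 : ε ≤ ‖t0 i0‖ / 4 := min_le_right _ _
    linarith
  intro u hu
  obtain ⟨g1, g2, g3⟩ := hball u (ball_subset_ball (min_le_left _ _) hu)
  refine ⟨g1, fun c hc1 hc2 r hr => ?_⟩
  have hAu : 0 < ‖A u‖ := norm_pos_iff.2 g1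
  have hprod : ∀ x, ‖ff f (x, u)‖ / ‖A u‖ = ∏ i, ‖x - r i‖ := by
    intro x
    rw [hr, norm_mul, norm_prod, mul_div_cancel_left₀ _ hAu.ne']
  rw [hprod] at g2 g3
  obtain ⟨a, ha⟩ := small_factor r x1 hδ0 g2
  obtain ⟨b, hb⟩ := small_factor r x2 hδ0 g3
  have hx16 : ‖x1 - x2‖ = 16 * δ := by rw [hδ]; ring
  have hab : a ≠ b := by
    intro h
    rw [← h] at hb
    have h1 := norm_sub_le_norm_sub_add_norm_sub x1 (r a) x2
    rw [norm_sub_rev (r a) x2] at h1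
    linarith
  have hc0 : c < 0 := by linarith
  have hβ : -2 < 2 * (k : ℝ) * -ρ := by
    have h1 := H.toHeavy.kd
    linarith
  have hβ1 : 2 * (k : ℝ) * -ρ ≤ 2 * k * c := mul_le_mul_of_nonneg_left hc1.le (by positivity)
  have hI := Dr_int hk hβ hc0 hβ1 r 1
  have hsub : ball x1 δ ⊆ closedBall (0 : ℂ) 1 := by
    intro x hx
    rw [mem_ball, dist_eq_norm] at hx
    rw [mem_closedBall_zero_iff]
    have h1 := norm_add_le (x - x1) x1
    rw [sub_add_cancel] at h1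
    linarith
  have h1 : ∫ x in ball x1 δ, Dr r c x ≤ ∫ x in closedBall (0 : ℂ) 1, Dr r c x :=
    setIntegral_mono_set hI (Eventually.of_forall fun x => Dr_nonneg hk r c x)
      (LE.le.eventuallyLE hsub)
  refine le_trans ?_ h1
  have h2 : ∫ _x in ball x1 δ, (1 / k : ℝ) * θ ^ 2 ≤ ∫ x in ball x1 δ, Dr r c x := by
    refine setIntegral_mono_on_ae (integrableOn_const measure_ball_lt_top.ne) (hI.mono_set hsub)
      measurableSet_ball ?_
    have hae : ∀ᵐ x : ℂ, x ≠ r a := by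
      have : (volume : Measure ℂ) {r a} = 0 := measure_singleton _
      exact compl_mem_ae_iff.2 this
    filter_upwards [hae] with x hxa hx
    refine le_trans ?_ (Dr_low hk r c x hab)
    refine mul_le_mul_of_nonneg_left ?_ (by positivity)
    rw [mem_ball, dist_eq_norm] at hx
    have e1 : ‖x - r a‖ < 2 * δ := by
      have := norm_sub_le_norm_sub_add_norm_sub x x1 (r a)
      linarith
    have e2 : 14 * δ < ‖x - r b‖ := by
      have h3 := norm_sub_le_norm_sub_add_norm_sub x1 x x2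
      have h4 := norm_sub_le_norm_sub_add_norm_sub x (r b) x2
      rw [norm_sub_rev x1 x] at h3
      rw [norm_sub_rev (r b) x2] at h4
      linarith
    have p1 : 0 < ‖x - r a‖ := norm_pos_iff.2 (sub_ne_zero.2 hxa)
    have hkc : k * c ≤ 0 := mul_nonpos_of_nonneg_of_nonpos hkR.le hc0.le
    have e3 : (2 * δ) ^ (k * c) ≤ ‖x - r a‖ ^ (k * c) :=
      Real.rpow_le_rpow_of_nonpos p1 e1.le hkc
    have e4 : ‖x - r b‖ ^ (k * c) ≤ (14 * δ) ^ (k * c) :=
      Real.rpow_le_rpow_of_nonpos (by positivity) e2.le hkc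
    have e5 : (14 * δ) ^ (k * c) = 7 ^ (k * c) * (2 * δ) ^ (k * c) := by
      rw [← Real.mul_rpow (by norm_num) (by positivity)]
      congr 1
      ring
    have e6 : 1 ≤ (2 * δ) ^ (k * c) :=
      Real.one_le_rpow_of_pos_of_le_one_of_nonpos (by positivity) (by linarith) hkc
    have e7 : (7 : ℝ) ^ (k * c) ≤ 7 ^ (k * (-ρ / 2)) :=
      Real.rpow_le_rpow_of_exponent_le (by norm_num) (mul_le_mul_of_nonneg_left hc2 hkR.le)
    have e8 : θ ≤ ‖x - r a‖ ^ (k * c) - ‖x - r b‖ ^ (k * c) := by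
      have : θ * 1 ≤ (1 - 7 ^ (k * c)) * (2 * δ) ^ (k * c) := by
        refine mul_le_mul ?_ e6 zero_le_one ?_
        · rw [hθ]
          linarith
        · have : (7 : ℝ) ^ (k * (-ρ / 2)) < 1 := by
            rw [hθ] at hθ0
            linarith
          linarith
      rw [e5] at e4
      nlinarith
    exact pow_le_pow_left₀ hθ0.le e8 2
  refine le_trans (le_of_eq ?_) h2
  rw [setIntegral_const, smul_eq_mul, mul_comm]

end Pool.Agent.KS6_81.HN
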