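import Pool.Agent.KS6_81.HN.Null

set_option autoImplicit false

/-! # Products of powers of polynomials: local integrability -/

namespace Pool.Agent.KS6_81.HN

open Set Filter Topology Metric MeasureTheory

variable {n : ℕ}

/-- **Products of negative powers of polynomials with small multiplicities.** -/
theorem prod_int {r : ℕ} (L : Fin r → MvPolynomial (Fin n) ℂ) (a : EE n) (μ : Fin r → ℕ)
    (h : ∀ i, MvPolynomial.homogeneousComponent (μ i) (trl a (L i)) ≠ 0) (c : Fin r → ℝ)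
    (hc0 : ∀ i, 0 ≤ c i) (hc : ∑ i, c i * μ i < 1) :
    ∃ V ∈ 𝓝 a, IntegrableOn (fun y => ∏ i, ‖MvPolynomial.eval y (L i)‖ ^ (-(2 * c i))) V := by
  by_cases hall : ∀ i, c i = 0
  · refine ⟨ball a 1, ball_mem_nhds _ one_pos, ?_⟩
    have h1 : (fun y : EE n => ∏ i, ‖MvPolynomial.eval y (L i)‖ ^ (-(2 * c i))) = fun _ => 1 := by
      funext y
      refine Finset.prod_eq_one fun i _ => ?_
      rw [hall i, mul_zero, neg_zero, Real.rpow_zero]
    rw [h1]
    exact integrableOn_const measure_ball_lt_top.ne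
  push Not at hall
  obtain ⟨i0, hi0⟩ := hall
  have hcs : 0 < ∑ i, c i :=
    Finset.sum_pos' (fun i _ => hc0 i) ⟨i0, Finset.mem_univ _, lt_of_le_of_ne (hc0 i0) hi0.symm⟩
  set ε : ℝ := (1 - ∑ i, c i * μ i) / (2 * ∑ i, c i) with hε
  have hε0 : 0 < ε := div_pos (by linarith) (by linarith)
  set S : ℝ := ∑ i, c i * (μ i + ε) with hS
  have hSe : S = ∑ i, c i * μ i + ε * ∑ i, c i := by
    rw [hS, Finset.mul_sum, ← Finset.sum_add_distrib]
    exact Finset.sum_congr rfl fun i _ => by ring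
  have hεc : ε * ∑ i, c i = (1 - ∑ i, c i * μ i) / 2 := by
    rw [hε]
    field_simp
  have hS1 : S < 1 := by
    rw [hSe, hεc]
    linarith
  have hS0 : 0 < S := by
    have h1 : 0 ≤ ∑ i, c i * (μ i : ℝ) := Finset.sum_nonneg fun i _ => mul_nonneg (hc0 i)
      (Nat.cast_nonneg _)
    rw [hSe]
    have := mul_pos hε0 hcs
    linarith
  have hμ : ∀ i, 0 < (μ i : ℝ) + ε := fun i => by positivity
  have hI : ∀ i, ∃ V ∈ 𝓝 a, IntegrableOn
      (fun y => ‖MvPolynomial.eval y (L i)‖ ^ (-(2 * (S / (μ i + ε))))) V := by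
    intro i
    refine mult_int (L i) a (h i) (div_pos hS0 (hμ i)) ?_
    rw [div_mul_eq_mul_div, div_lt_one (hμ i)]
    have h1 : (0 : ℝ) ≤ μ i := Nat.cast_nonneg _
    nlinarith
  choose V hV hVI using hI
  refine ⟨⋂ i, V i, Filter.iInter_mem.2 hV, ?_⟩
  have h1 : IntegrableOn (fun y => ∑ i, (c i * (μ i + ε) / S) *
      ‖MvPolynomial.eval y (L i)‖ ^ (-(2 * (S / (μ i + ε))))) (⋂ i, V i) := by
    refine integrable_finsetSum _ fun i _ => ?_
    exact ((hVI i).mono_set (iInter_subset _ i)).const_mul _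
  refine Integrable.mono' h1 ?_ (Eventually.of_forall fun y => ?_)
  · refine Measurable.aestronglyMeasurable ?_
    refine Finset.measurable_prod _ fun i _ => ?_
    exact ((MvPolynomial.continuous_eval (L i)).measurable.norm.pow_const _)
  · rw [Real.norm_eq_abs, abs_of_nonneg (Finset.prod_nonneg fun i _ => by positivity)]
    have h2 := Real.geom_mean_le_arith_mean_weighted Finset.univ
      (fun i => c i * (μ i + ε) / S)
      (fun i => ‖MvPolynomial.eval y (L i)‖ ^ (-(2 * (S / (μ i + ε)))))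
      (fun i _ => div_nonneg (mul_nonneg (hc0 i) (hμ i).le) hS0.le) (by
        rw [← Finset.sum_div, ← hS, div_self hS0.ne']) (fun i _ => by positivity)
    refine le_trans (le_of_eq ?_) h2
    refine Finset.prod_congr rfl fun i _ => ?_
    rw [← Real.rpow_mul (norm_nonneg _)]
    congr 1
    have := (hμ i).ne'
    field_simp

/-- **The condition on the tangent cone, from multiplicities.** -/
theorem mild_of_mult {r : ℕ} (L : Fin r → MvPolynomial (Fin n) ℂ) (ex o : Fin r → ℕ) (a : EE n)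
    (μ : Fin r → ℕ) (h : ∀ i, MvPolynomial.homogeneousComponent (μ i) (trl a (L i)) ≠ 0)
    {B A : MvPolynomial (Fin n) ℂ} {α : ℂ} (hα : α ≠ 0)
    (hA : A = MvPolynomial.C α * ∏ i, L i ^ ex i) {ρ q : ℝ} (hq : 0 ≤ q)
    (hc : ∑ i, max 0 (ρ * ex i + q * ((ex i : ℝ) - o i)) * μ i < 1) :
    ∃ V ∈ 𝓝 a, IntegrableOn (fun y => ‖MvPolynomial.eval y A‖ ^ (-(2 * ρ)) *
      (‖MvPolynomial.eval y ((∏ i, L i ^ o i) * B)‖ / ‖MvPolynomial.eval y A‖) ^ (2 * q)) V := by
  classical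
  have hL0 : ∀ i, L i ≠ 0 := by
    intro i h0
    refine h i ?_
    rw [h0]
    unfold trl
    rw [map_zero, map_zero]
  obtain ⟨V, hV, hI⟩ := prod_int L a μ h (fun i => max 0 (ρ * ex i + q * ((ex i : ℝ) - o i)))
    (fun i => le_max_left _ _) hc
  -- bounds
  have hbd : ∀ p : MvPolynomial (Fin n) ℂ, ∃ M : ℝ, ∀ y ∈ closedBall a 1,
      ‖MvPolynomial.eval y p‖ ≤ M := fun p =>
    (isCompact_closedBall a 1).exists_bound_of_continuousOn
      (MvPolynomial.continuous_eval p).continuousOn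
  obtain ⟨MB, hMB⟩ := hbd B
  choose M hM using fun i => hbd (L i)
  set K : ℝ := ‖α‖ ^ (-(2 * ρ) - 2 * q) * (max MB 1) ^ (2 * q) *
    ∏ i, (max (M i) 1) ^ (2 * (max 0 (ρ * ex i + q * ((ex i : ℝ) - o i)) -
      (ρ * ex i + q * ((ex i : ℝ) - o i)))) with hK
  refine ⟨V ∩ ball a 1, inter_mem hV (ball_mem_nhds _ one_pos), ?_⟩
  have h1 : IntegrableOn (fun y => K * ∏ i, ‖MvPolynomial.eval y (L i)‖ ^
      (-(2 * max 0 (ρ * ex i + q * ((ex i : ℝ) - o i))))) (V ∩ ball a 1) :=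
    (hI.mono_set inter_subset_left).const_mul _
  refine Integrable.mono' h1 ?_ ?_
  · refine Measurable.aestronglyMeasurable ?_
    refine ((MvPolynomial.continuous_eval A).measurable.norm.pow_const _).mul
      (Measurable.pow_const ?_ _)
    exact (MvPolynomial.continuous_eval _).measurable.norm.div
      (MvPolynomial.continuous_eval A).measurable.norm
  · have h2 : ∀ᵐ y ∂((volume : Measure (EE n)).restrict (ball a 1)), y ∈ ball a 1 :=
      ae_restrict_mem measurableSet_ball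
    have h3 : (volume : Measure (EE n)).restrict (V ∩ ball a 1) ≤
        (volume : Measure (EE n)).restrict (ball a 1) :=
      Measure.restrict_mono inter_subset_right le_rfl
    have h4 : ∀ᵐ y ∂((volume : Measure (EE n)).restrict (V ∩ ball a 1)),
        ∀ i, MvPolynomial.eval y (L i) ≠ 0 :=
      ae_restrict_of_ae (ae_all_iff.2 fun i => ae_ne (hL0 i))
    filter_upwards [h3.absolutelyContinuous.ae_le h2, h4] with y hy hy0
    rw [Real.norm_eq_abs, abs_of_nonneg (by positivity)]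
    have hx : ∀ i, 0 < ‖MvPolynomial.eval y (L i)‖ := fun i => norm_pos_iff.2 (hy0 i)
    have hαp : 0 < ‖α‖ := norm_pos_iff.2 hα
    have eA : ‖MvPolynomial.eval y A‖ = ‖α‖ * ∏ i, ‖MvPolynomial.eval y (L i)‖ ^ (ex i : ℝ) := by
      rw [hA, map_mul, MvPolynomial.eval_C, map_prod, norm_mul, norm_prod]
      congr 1
      refine Finset.prod_congr rfl fun i _ => ?_
      rw [map_pow, norm_pow, Real.rpow_natCast]
    have eB : ‖MvPolynomial.eval y ((∏ i, L i ^ o i) * B)‖ =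
        (∏ i, ‖MvPolynomial.eval y (L i)‖ ^ (o i : ℝ)) * ‖MvPolynomial.eval y B‖ := by
      rw [map_mul, norm_mul, map_prod, norm_prod]
      congr 1
      refine Finset.prod_congr rfl fun i _ => ?_
      rw [map_pow, norm_pow, Real.rpow_natCast]
    have hP : ∀ f : Fin r → ℝ, 0 < ∏ i, ‖MvPolynomial.eval y (L i)‖ ^ f i := fun f =>
      Finset.prod_pos fun i _ => Real.rpow_pos_of_pos (hx i) _
    have hprodpow : ∀ (f : Fin r → ℝ) (s : ℝ), (∏ i, ‖MvPolynomial.eval y (L i)‖ ^ f i) ^ s =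
        ∏ i, ‖MvPolynomial.eval y (L i)‖ ^ (f i * s) := by
      intro f s
      rw [← Real.finsetProd_rpow _ _ fun i _ => by positivity]
      exact Finset.prod_congr rfl fun i _ => (Real.rpow_mul (hx i).le _ _).symm
    have hprodmul : ∀ f g : Fin r → ℝ, (∏ i, ‖MvPolynomial.eval y (L i)‖ ^ f i) *
        (∏ i, ‖MvPolynomial.eval y (L i)‖ ^ g i) =
        ∏ i, ‖MvPolynomial.eval y (L i)‖ ^ (f i + g i) := by
      intro f g
      rw [← Finset.prod_mul_distrib]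
      exact Finset.prod_congr rfl fun i _ => (Real.rpow_add (hx i) _ _).symm
    have hPe : 0 ≤ ∏ i, ‖MvPolynomial.eval y (L i)‖ ^ (ex i : ℝ) := (hP fun i => (ex i : ℝ)).le
    have hPo : 0 ≤ ∏ i, ‖MvPolynomial.eval y (L i)‖ ^ (o i : ℝ) := (hP fun i => (o i : ℝ)).le
    have q1 : (‖α‖ * ∏ i, ‖MvPolynomial.eval y (L i)‖ ^ (ex i : ℝ)) ^ (-(2 * ρ)) =
        ‖α‖ ^ (-(2 * ρ)) * ∏ i, ‖MvPolynomial.eval y (L i)‖ ^ ((ex i : ℝ) * (-(2 * ρ))) := by
      rw [Real.mul_rpow hαp.le hPe, hprodpow fun i => (ex i : ℝ)]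
    have q2 : (‖α‖ * ∏ i, ‖MvPolynomial.eval y (L i)‖ ^ (ex i : ℝ)) ^ (2 * q) =
        ‖α‖ ^ (2 * q) * ∏ i, ‖MvPolynomial.eval y (L i)‖ ^ ((ex i : ℝ) * (2 * q)) := by
      rw [Real.mul_rpow hαp.le hPe, hprodpow fun i => (ex i : ℝ)]
    have q3 : ((∏ i, ‖MvPolynomial.eval y (L i)‖ ^ (o i : ℝ)) * ‖MvPolynomial.eval y B‖) ^ (2 * q) =
        (∏ i, ‖MvPolynomial.eval y (L i)‖ ^ ((o i : ℝ) * (2 * q))) *
          ‖MvPolynomial.eval y B‖ ^ (2 * q) := by
      rw [Real.mul_rpow hPo (norm_nonneg _), hprodpow fun i => (o i : ℝ)]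
    rw [eA, eB, Real.div_rpow (mul_nonneg hPo (norm_nonneg _)) (mul_nonneg hαp.le hPe), q1, q2, q3]
    have e1 : ‖α‖ ^ (-(2 * ρ)) * (∏ i, ‖MvPolynomial.eval y (L i)‖ ^ ((ex i : ℝ) * (-(2 * ρ)))) *
        ((∏ i, ‖MvPolynomial.eval y (L i)‖ ^ ((o i : ℝ) * (2 * q))) *
          ‖MvPolynomial.eval y B‖ ^ (2 * q) /
        (‖α‖ ^ (2 * q) * ∏ i, ‖MvPolynomial.eval y (L i)‖ ^ ((ex i : ℝ) * (2 * q)))) =
        ‖α‖ ^ (-(2 * ρ) - 2 * q) * ‖MvPolynomial.eval y B‖ ^ (2 * q) *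
          ∏ i, ‖MvPolynomial.eval y (L i)‖ ^ (-(2 * (ρ * ex i + q * ((ex i : ℝ) - o i)))) := by
      have h5 : ∏ i, ‖MvPolynomial.eval y (L i)‖ ^ (-(2 * (ρ * ex i + q * ((ex i : ℝ) - o i)))) =
          (∏ i, ‖MvPolynomial.eval y (L i)‖ ^ ((ex i : ℝ) * (-(2 * ρ)))) *
          ((∏ i, ‖MvPolynomial.eval y (L i)‖ ^ ((o i : ℝ) * (2 * q))) /
            ∏ i, ‖MvPolynomial.eval y (L i)‖ ^ ((ex i : ℝ) * (2 * q))) := by
        rw [← Finset.prod_div_distrib, ← Finset.prod_mul_distrib]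
        refine Finset.prod_congr rfl fun i _ => ?_
        rw [← Real.rpow_sub (hx i), ← Real.rpow_add (hx i)]
        congr 1
        ring
      rw [h5, Real.rpow_sub hαp]
      have key : ∀ a1 a2 b p1 p2 p3 : ℝ, a1 * p1 * (p2 * b / (a2 * p3)) =
          a1 / a2 * b * (p1 * (p2 / p3)) := by
        intro a1 a2 b p1 p2 p3
        ring
      exact key _ _ _ _ _ _
    rw [e1]
    have e2 : ∀ i, ‖MvPolynomial.eval y (L i)‖ ^ (-(2 * (ρ * ex i + q * ((ex i : ℝ) - o i)))) =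
        ‖MvPolynomial.eval y (L i)‖ ^ (2 * (max 0 (ρ * ex i + q * ((ex i : ℝ) - o i)) -
          (ρ * ex i + q * ((ex i : ℝ) - o i)))) *
        ‖MvPolynomial.eval y (L i)‖ ^ (-(2 * max 0 (ρ * ex i + q * ((ex i : ℝ) - o i)))) := by
      intro i
      rw [← Real.rpow_add (hx i)]
      congr 1
      ring
    simp only [e2]
    have hyc := ball_subset_closedBall hy
    have g1 : ‖α‖ ^ (-(2 * ρ) - 2 * q) * ‖MvPolynomial.eval y B‖ ^ (2 * q) ≤
        ‖α‖ ^ (-(2 * ρ) - 2 * q) * (max MB 1) ^ (2 * q) :=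
      mul_le_mul_of_nonneg_left (Real.rpow_le_rpow (norm_nonneg _)
        ((hMB y hyc).trans (le_max_left _ _)) (by linarith)) (Real.rpow_nonneg hαp.le _)
    have g2 : ∏ i, ‖MvPolynomial.eval y (L i)‖ ^ (2 * (max 0 (ρ * ex i +
          q * ((ex i : ℝ) - o i)) - (ρ * ex i + q * ((ex i : ℝ) - o i)))) ≤
        ∏ i, (max (M i) 1) ^ (2 * (max 0 (ρ * ex i + q * ((ex i : ℝ) - o i)) -
          (ρ * ex i + q * ((ex i : ℝ) - o i)))) := by
      refine Finset.prod_le_prod (fun i _ => Real.rpow_nonneg (norm_nonneg _) _) fun i _ => ?_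
      refine Real.rpow_le_rpow (norm_nonneg _) ((hM i y hyc).trans (le_max_left _ _)) ?_
      have := le_max_right 0 (ρ * ex i + q * ((ex i : ℝ) - o i))
      linarith
    have g3 : 0 ≤ ∏ i, ‖MvPolynomial.eval y (L i)‖ ^ (2 * (max 0 (ρ * ex i +
          q * ((ex i : ℝ) - o i)) - (ρ * ex i + q * ((ex i : ℝ) - o i)))) :=
      Finset.prod_nonneg fun i _ => Real.rpow_nonneg (norm_nonneg _) _
    have g4 : 0 ≤ ‖α‖ ^ (-(2 * ρ) - 2 * q) * (max MB 1) ^ (2 * q) :=
      mul_nonneg (Real.rpow_nonneg hαp.le _) (Real.rpow_nonneg (le_max_of_le_right zero_le_one) _)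
    have g5 := mul_le_mul g1 g2 g3 g4
    have g6 : 0 ≤ ∏ i, ‖MvPolynomial.eval y (L i)‖ ^
        (-(2 * max 0 (ρ * ex i + q * ((ex i : ℝ) - o i)))) :=
      Finset.prod_nonneg fun i _ => Real.rpow_nonneg (norm_nonneg _) _
    have g7 := mul_le_mul_of_nonneg_right g5 g6
    rw [Finset.prod_mul_distrib, ← mul_assoc]
    exact g7

end Pool.Agent.KS6_81.HN
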