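import Pool.Agent.KS6_81.HP.Poly
import Pool.Agent.KS6_81.HN.Cont

set_option autoImplicit false

/-! # Local integrability of `|A| ^ (-2c)` at a point of multiplicity `μ < 1 / c` -/

namespace Pool.Agent.KS6_81.HN

open Set Filter Topology Metric MeasureTheory MvPolynomial
open Pool.Agent.KS6_81.HP (Gint roots_bd eval_smul_hom int_ball)

variable {n : ℕ}

/-- the restriction to the lines with the direction `v` -/
noncomputable def lnp (v : Fin n → ℂ) (B : MvPolynomial (Fin n) ℂ) :
    Polynomial (MvPolynomial (Fin n) ℂ) :=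
  aeval (fun i => Polynomial.C (X i) + Polynomial.C (C (v i)) * Polynomial.X) B

lemma lnp_eval (v y : Fin n → ℂ) (z : ℂ) (B : MvPolynomial (Fin n) ℂ) :
    Polynomial.eval z ((lnp v B).map (MvPolynomial.eval y)) =
      MvPolynomial.eval (fun i => y i + v i * z) B := by
  unfold lnp
  induction B using MvPolynomial.induction_on with
  | C a =>
    rw [MvPolynomial.aeval_C, eval_C]
    have : (algebraMap ℂ (Polynomial (MvPolynomial (Fin n) ℂ))) a = Polynomial.C (C a) := rfl
    rw [this, Polynomial.map_C, Polynomial.eval_C, eval_C]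
  | add p q hp hq =>
    rw [map_add, Polynomial.map_add, Polynomial.eval_add, hp, hq, map_add]
  | mul_X p i hp =>
    rw [map_mul, Polynomial.map_mul, Polynomial.eval_mul, hp, map_mul, aeval_X, eval_X]
    congr 1
    simp

lemma lnp_deg (v : Fin n → ℂ) (B : MvPolynomial (Fin n) ℂ) :
    (lnp v B).natDegree ≤ B.totalDegree := by
  classical
  unfold lnp
  rw [MvPolynomial.aeval_def, MvPolynomial.eval₂_eq']
  refine Polynomial.natDegree_sum_le_of_forall_le _ _ fun m hm => ?_
  refine (Polynomial.natDegree_mul_le).trans ?_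
  have h1 : ((algebraMap ℂ (Polynomial (MvPolynomial (Fin n) ℂ))) (coeff m B)).natDegree = 0 := by
    have : (algebraMap ℂ (Polynomial (MvPolynomial (Fin n) ℂ))) (coeff m B) =
      Polynomial.C (C (coeff m B)) := rfl
    rw [this, Polynomial.natDegree_C]
  rw [h1, zero_add]
  refine (Polynomial.natDegree_prod_le _ _).trans ?_
  have h2 : ∀ i : Fin n, ((Polynomial.C (X i : MvPolynomial (Fin n) ℂ) +
      Polynomial.C (C (v i)) * Polynomial.X) ^ m i).natDegree ≤ m i := by
    intro i
    refine (Polynomial.natDegree_pow_le).trans ?_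
    have : (Polynomial.C (X i : MvPolynomial (Fin n) ℂ) +
      Polynomial.C (C (v i)) * Polynomial.X).natDegree ≤ 1 := by
      refine (Polynomial.natDegree_add_le _ _).trans (max_le ?_ ?_)
      · rw [Polynomial.natDegree_C]
        exact Nat.zero_le _
      · exact (Polynomial.natDegree_C_mul_le _ _).trans Polynomial.natDegree_X_le
    calc m i * _ ≤ m i * 1 := Nat.mul_le_mul_left _ this
      _ = m i := mul_one _
  refine (Finset.sum_le_sum fun i _ => h2 i).trans ?_
  have h3 := MvPolynomial.le_totalDegree hm
  refine le_trans (le_of_eq ?_) h3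
  rw [Finsupp.sum_fintype _ _ (fun _ => rfl)]

/-- the coefficients of the restriction -/
noncomputable def bc (v : Fin n → ℂ) (B : MvPolynomial (Fin n) ℂ) (j : ℕ) (y : EE n) : ℂ :=
  MvPolynomial.eval y ((lnp v B).coeff j)

lemma bc_cont (v : Fin n → ℂ) (B : MvPolynomial (Fin n) ℂ) (j : ℕ) : Continuous (bc v B j) :=
  MvPolynomial.continuous_eval _

lemma eval_line (v : Fin n → ℂ) (B : MvPolynomial (Fin n) ℂ) (y : EE n) (z : ℂ) :
    MvPolynomial.eval (fun i => y i + v i * z) B =
      ∑ j ∈ Finset.range (B.totalDegree + 1), z ^ (B.totalDegree - j) *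
        bc v B (B.totalDegree - j) y := by
  rw [← lnp_eval, Polynomial.eval_eq_sum_range' (n := B.totalDegree + 1)]
  · rw [← Finset.sum_range_reflect]
    refine Finset.sum_congr rfl fun j hj => ?_
    have hj' := Finset.mem_range.1 hj
    have e : B.totalDegree + 1 - 1 - j = B.totalDegree - j := by omega
    rw [e, Polynomial.coeff_map, mul_comm]
    rfl
  · exact lt_of_le_of_lt ((Polynomial.natDegree_map_le).trans (lnp_deg v B)) (Nat.lt_succ_self _)

lemma bc_zero (v : Fin n → ℂ) (B : MvPolynomial (Fin n) ℂ) (j : ℕ) :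
    bc v B j 0 = MvPolynomial.eval v (homogeneousComponent j B) := by
  classical
  have h1 : (lnp v B).map (MvPolynomial.eval 0) =
      ∑ i ∈ Finset.range (B.totalDegree + 1),
        Polynomial.monomial i (MvPolynomial.eval v (homogeneousComponent i B)) := by
    refine Polynomial.funext fun z => ?_
    rw [lnp_eval, Polynomial.eval_finsetSum]
    have h2 : (fun i => (0 : Fin n → ℂ) i + v i * z) = z • v := by
      funext i
      simp [mul_comm]
    rw [h2]
    conv_lhs => rw [← sum_homogeneousComponent B]
    rw [map_sum]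
    refine Finset.sum_congr rfl fun i _ => ?_
    rw [eval_smul_hom (homogeneousComponent_isHomogeneous i B), Polynomial.eval_monomial, mul_comm]
  have h3 := congrArg (fun p => Polynomial.coeff p j) h1
  simp only [Polynomial.coeff_map, Polynomial.finsetSum_coeff, Polynomial.coeff_monomial] at h3
  unfold bc
  rw [h3, Finset.sum_ite_eq']
  split_ifs with h
  · rfl
  · rw [homogeneousComponent_eq_zero _ _ (by
      rw [Finset.mem_range, not_lt] at h
      omega), map_zero]

lemma top_ne {B : MvPolynomial (Fin n) ℂ} (hB : B ≠ 0) :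
    homogeneousComponent B.totalDegree B ≠ 0 := by
  classical
  intro h
  obtain ⟨m, hm, hmd⟩ : ∃ m ∈ B.support, (m.sum fun _ e => e) = B.totalDegree := by
    have hne : B.support.Nonempty := support_nonempty.2 hB
    obtain ⟨m, hm, h1⟩ := Finset.exists_mem_eq_sup B.support hne
      (fun s : Fin n →₀ ℕ => s.sum fun _ e => e)
    exact ⟨m, hm, h1.symm⟩
  have h2 := congrArg (coeff m) h
  rw [coeff_homogeneousComponent, coeff_zero] at h2
  have h3 : m.degree = B.totalDegree := by
    rw [← hmd]
    rfl
  rw [if_pos h3] at h2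
  exact (mem_support_iff.1 hm) h2

end Pool.Agent.KS6_81.HN
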