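import Pool.Agent.KS6_81.HN.Mult

set_option autoImplicit false

/-! # Local integrability of `|A| ^ (-2c)` at a point of multiplicity `μ < 1 / c` -/

namespace Pool.Agent.KS6_81.HN

open Set Filter Topology Metric MeasureTheory
open Pool.Agent.KS6_81.HP (Gint roots_bd eval_smul_hom int_ball)

variable {n : ℕ}

/-- at least `D - μ` roots are not small -/
lemma subset_roots {D μ : ℕ} (hμ : μ ≤ D) (r : Fin D → ℂ) (a : ℂ) (b : ℕ → ℂ) {R : ℝ}
    (hR : 1 ≤ R) (hr : ∀ i, ‖r i‖ ≤ R)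
    (hp : ∀ z, ∑ j ∈ Finset.range (D + 1), z ^ (D - j) * b (D - j) = a * ∏ i, (z - r i)) :
    ∃ t : Finset (Fin D), t.card = μ ∧ ∀ i ∉ t, ‖b μ‖ ≤ ‖a‖ * 2 ^ D * R ^ D * ‖r i‖ := by
  classical
  have h1 : ∑ j ∈ Finset.range (D + 1), Polynomial.monomial j (b j) =
      Polynomial.C a * ∏ i, (Polynomial.X + Polynomial.C (-r i)) := by
    refine Polynomial.funext fun z => ?_
    rw [Polynomial.eval_finsetSum, Polynomial.eval_mul, Polynomial.eval_C, Polynomial.eval_prod]
    have h2 : ∀ i, Polynomial.eval z (Polynomial.X + Polynomial.C (-r i)) = z - r i := by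
      intro i
      simp [sub_eq_add_neg]
    rw [Finset.prod_congr rfl fun i _ => h2 i, ← hp z, ← Finset.sum_range_reflect]
    refine Finset.sum_congr rfl fun j hj => ?_
    have hj' := Finset.mem_range.1 hj
    have e : D + 1 - 1 - j = D - j := by omega
    rw [e, Polynomial.eval_monomial, mul_comm]
  rw [Finset.prod_add] at h1
  have h2 := congrArg (fun p => Polynomial.coeff p μ) h1
  simp only [Polynomial.finsetSum_coeff, Polynomial.coeff_monomial, Polynomial.coeff_C_mul] at h2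
  rw [Finset.sum_ite_eq' (Finset.range (D + 1)) μ b, if_pos (Finset.mem_range.2 (by omega))] at h2
  have h3 : ∀ t : Finset (Fin D), ((∏ _i ∈ t, (Polynomial.X : Polynomial ℂ)) *
      ∏ i ∈ Finset.univ \ t, Polynomial.C (-r i)).coeff μ =
        if t.card = μ then ∏ i ∈ Finset.univ \ t, (-r i) else 0 := by
    intro t
    rw [Finset.prod_const, ← map_prod, mul_comm, Polynomial.coeff_C_mul, Polynomial.coeff_X_pow]
    by_cases h : t.card = μ
    · rw [if_pos h, if_pos h.symm, mul_one]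
    · rw [if_neg h, if_neg (fun h' => h h'.symm), mul_zero]
  simp only [h3] at h2
  rw [← Finset.sum_filter] at h2
  set T := (Finset.univ : Finset (Fin D)).powerset.filter (fun t => t.card = μ) with hT
  have hTne : T.Nonempty := by
    obtain ⟨t, ht, htc⟩ := Finset.exists_subset_card_eq
      (s := (Finset.univ : Finset (Fin D))) (n := μ) (by
        rw [Finset.card_univ, Fintype.card_fin]
        exact hμ)
    exact ⟨t, Finset.mem_filter.2 ⟨Finset.mem_powerset.2 ht, htc⟩⟩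
  have hTc : (T.card : ℝ) ≤ 2 ^ D := by
    have h4 : T.card ≤ (Finset.univ : Finset (Fin D)).powerset.card := Finset.card_filter_le _ _
    rw [Finset.card_powerset, Finset.card_univ, Fintype.card_fin] at h4
    exact_mod_cast h4
  obtain ⟨t, htT, htm⟩ := Finset.exists_max_image T
    (fun t => ∏ i ∈ Finset.univ \ t, ‖r i‖) hTne
  have htc : t.card = μ := (Finset.mem_filter.1 htT).2
  refine ⟨t, htc, fun i hi => ?_⟩
  have h5 : ‖b μ‖ ≤ ‖a‖ * (2 ^ D * ∏ i ∈ Finset.univ \ t, ‖r i‖) := by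
    rw [h2, norm_mul]
    refine mul_le_mul_of_nonneg_left ?_ (norm_nonneg _)
    refine (norm_sum_le _ _).trans ?_
    have h6 : ∀ s ∈ T, ‖∏ i ∈ Finset.univ \ s, -r i‖ ≤ ∏ i ∈ Finset.univ \ t, ‖r i‖ := by
      intro s hs
      rw [norm_prod]
      simp only [norm_neg]
      exact htm s hs
    refine (Finset.sum_le_card_nsmul T _ _ h6).trans ?_
    rw [nsmul_eq_mul]
    exact mul_le_mul_of_nonneg_right hTc (Finset.prod_nonneg fun i _ => norm_nonneg _)
  have h7 : ∏ j ∈ Finset.univ \ t, ‖r j‖ ≤ R ^ D * ‖r i‖ := by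
    have hi' : i ∈ Finset.univ \ t := Finset.mem_sdiff.2 ⟨Finset.mem_univ _, hi⟩
    rw [← Finset.mul_prod_erase _ _ hi', mul_comm]
    refine mul_le_mul_of_nonneg_right ?_ (norm_nonneg _)
    calc ∏ x ∈ (Finset.univ \ t).erase i, ‖r x‖ ≤ ∏ _x ∈ (Finset.univ \ t).erase i, R :=
          Finset.prod_le_prod (fun _ _ => norm_nonneg _) fun x _ => hr x
      _ = R ^ ((Finset.univ \ t).erase i).card := Finset.prod_const _
      _ ≤ R ^ D := by
        refine pow_le_pow_right₀ hR ?_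
        refine (Finset.card_le_univ _).trans ?_
        rw [Fintype.card_fin]
  calc ‖b μ‖ ≤ ‖a‖ * (2 ^ D * ∏ i ∈ Finset.univ \ t, ‖r i‖) := h5
    _ ≤ ‖a‖ * (2 ^ D * (R ^ D * ‖r i‖)) := by gcongr
    _ = _ := by ring

/-- a product of negative powers -/
lemma prod_neg_le {ι : Type} (t : Finset ι) (x : ι → ℝ) (hx : ∀ i, 0 ≤ x i) {c : ℝ} (hc : 0 < c) :
    ∏ i ∈ t, x i ^ (-(2 * c)) ≤ (∑ i ∈ t, x i ^ (-(2 * c * t.card))) + 1 := by
  classical
  have hs0 : 0 ≤ ∑ i ∈ t, x i ^ (-(2 * c * t.card)) :=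
    Finset.sum_nonneg fun i _ => Real.rpow_nonneg (hx i) _
  rcases t.eq_empty_or_nonempty with h | hne
  · subst h
    simp
  obtain ⟨i0, hi0, hmin⟩ := Finset.exists_min_image t x hne
  rcases (hx i0).eq_or_lt with h0 | h0
  · rw [Finset.prod_eq_zero hi0 (by rw [← h0, Real.zero_rpow (by linarith)])]
    linarith
  · have h1 : ∏ i ∈ t, x i ^ (-(2 * c)) ≤ ∏ _i ∈ t, x i0 ^ (-(2 * c)) :=
      Finset.prod_le_prod (fun i _ => Real.rpow_nonneg (hx i) _) fun i hi =>
        Real.rpow_le_rpow_of_nonpos h0 (hmin i hi) (by linarith)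
    rw [Finset.prod_const, ← Real.rpow_natCast, ← Real.rpow_mul h0.le] at h1
    have h2 : x i0 ^ (-(2 * c * t.card)) ≤ ∑ i ∈ t, x i ^ (-(2 * c * t.card)) :=
      Finset.single_le_sum (f := fun i => x i ^ (-(2 * c * t.card)))
        (fun i _ => Real.rpow_nonneg (hx i) _) hi0
    have h3 : -(2 * c) * (t.card : ℝ) = -(2 * c * t.card) := by ring
    rw [h3] at h1
    linarith

/-- **Local integrability at a point of multiplicity at most `μ`, at the origin.** -/
theorem mult_zero (B : MvPolynomial (Fin n) ℂ) {μ : ℕ}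
    (h : MvPolynomial.homogeneousComponent μ B ≠ 0) {c : ℝ} (hc0 : 0 < c) (hc : c * μ < 1) :
    ∃ (δ τ C : ℝ) (v : EE n), 0 < δ ∧ 0 < τ ∧ 0 ≤ C ∧ ∀ y ∈ closedBall (0 : EE n) δ,
      IntegrableOn (fun z : ℂ => ‖MvPolynomial.eval (fun i => y i + v i * z) B‖ ^ (-(2 * c)))
        (closedBall 0 τ) ∧
      ∫ z in closedBall (0 : ℂ) τ,
        ‖MvPolynomial.eval (fun i => y i + v i * z) B‖ ^ (-(2 * c)) ≤ C := by
  classical
  have hB : B ≠ 0 := by
    rintro rfl
    exact h (map_zero _)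
  set D := B.totalDegree with hD
  have hμD : μ ≤ D := by
    by_contra hcon
    exact h (MvPolynomial.homogeneousComponent_eq_zero _ _ (by omega))
  obtain ⟨v, hv⟩ : ∃ v : Fin n → ℂ, MvPolynomial.eval v (MvPolynomial.homogeneousComponent μ B *
      MvPolynomial.homogeneousComponent D B) ≠ 0 := by
    by_contra hcon
    push Not at hcon
    refine mul_ne_zero h (top_ne hB) (MvPolynomial.funext fun v => ?_)
    rw [hcon v, map_zero]
  rw [map_mul] at hv
  have hv1 : bc v B μ 0 ≠ 0 := by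
    rw [bc_zero]
    exact left_ne_zero_of_mul hv
  have hv2 : bc v B D 0 ≠ 0 := by
    rw [bc_zero]
    exact right_ne_zero_of_mul hv
  set β₁ : ℝ := ‖bc v B μ 0‖ with hβ₁
  set β₂ : ℝ := ‖bc v B D 0‖ with hβ₂
  have p1 : 0 < β₁ := norm_pos_iff.2 hv1
  have p2 : 0 < β₂ := norm_pos_iff.2 hv2
  -- the neighbourhood
  have e1 : ∀ᶠ y in 𝓝 (0 : EE n), β₁ / 2 < ‖bc v B μ y‖ :=
    (bc_cont v B μ).norm.continuousAt.eventually (lt_mem_nhds (by linarith))
  have e2 : ∀ᶠ y in 𝓝 (0 : EE n), β₂ / 2 < ‖bc v B D y‖ :=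
    (bc_cont v B D).norm.continuousAt.eventually (lt_mem_nhds (by linarith))
  have e3 : ∀ᶠ y in 𝓝 (0 : EE n), ‖bc v B D y‖ < 2 * β₂ :=
    (bc_cont v B D).norm.continuousAt.eventually (gt_mem_nhds (by linarith))
  obtain ⟨δ', hδ', hball⟩ := Metric.eventually_nhds_iff_ball.1 (e1.and (e2.and e3))
  set δ : ℝ := δ' / 2 with hδ
  have hδ0 : 0 < δ := by positivity
  have hsub : ∀ y ∈ closedBall (0 : EE n) δ, y ∈ ball (0 : EE n) δ' := by
    intro y hy
    exact closedBall_subset_ball (by rw [hδ]; linarith) hy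
  -- bound of the coefficients
  obtain ⟨M, hM⟩ : ∃ M : ℝ, ∀ j ∈ Finset.range (D + 1), ∀ y ∈ closedBall (0 : EE n) δ,
      ‖bc v B j y‖ ≤ M := by
    have h1 : ∀ j, ∃ M : ℝ, ∀ y ∈ closedBall (0 : EE n) δ, ‖bc v B j y‖ ≤ M := fun j =>
      (isCompact_closedBall (0 : EE n) δ).exists_bound_of_continuousOn (bc_cont v B j).continuousOn
    choose Mf hMf using h1
    refine ⟨∑ j ∈ Finset.range (D + 1), |Mf j|, fun j hj y hy => ?_⟩
    refine (hMf j y hy).trans ((le_abs_self _).trans ?_)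
    exact Finset.single_le_sum (f := fun j => |Mf j|) (fun _ _ => abs_nonneg _) hj
  have hM0 : 0 ≤ M := (norm_nonneg _).trans
    (hM 0 (Finset.mem_range.2 (Nat.succ_pos _)) 0 (mem_closedBall_self hδ0.le))
  set R : ℝ := 1 + 2 * ∑ j ∈ Finset.Icc 1 D, (M / (β₂ / 2)) ^ (1 / j : ℝ) with hR
  have hR1 : 1 ≤ R := by
    have : 0 ≤ ∑ j ∈ Finset.Icc 1 D, (M / (β₂ / 2)) ^ (1 / j : ℝ) :=
      Finset.sum_nonneg fun j _ => by positivity
    rw [hR]
    linarith
  set κ : ℝ := (β₁ / 2) / (2 * β₂ * 2 ^ D * R ^ D) with hκ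
  have hκ0 : 0 < κ := by positivity
  set τ : ℝ := min (κ / 2) 1 with hτ
  have hτ0 : 0 < τ := lt_min (by positivity) one_pos
  have hτ1 : τ ≤ 1 := min_le_right _ _
  have hτ2 : τ ≤ κ / 2 := min_le_left _ _
  have hβ : -2 < -(2 * c * μ) := by linarith
  have hβ0 : -(2 * c * μ) ≤ 0 := by
    have : 0 ≤ c * μ := by positivity
    linarith
  obtain ⟨C1, hC10, hC1⟩ := Gint hβ hβ0 τ
  set E : ℝ := (β₂ / 2 * τ ^ D) ^ (-(2 * c)) with hE
  have hE0 : 0 ≤ E := by positivity
  set Vτ : ℝ := (volume : Measure ℂ).real (closedBall 0 τ) with hVτ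
  have hV0 : 0 ≤ Vτ := measureReal_nonneg
  refine ⟨δ, τ, E * (μ * C1 + Vτ), v, hδ0, hτ0, by positivity, fun y hy => ?_⟩
  obtain ⟨g1, g2, g3⟩ := hball y (hsub y hy)
  have hbD0 : bc v B D y ≠ 0 := by
    intro h0
    rw [h0, norm_zero] at g2
    linarith
  obtain ⟨r, hr1, hr2⟩ := roots_bd (k := D) (fun j => bc v B (D - j) y) (by simpa using hbD0)
  simp only [Nat.sub_zero] at hr1 hr2
  have hrR : ∀ i, ‖r i‖ ≤ R := by
    intro i
    refine (hr2 i).trans ?_
    rw [hR]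
    have : ∑ j ∈ Finset.Icc 1 D, (‖bc v B (D - j) y‖ / ‖bc v B D y‖) ^ (1 / j : ℝ) ≤
        ∑ j ∈ Finset.Icc 1 D, (M / (β₂ / 2)) ^ (1 / j : ℝ) := by
      refine Finset.sum_le_sum fun j _ => ?_
      refine Real.rpow_le_rpow (by positivity) ?_ (by positivity)
      exact div_le_div₀ hM0 (hM _ (Finset.mem_range.2 (by omega)) y hy) (by positivity) g2.le
    linarith
  obtain ⟨t, htc, ht⟩ := subset_roots hμD r (bc v B D y) (fun j => bc v B j y) hR1 hrR hr1
  have hbig : ∀ i ∉ t, κ ≤ ‖r i‖ := by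
    intro i hi
    have h1 := ht i hi
    have h2 : β₁ / 2 ≤ (2 * β₂ * 2 ^ D * R ^ D) * ‖r i‖ := by
      calc β₁ / 2 ≤ ‖bc v B μ y‖ := g1.le
        _ ≤ ‖bc v B D y‖ * 2 ^ D * R ^ D * ‖r i‖ := h1
        _ ≤ 2 * β₂ * 2 ^ D * R ^ D * ‖r i‖ := by gcongr
    rw [hκ, div_le_iff₀ (by positivity)]
    linarith
  -- the pointwise bound
  have hpt : ∀ z ∈ closedBall (0 : ℂ) τ,
      ‖MvPolynomial.eval (fun i => y i + v i * z) B‖ ^ (-(2 * c)) ≤
        E * ((∑ i ∈ t, (‖z - r i‖ ^ (-(2 * c * μ)) + 1)) + 1) := by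
    intro z hz
    rw [mem_closedBall_zero_iff] at hz
    have h1 : MvPolynomial.eval (fun i => y i + v i * z) B = bc v B D y * ∏ i, (z - r i) := by
      rw [eval_line, ← hD]
      exact hr1 z
    have h2 : (β₂ / 2 * τ ^ D) * ∏ i ∈ t, ‖z - r i‖ ≤
        ‖MvPolynomial.eval (fun i => y i + v i * z) B‖ := by
      rw [h1, norm_mul, norm_prod, ← Finset.prod_mul_prod_compl t, mul_assoc]
      have h3 : τ ^ D ≤ ∏ i ∈ tᶜ, ‖z - r i‖ := by
        calc τ ^ D ≤ τ ^ (tᶜ).card := by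
              refine pow_le_pow_of_le_one hτ0.le hτ1 ?_
              refine (Finset.card_le_univ _).trans ?_
              rw [Fintype.card_fin]
          _ = ∏ _i ∈ tᶜ, τ := (Finset.prod_const _).symm
          _ ≤ _ := by
              refine Finset.prod_le_prod (fun _ _ => hτ0.le) fun i hi => ?_
              have h4 := hbig i (Finset.mem_compl.1 hi)
              have h5 := norm_sub_norm_le (r i) z
              rw [norm_sub_rev] at h5
              linarith
      have h6 : 0 ≤ ∏ i ∈ t, ‖z - r i‖ := Finset.prod_nonneg fun _ _ => norm_nonneg _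
      calc β₂ / 2 * (τ ^ D * ∏ i ∈ t, ‖z - r i‖) ≤
          ‖bc v B D y‖ * ((∏ i ∈ tᶜ, ‖z - r i‖) * ∏ i ∈ t, ‖z - r i‖) := by
            refine mul_le_mul g2.le ?_ (by positivity) (norm_nonneg _)
            exact mul_le_mul_of_nonneg_right h3 h6
        _ = _ := by ring
    have h6 : 0 ≤ ∏ i ∈ t, ‖z - r i‖ := Finset.prod_nonneg fun _ _ => norm_nonneg _
    have h7 : ‖MvPolynomial.eval (fun i => y i + v i * z) B‖ ^ (-(2 * c)) ≤
        ((β₂ / 2 * τ ^ D) * ∏ i ∈ t, ‖z - r i‖) ^ (-(2 * c)) ∨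
        ‖MvPolynomial.eval (fun i => y i + v i * z) B‖ = 0 ∨ ∏ i ∈ t, ‖z - r i‖ = 0 := by
      by_cases h8 : ∏ i ∈ t, ‖z - r i‖ = 0
      · exact Or.inr (Or.inr h8)
      · left
        have h9 : 0 < ∏ i ∈ t, ‖z - r i‖ := lt_of_le_of_ne h6 (Ne.symm h8)
        exact Real.rpow_le_rpow_of_nonpos (by positivity) h2 (by linarith)
    have h8 := prod_neg_le t (fun i => ‖z - r i‖) (fun i => norm_nonneg _) hc0
    rw [htc] at h8
    have h9 : (∑ i ∈ t, ‖z - r i‖ ^ (-(2 * c * μ))) + 1 ≤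
        (∑ i ∈ t, (‖z - r i‖ ^ (-(2 * c * μ)) + 1)) + 1 := by
      have : ∑ i ∈ t, ‖z - r i‖ ^ (-(2 * c * μ)) ≤
          ∑ i ∈ t, (‖z - r i‖ ^ (-(2 * c * μ)) + 1) :=
        Finset.sum_le_sum fun i _ => by linarith
      linarith
    have hnn : 0 ≤ E * ((∑ i ∈ t, (‖z - r i‖ ^ (-(2 * c * μ)) + 1)) + 1) := by
      refine mul_nonneg hE0 (add_nonneg (Finset.sum_nonneg fun i _ => ?_) zero_le_one)
      positivity
    rcases h7 with h7 | h7 | h7
    · refine h7.trans ?_
      rw [Real.mul_rpow (by positivity) h6, ← hE, ← Real.finsetProd_rpow _ _ fun i _ =>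
        norm_nonneg _]
      exact mul_le_mul_of_nonneg_left (h8.trans h9) hE0
    · rw [h7, Real.zero_rpow (by linarith)]
      exact hnn
    · obtain ⟨i, hi, hi0⟩ := Finset.prod_eq_zero_iff.1 h7
      have : ‖MvPolynomial.eval (fun i => y i + v i * z) B‖ = 0 := by
        rw [h1, norm_mul, norm_prod, Finset.prod_eq_zero (Finset.mem_univ i) hi0, mul_zero]
      rw [this, Real.zero_rpow (by linarith)]
      exact hnn
  have hI : IntegrableOn (fun z : ℂ => E * ((∑ i ∈ t, (‖z - r i‖ ^ (-(2 * c * μ)) + 1)) + 1))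
      (closedBall 0 τ) := by
    refine Integrable.const_mul (Integrable.add ?_ ?_) _
    · exact integrable_finsetSum _ fun i _ => (hC1 (r i)).1
    · exact integrableOn_const measure_closedBall_lt_top.ne
  have hme : Measurable fun z : ℂ =>
      ‖MvPolynomial.eval (fun i => y i + v i * z) B‖ ^ (-(2 * c)) := by
    refine Measurable.pow_const (Continuous.measurable ?_).norm _
    refine (MvPolynomial.continuous_eval B).comp ?_
    fun_prop
  have hI2 : IntegrableOn (fun z : ℂ => ‖MvPolynomial.eval (fun i => y i + v i * z) B‖ ^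
      (-(2 * c))) (closedBall 0 τ) := by
    refine Integrable.mono' hI hme.aestronglyMeasurable ?_
    rw [ae_restrict_iff' measurableSet_closedBall]
    refine Eventually.of_forall fun z hz => ?_
    rw [Real.norm_eq_abs, abs_of_nonneg (by positivity)]
    exact hpt z hz
  refine ⟨hI2, (setIntegral_mono_on hI2 hI measurableSet_closedBall hpt).trans ?_⟩
  rw [integral_const_mul, integral_add (integrable_finsetSum _ fun i _ => (hC1 (r i)).1)
    (integrableOn_const measure_closedBall_lt_top.ne), integral_finsetSum _ fun i _ => (hC1 (r i)).1]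
  refine mul_le_mul_of_nonneg_left ?_ hE0
  refine add_le_add ?_ (le_of_eq ?_)
  · refine (Finset.sum_le_sum fun i _ => (hC1 (r i)).2).trans ?_
    rw [Finset.sum_const, htc, nsmul_eq_mul]
  · rw [setIntegral_const, smul_eq_mul, mul_one]

end Pool.Agent.KS6_81.HN
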