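import Pool.Agent.KS6_81.HN.Mult2

set_option autoImplicit false

/-! # Local integrability of `|A| ^ (-2c)` at a point of multiplicity `μ < 1 / c` -/

namespace Pool.Agent.KS6_81.HN

open Set Filter Topology Metric MeasureTheory
open Pool.Agent.KS6_81.HP (Gint roots_bd eval_smul_hom int_ball)

variable {n : ℕ}

/-- the translated polynomial -/
noncomputable def trl (a : EE n) (A : MvPolynomial (Fin n) ℂ) : MvPolynomial (Fin n) ℂ :=
  MvPolynomial.aeval (fun i => MvPolynomial.X i + MvPolynomial.C (a i)) A

lemma eval_trl (a y : EE n) (A : MvPolynomial (Fin n) ℂ) :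
    MvPolynomial.eval y (trl a A) = MvPolynomial.eval (y + a) A := by
  unfold trl
  induction A using MvPolynomial.induction_on with
  | C c =>
    rw [MvPolynomial.aeval_C, MvPolynomial.eval_C]
    exact MvPolynomial.eval_C c
  | add p q hp hq => rw [map_add, map_add, hp, hq, map_add]
  | mul_X p i hp =>
    rw [map_mul, map_mul, hp, map_mul, MvPolynomial.aeval_X, MvPolynomial.eval_X]
    congr 1
    simp

/-- **Local integrability at a point of multiplicity at most `μ`.** -/
theorem mult_int (A : MvPolynomial (Fin n) ℂ) (a : EE n) {μ : ℕ}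
    (h : MvPolynomial.homogeneousComponent μ (trl a A) ≠ 0) {c : ℝ} (hc0 : 0 < c)
    (hc : c * μ < 1) :
    ∃ V ∈ 𝓝 a, IntegrableOn (fun y => ‖MvPolynomial.eval y A‖ ^ (-(2 * c))) V := by
  obtain ⟨δ, τ, C, v, hδ, hτ, hC0, hC⟩ := mult_zero (trl a A) h hc0 hc
  set G : ℂ × EE n → ℝ := fun p =>
    ‖MvPolynomial.eval (fun i => p.2 i + v i * p.1) (trl a A)‖ ^ (-(2 * c)) with hG
  have hGm : Measurable G := by
    refine Measurable.pow_const (Continuous.measurable ?_).norm _
    refine (MvPolynomial.continuous_eval _).comp ?_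
    fun_prop
  have hprod : IntegrableOn G (closedBall (0 : ℂ) τ ×ˢ closedBall (0 : EE n) δ) := by
    unfold IntegrableOn
    rw [Measure.volume_eq_prod, ← Measure.prod_restrict]
    rw [integrable_prod_iff' hGm.aestronglyMeasurable]
    refine ⟨?_, ?_⟩
    · rw [ae_restrict_iff' measurableSet_closedBall]
      exact Eventually.of_forall fun y hy => (hC y hy).1
    · have h1 : IntegrableOn (fun _ : EE n => C) (closedBall (0 : EE n) δ) :=
        integrableOn_const measure_closedBall_lt_top.ne
      refine Integrable.mono' h1 ?_ ?_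
      · have h2 : StronglyMeasurable fun p : EE n × ℂ => ‖G (p.2, p.1)‖ :=
          ((hGm.comp measurable_swap).norm).stronglyMeasurable
        exact (h2.integral_prod_right (ν := volume.restrict (closedBall (0 : ℂ) τ))).aestronglyMeasurable
      · rw [ae_restrict_iff' measurableSet_closedBall]
        refine Eventually.of_forall fun y hy => ?_
        rw [Real.norm_eq_abs, abs_of_nonneg (integral_nonneg fun x => norm_nonneg _)]
        refine le_trans (le_of_eq ?_) (hC y hy).2
        refine integral_congr_ae (Eventually.of_forall fun x => ?_)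
        simp only
        rw [Real.norm_eq_abs, abs_of_nonneg (by
          rw [hG]
          positivity)]
  have h1 : ∀ᵐ z ∂(volume.restrict (closedBall (0 : ℂ) τ)),
      IntegrableOn (fun y => G (z, y)) (closedBall (0 : EE n) δ) := by
    unfold IntegrableOn at hprod
    rw [Measure.volume_eq_prod, ← Measure.prod_restrict] at hprod
    exact ((integrable_prod_iff hGm.aestronglyMeasurable).1 hprod).1
  -- a good `z`
  set σ : ℝ := min τ (δ / (2 * (1 + ‖v‖))) with hσ
  have hσ0 : 0 < σ := lt_min hτ (by positivity)
  obtain ⟨z, hz, hzG⟩ : ∃ z ∈ ball (0 : ℂ) σ, IntegrableOn (fun y => G (z, y))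
      (closedBall (0 : EE n) δ) := by
    by_contra hcon
    push Not at hcon
    have h2 : (volume.restrict (closedBall (0 : ℂ) τ)) (ball (0 : ℂ) σ) = 0 := by
      refine measure_mono_null ?_ h1
      intro z hz
      exact hcon z hz
    rw [Measure.restrict_apply measurableSet_ball, inter_eq_left.2
      ((ball_subset_ball (min_le_left _ _)).trans ball_subset_closedBall)] at h2
    exact (measure_ball_pos volume (0 : ℂ) hσ0).ne' h2
  -- translation
  set g : EE n := fun i => v i * z + a i with hg
  have e1 : ∀ y : EE n, G (z, y) = ‖MvPolynomial.eval (y + g) A‖ ^ (-(2 * c)) := by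
    intro y
    rw [hG]
    simp only
    rw [eval_trl]
    have e3 : (fun i => y i + v i * z) + a = y + g := by
      funext i
      simp only [Pi.add_apply, hg]
      ring
    rw [e3]
  have h3 : IntegrableOn ((fun y : EE n => ‖MvPolynomial.eval y A‖ ^ (-(2 * c))) ∘ (· + g))
      ((· + g) ⁻¹' closedBall g δ) := by
    have e2 : ((· + g) ⁻¹' closedBall g δ : Set (EE n)) = closedBall 0 δ := by
      ext y
      simp only [mem_preimage, mem_closedBall, dist_eq_norm, add_sub_cancel_right, sub_zero]
    rw [e2]
    refine hzG.congr_fun (fun y _ => ?_) measurableSet_closedBall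
    simp only [Function.comp_apply]
    exact e1 y
  have h4 := ((measurePreserving_add_right (volume : Measure (EE n)) g).integrableOn_comp_preimage
    (measurableEmbedding_addRight g)).1 h3
  refine ⟨ball a (δ / 2), ball_mem_nhds _ (by positivity), h4.mono_set ?_⟩
  intro y hy
  rw [mem_ball] at hy
  rw [mem_closedBall]
  have h5 : dist a g ≤ δ / 2 := by
    rw [dist_eq_norm, norm_sub_rev]
    have h6 : g - a = fun i => v i * z := by
      funext i
      simp [hg]
    rw [h6]
    refine (pi_norm_le_iff_of_nonneg (by positivity)).2 fun i => ?_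
    rw [norm_mul]
    rw [mem_ball_zero_iff] at hz
    have h7 : ‖z‖ ≤ δ / (2 * (1 + ‖v‖)) := hz.le.trans (min_le_right _ _)
    have h8 : ‖v i‖ ≤ 1 + ‖v‖ := (norm_le_pi_norm v i).trans (by linarith)
    calc ‖v i‖ * ‖z‖ ≤ (1 + ‖v‖) * (δ / (2 * (1 + ‖v‖))) :=
          mul_le_mul h8 h7 (norm_nonneg _) (by positivity)
      _ = δ / 2 := by
        have : 1 + ‖v‖ ≠ 0 := by positivity
        field_simp
  have h9 := dist_triangle y a g
  linarith

/-- local integrability on balls -/
lemma LI_of_local {G : EE n → ℝ} (h : ∀ t, ∃ V ∈ 𝓝 t, IntegrableOn G V) : LI G := by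
  intro R
  have h1 : LocallyIntegrableOn G univ := by
    intro t _
    obtain ⟨V, hV, hG⟩ := h t
    exact ⟨V, mem_nhdsWithin_of_mem_nhds hV, hG⟩
  exact (locallyIntegrableOn_univ.1 h1).integrableOn_isCompact (isCompact_closedBall 0 R)

/-- small powers are integrable -/
theorem small_pow {A : MvPolynomial (Fin n) ℂ} (hA : A ≠ 0) : ∃ ε : ℝ, 0 < ε ∧
    ∀ s : ℝ, -ε < s → s < 0 → LI fun t : EE n => ‖MvPolynomial.eval t A‖ ^ (2 * s) := by
  refine ⟨1 / (A.totalDegree + 1), by positivity, fun s hs hs0 => LI_of_local fun t => ?_⟩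
  have h1 : trl t A ≠ 0 := by
    intro h0
    refine hA (MvPolynomial.funext fun y => ?_)
    have h2 := eval_trl t (y - t) A
    rw [h0, map_zero, sub_add_cancel] at h2
    rw [← h2, map_zero]
  have hdeg : (trl t A).totalDegree ≤ A.totalDegree := by
    unfold trl
    rw [MvPolynomial.aeval_def, MvPolynomial.eval₂_eq']
    refine (MvPolynomial.totalDegree_finset_sum _ _).trans (Finset.sup_le fun m hm => ?_)
    refine (MvPolynomial.totalDegree_mul _ _).trans ?_
    have e1 : (algebraMap ℂ (MvPolynomial (Fin n) ℂ) (MvPolynomial.coeff m A)).totalDegree = 0 :=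
      MvPolynomial.totalDegree_C _
    rw [e1, zero_add]
    refine (MvPolynomial.totalDegree_finset_prod _ _).trans ?_
    have h3 := MvPolynomial.le_totalDegree hm
    refine le_trans ?_ h3
    rw [Finsupp.sum_fintype _ _ (fun _ => rfl)]
    refine Finset.sum_le_sum fun i _ => ?_
    refine (MvPolynomial.totalDegree_pow _ _).trans ?_
    have h4 : (MvPolynomial.X i + MvPolynomial.C (t i) : MvPolynomial (Fin n) ℂ).totalDegree ≤ 1 := by
      refine (MvPolynomial.totalDegree_add _ _).trans (max_le ?_ ?_)
      · rw [MvPolynomial.totalDegree_X]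
      · rw [MvPolynomial.totalDegree_C]
        exact Nat.zero_le _
    calc m i * _ ≤ m i * 1 := Nat.mul_le_mul_left _ h4
      _ = m i := mul_one _
  have h2 := mult_int A t (top_ne h1) (c := -s) (by linarith) (by
    have h3 : ((trl t A).totalDegree : ℝ) ≤ A.totalDegree := by exact_mod_cast hdeg
    have h4 : -s < 1 / (A.totalDegree + 1) := by linarith
    have h5 : (0 : ℝ) < A.totalDegree + 1 := by positivity
    rw [lt_div_iff₀ h5] at h4
    nlinarith)
  have e : -(2 * -s) = 2 * s := by ring
  rw [e] at h2
  exact h2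

end Pool.Agent.KS6_81.HN
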