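import Pool.Agent.KS6_81.HN.Mult3

set_option autoImplicit false

/-! # Zero sets of polynomials are null sets -/

namespace Pool.Agent.KS6_81.HN

open Set Filter Topology Metric MeasureTheory

variable {n : ℕ}

lemma trl_ne {A : MvPolynomial (Fin n) ℂ} (hA : A ≠ 0) (t : EE n) : trl t A ≠ 0 := by
  intro h0
  refine hA (MvPolynomial.funext fun y => ?_)
  have h2 := eval_trl t (y - t) A
  rw [h0, map_zero, sub_add_cancel] at h2
  rw [← h2, map_zero]

lemma ae_near {p : MvPolynomial (Fin n) ℂ} (hp : p ≠ 0) :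
    ∃ δ : ℝ, 0 < δ ∧ ∀ᵐ y : EE n, y ∈ ball (0 : EE n) δ → MvPolynomial.eval y p ≠ 0 := by
  set D := p.totalDegree with hD
  obtain ⟨v, hv⟩ : ∃ v : Fin n → ℂ, MvPolynomial.eval v
      (MvPolynomial.homogeneousComponent D p) ≠ 0 := by
    by_contra hcon
    push Not at hcon
    refine top_ne hp (MvPolynomial.funext fun v => ?_)
    rw [hcon v, map_zero]
  have hv1 : bc v p D 0 ≠ 0 := by
    rw [bc_zero]
    exact hv
  have e1 : ∀ᶠ y in 𝓝 (0 : EE n), bc v p D y ≠ 0 :=
    (bc_cont v p D).continuousAt.eventually_ne hv1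
  obtain ⟨δ, hδ, hball⟩ := Metric.eventually_nhds_iff_ball.1 e1
  have h1 : ∀ᵐ y : EE n, ∀ᵐ z : ℂ, y ∈ ball (0 : EE n) δ →
      MvPolynomial.eval (fun i => y i + v i * z) p ≠ 0 := by
    refine Eventually.of_forall fun y => ?_
    by_cases hy : y ∈ ball (0 : EE n) δ
    · set P : Polynomial ℂ := (lnp v p).map (MvPolynomial.eval y) with hP
      have hP0 : P ≠ 0 := by
        intro h0
        refine hball y hy ?_
        have h2 := congrArg (fun q => Polynomial.coeff q D) h0
        simp only [hP, Polynomial.coeff_map, Polynomial.coeff_zero] at h2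
        exact h2
      have h3 : {z : ℂ | ¬ (y ∈ ball (0 : EE n) δ →
          MvPolynomial.eval (fun i => y i + v i * z) p ≠ 0)} ⊆ (P.roots.toFinset : Set ℂ) := by
        intro z hz
        rw [mem_ofPred_eq] at hz
        push Not at hz
        rw [Finset.mem_coe, Multiset.mem_toFinset, Polynomial.mem_roots hP0, Polynomial.IsRoot,
          hP, lnp_eval]
        exact hz.2
      exact measure_mono_null h3 (P.roots.toFinset.finite_toSet.measure_zero _)
    · exact Eventually.of_forall fun z h => absurd h hy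
  have hm : MeasurableSet {q : EE n × ℂ | q.1 ∈ ball (0 : EE n) δ →
      MvPolynomial.eval (fun i => q.1 i + v i * q.2) p ≠ 0} := by
    have hc : Continuous fun q : EE n × ℂ => MvPolynomial.eval (fun i => q.1 i + v i * q.2) p :=
      (MvPolynomial.continuous_eval p).comp (by fun_prop)
    have h2 : {q : EE n × ℂ | q.1 ∈ ball (0 : EE n) δ →
      MvPolynomial.eval (fun i => q.1 i + v i * q.2) p ≠ 0} =
        (Prod.fst ⁻¹' (ball (0 : EE n) δ))ᶜ ∪
        {q : EE n × ℂ | MvPolynomial.eval (fun i => q.1 i + v i * q.2) p ≠ 0} := by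
      ext q
      simp only [mem_ofPred_eq, mem_union, mem_compl_iff, mem_preimage]
      tauto
    rw [h2]
    refine ((measurable_fst measurableSet_ball).compl).union ?_
    exact (isOpen_ne_fun hc continuous_const).measurableSet
  have h2 := (Measure.ae_ae_comm (μ := (volume : Measure (EE n))) (ν := (volume : Measure ℂ))
    (p := fun y z => y ∈ ball (0 : EE n) δ →
      MvPolynomial.eval (fun i => y i + v i * z) p ≠ 0) hm).1 h1
  set σ : ℝ := δ / (2 * (1 + ‖v‖)) with hσ
  have hσ0 : 0 < σ := by positivity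
  obtain ⟨z, hz, hzG⟩ : ∃ z ∈ ball (0 : ℂ) σ, ∀ᵐ y : EE n, y ∈ ball (0 : EE n) δ →
      MvPolynomial.eval (fun i => y i + v i * z) p ≠ 0 := by
    by_contra hcon
    push Not at hcon
    have h3 : (volume : Measure ℂ) (ball (0 : ℂ) σ) = 0 := by
      refine measure_mono_null ?_ h2
      intro z hz
      rw [mem_compl_iff, mem_ofPred_eq, not_eventually]
      exact (hcon z hz).mono fun y hy => by
        push Not
        exact hy
    exact (measure_ball_pos volume (0 : ℂ) hσ0).ne' h3
  set g : EE n := fun i => v i * z with hg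
  have h3 : ∀ᵐ y : EE n, (y + g) - g ∈ ball (0 : EE n) δ → MvPolynomial.eval (y + g) p ≠ 0 := by
    filter_upwards [hzG] with y hy h4
    rw [add_sub_cancel_right] at h4
    exact hy h4
  have h4 := (eventually_add_right_iff (volume : Measure (EE n)) g
    (p := fun y => y - g ∈ ball (0 : EE n) δ → MvPolynomial.eval y p ≠ 0)).1 h3
  refine ⟨δ / 2, by positivity, ?_⟩
  filter_upwards [h4] with y hy h5
  refine hy ?_
  rw [mem_ball_zero_iff] at h5 ⊢
  have h6 : ‖g‖ ≤ δ / 2 := by
    refine (pi_norm_le_iff_of_nonneg (by positivity)).2 fun i => ?_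
    rw [norm_mul]
    rw [mem_ball_zero_iff] at hz
    have h8 : ‖v i‖ ≤ 1 + ‖v‖ := (norm_le_pi_norm v i).trans (by linarith)
    calc ‖v i‖ * ‖z‖ ≤ (1 + ‖v‖) * (δ / (2 * (1 + ‖v‖))) :=
          mul_le_mul h8 hz.le (norm_nonneg _) (by positivity)
      _ = δ / 2 := by
        have : 1 + ‖v‖ ≠ 0 := by positivity
        field_simp
  have h7 := norm_sub_le y g
  linarith

/-- the zero set of a polynomial is a null set -/
theorem ae_ne {p : MvPolynomial (Fin n) ℂ} (hp : p ≠ 0) :
    ∀ᵐ t : EE n, MvPolynomial.eval t p ≠ 0 := by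
  refine measure_null_of_locally_null _ fun t _ => ?_
  obtain ⟨δ, hδ, h⟩ := ae_near (trl_ne hp t)
  refine ⟨{y | ¬ (y ∈ ball t δ → MvPolynomial.eval y p ≠ 0)} ∪ (ball t δ ∩
    {y | ¬ (MvPolynomial.eval y p ≠ 0)}), ?_, ?_⟩
  · rw [mem_nhdsWithin]
    refine ⟨ball t δ, isOpen_ball, mem_ball_self hδ, ?_⟩
    intro y hy
    exact Or.inr hy
  · have h1 : ∀ᵐ y : EE n, (y + t) ∈ ball t δ → MvPolynomial.eval (y + t) p ≠ 0 := by
      filter_upwards [h] with y hy h4
      rw [← eval_trl]
      refine hy ?_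
      rw [mem_ball, dist_eq_norm, add_sub_cancel_right] at h4
      rwa [mem_ball_zero_iff]
    have h2 := (eventually_add_right_iff (volume : Measure (EE n)) t
      (p := fun y => y ∈ ball t δ → MvPolynomial.eval y p ≠ 0)).1 h1
    refine measure_mono_null ?_ h2
    intro y hy
    rcases hy with hy | hy
    · exact hy
    · intro h3
      exact hy.2 (h3 hy.1)

end Pool.Agent.KS6_81.HN
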