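import Pool.Agent.KS6_81.HN.Shell
import Pool.Agent.KS6_81.HN.Null
import Pool.Agent.KS6_81.HP.Poly

set_option autoImplicit false

/-! # Weighted homogeneous polynomials with a point of high multiplicity -/

namespace Pool.Agent.KS6_81.HN

open Set Filter Topology Metric MeasureTheory
open Pool.Agent.H628R4.TP (weylS IsBFunction)
open Pool.Agent.KS6_81.HP (roots_bd sum_pow_le)

variable {n : ℕ}

/-- `∑_j x₀^(k-j) A_j(x₁, …, x_n)` -/
noncomputable def hform (k : ℕ) (A : ℕ → MvPolynomial (Fin n) ℂ) : MvPolynomial (Fin (n + 1)) ℂ :=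
  ∑ j ∈ Finset.range (k + 1), MvPolynomial.X 0 ^ (k - j) * MvPolynomial.rename Fin.succ (A j)

lemma ff_hform (k : ℕ) (A : ℕ → MvPolynomial (Fin n) ℂ) (x : ℂ) (t : EE n) :
    ff (hform k A) (x, t) =
      ∑ j ∈ Finset.range (k + 1), x ^ (k - j) * MvPolynomial.eval t (A j) := by
  unfold ff hform
  rw [map_sum]
  refine Finset.sum_congr rfl fun j _ => ?_
  rw [map_mul, map_pow, MvPolynomial.eval_X, MvPolynomial.eval_rename]
  rfl

/-- evaluation of a weighted homogeneous polynomial -/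
lemma eval_act {u : Fin n → ℕ} {p : MvPolynomial (Fin n) ℂ} {D : ℕ}
    (hp : p.IsWeightedHomogeneous u D) (l : ℂ) (t : EE n) :
    MvPolynomial.eval (act u l t) p = l ^ D * MvPolynomial.eval t p := by
  rw [MvPolynomial.eval_eq', MvPolynomial.eval_eq', Finset.mul_sum]
  refine Finset.sum_congr rfl fun m hm => ?_
  have h1 : Finsupp.weight u m = D := hp (MvPolynomial.mem_support_iff.1 hm)
  have h2 : ∏ i, act u l t i ^ m i = l ^ D * ∏ i, t i ^ m i := by
    simp only [act, mul_pow, ← pow_mul]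
    rw [Finset.prod_mul_distrib, Finset.prod_pow_eq_pow_sum]
    congr 2
    rw [← h1, Finsupp.weight_apply, Finsupp.sum_fintype _ _ (fun i => by simp)]
    refine Finset.sum_congr rfl fun i _ => ?_
    rw [smul_eq_mul, mul_comm]
  rw [h2]
  ring

/-- the algebraic data -/
structure Data (u0 : ℕ) (u : Fin n → ℕ) (e k : ℕ) (A : ℕ → MvPolynomial (Fin n) ℂ) (ρ c : ℝ) :
    Prop where
  u0pos : 0 < u0
  upos : ∀ i, 0 < u i
  hke : k * (u0 + ∑ i, u i) < e
  hρ : ρ = (u0 + ∑ i, u i : ℕ) / (e : ℝ)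
  hom : ∀ j, j ≤ k → (A j).IsWeightedHomogeneous u (e - (k - j) * u0)
  hc : 1 - k * ρ < c
  mild : ∀ j, 1 ≤ j → j ≤ k → ∀ q : ℝ, 1 - k * ρ ≤ q → q ≤ c → ∀ t : EE n, t ≠ 0 → ∃ V ∈ 𝓝 t,
    IntegrableOn (fun y => ‖MvPolynomial.eval y (A 0)‖ ^ (-(2 * ρ)) *
      (‖MvPolynomial.eval y (A j)‖ / ‖MvPolynomial.eval y (A 0)‖) ^ (2 * q / j)) V
  dist : ∃ (t : EE n) (x x' : ℂ), MvPolynomial.eval t (A 0) ≠ 0 ∧ x ≠ x' ∧
    ff (hform k A) (x, t) = 0 ∧ ff (hform k A) (x', t) = 0

variable {u0 : ℕ} {u : Fin n → ℕ} {e k : ℕ} {A : ℕ → MvPolynomial (Fin n) ℂ} {ρ c : ℝ}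

lemma Data.A0_ne (D : Data u0 u e k A ρ c) : A 0 ≠ 0 := by
  obtain ⟨t, x, x', h, -⟩ := D.dist
  intro h0
  rw [h0, map_zero] at h
  exact h rfl

lemma Data.kpos (D : Data u0 u e k A ρ c) : 0 < k := by
  by_contra h
  have hk : k = 0 := by omega
  subst hk
  obtain ⟨t, x, x', h0, -, h1, -⟩ := D.dist
  rw [ff_hform] at h1
  simp at h1
  exact h0 h1

lemma Data.epos (D : Data u0 u e k A ρ c) : (0 : ℝ) < e := by
  have := D.hke
  exact_mod_cast (by omega : 0 < e)

lemma Data.Wpos (D : Data u0 u e k A ρ c) : (0 : ℝ) < (u0 + ∑ i, u i : ℕ) := by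
  have := D.u0pos
  exact_mod_cast (by omega : 0 < u0 + ∑ i, u i)

lemma Data.ρ0 (D : Data u0 u e k A ρ c) : 0 < ρ := by
  rw [D.hρ]
  exact div_pos D.Wpos D.epos

lemma Data.ρe (D : Data u0 u e k A ρ c) : ρ * e = u0 + ∑ i, (u i : ℝ) := by
  rw [D.hρ, div_mul_cancel₀ _ D.epos.ne']
  push_cast
  rfl

lemma Data.kρ (D : Data u0 u e k A ρ c) : k * ρ < 1 := by
  have h1 := D.epos
  have h2 : (k : ℝ) * (u0 + ∑ i, u i : ℕ) < e := by exact_mod_cast D.hke
  rw [D.hρ, ← mul_div_assoc, div_lt_one h1]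
  exact h2

lemma Data.ku (D : Data u0 u e k A ρ c) : k * u0 < e := by
  refine lt_of_le_of_lt ?_ D.hke
  exact Nat.mul_le_mul_left _ (Nat.le_add_right _ _)

/-- the bound for the roots -/
noncomputable def YY (k : ℕ) (A : ℕ → MvPolynomial (Fin n) ℂ) (t : EE n) : ℝ :=
  2 * ∑ j ∈ Finset.Icc 1 k,
    (‖MvPolynomial.eval t (A j)‖ / ‖MvPolynomial.eval t (A 0)‖) ^ (1 / j : ℝ)

lemma eval_cont (q : MvPolynomial (Fin n) ℂ) : Continuous fun t : EE n => MvPolynomial.eval t q :=
  MvPolynomial.continuous_eval q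

/-- one term -/
lemma LI_term (D : Data u0 u e k A ρ c) {j : ℕ} (hj1 : 1 ≤ j) (hjk : j ≤ k) {s q : ℝ}
    (hs : -ρ ≤ s) (hs0 : s < 0) (hq1 : 2 * (1 - k * ρ) ≤ q) (hq2 : q ≤ 2 * c)
    (htot : 0 < 2 * s * (e - k * u0) + q * u0 + 2 * ∑ i, (u i : ℝ)) :
    LI fun t => ‖MvPolynomial.eval t (A 0)‖ ^ (2 * s) *
      ((‖MvPolynomial.eval t (A j)‖ / ‖MvPolynomial.eval t (A 0)‖) ^ (1 / j : ℝ)) ^ q := by
  have hjR : (0 : ℝ) < j := by exact_mod_cast hj1
  have hku := D.ku
  have hkρ := D.kρ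
  refine LI_of_homog u D.upos (δ := 2 * s * (e - k * u0) + q * u0) ?_ (fun t => by positivity)
    htot ?_ ?_
  · refine ((eval_cont _).measurable.norm.pow_const _).mul (Measurable.pow_const ?_ _)
    exact ((eval_cont _).measurable.norm.div (eval_cont _).measurable.norm).pow_const _
  · intro l hl t
    have e1 := eval_act (D.hom 0 (Nat.zero_le _)) (l : ℂ) t
    have e2 := eval_act (D.hom j hjk) (l : ℂ) t
    have e3 : e - (k - j) * u0 = (e - (k - 0) * u0) + j * u0 := by
      obtain ⟨i, rfl⟩ := Nat.exists_eq_add_of_le hjk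
      rw [Nat.add_sub_cancel_left, Nat.sub_zero]
      have h1 : (j + i) * u0 = j * u0 + i * u0 := by ring
      rw [h1] at hku ⊢
      omega
    have e4 : ((e - (k - 0) * u0 : ℕ) : ℝ) = e - k * u0 := by
      rw [Nat.sub_zero, Nat.cast_sub hku.le]
      push_cast
      rfl
    simp only [e1, e2, norm_mul, norm_pow, Complex.norm_real, Real.norm_eq_abs, abs_of_pos hl]
    rw [e3, pow_add, mul_assoc, mul_div_mul_left _ _ (pow_pos hl _).ne', mul_div_assoc,
      Real.mul_rpow (by positivity) (norm_nonneg _), Real.mul_rpow (by positivity) (by positivity),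
      Real.mul_rpow (by positivity) (by positivity), ← Real.rpow_natCast l (e - (k - 0) * u0),
      ← Real.rpow_mul hl.le, e4, ← Real.rpow_natCast l (j * u0), ← Real.rpow_mul hl.le,
      ← Real.rpow_mul hl.le, Real.rpow_add hl]
    have e5 : ((j * u0 : ℕ) : ℝ) * (1 / j) * q = q * u0 := by
      push_cast
      field_simp
    have e6 : (e - k * u0 : ℝ) * (2 * s) = 2 * s * (e - k * u0) := by ring
    rw [e5, e6]
    ring
  · intro t ht
    obtain ⟨V, hV, hI⟩ := D.mild j hj1 hjk (q / 2) (by linarith) (by linarith) t ht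
    obtain ⟨M, hM⟩ : ∃ M : ℝ, ∀ y ∈ closedBall t 1, ‖MvPolynomial.eval y (A 0)‖ ≤ M := by
      obtain ⟨M, hM⟩ := (isCompact_closedBall t 1).exists_bound_of_continuousOn
        (eval_cont (A 0)).continuousOn
      exact ⟨M, hM⟩
    refine ⟨V ∩ ball t 1, inter_mem hV (ball_mem_nhds _ one_pos), ?_⟩
    have h1 : IntegrableOn (fun y => (max M 1) ^ (2 * (s + ρ)) *
        (‖MvPolynomial.eval y (A 0)‖ ^ (-(2 * ρ)) *
        (‖MvPolynomial.eval y (A j)‖ / ‖MvPolynomial.eval y (A 0)‖) ^ (2 * (q / 2) / j)))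
        (V ∩ ball t 1) := (hI.mono_set inter_subset_left).const_mul _
    refine Integrable.mono' h1 ?_ ?_
    · refine Measurable.aestronglyMeasurable ?_
      refine ((eval_cont _).measurable.norm.pow_const _).mul (Measurable.pow_const ?_ _)
      exact ((eval_cont _).measurable.norm.div (eval_cont _).measurable.norm).pow_const _
    · have h2 : ∀ᵐ y ∂((volume : Measure (EE n)).restrict (ball t 1)), y ∈ ball t 1 :=
        ae_restrict_mem measurableSet_ball
      have h3 : (volume : Measure (EE n)).restrict (V ∩ ball t 1) ≤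
          (volume : Measure (EE n)).restrict (ball t 1) :=
        Measure.restrict_mono inter_subset_right le_rfl
      filter_upwards [h3.absolutelyContinuous.ae_le h2] with y hy
      rw [Real.norm_eq_abs, abs_of_nonneg (by positivity)]
      rw [← Real.rpow_mul (by positivity)]
      have e1 : (1 / j : ℝ) * q = 2 * (q / 2) / j := by
        field_simp
      rw [e1, ← mul_assoc]
      refine mul_le_mul_of_nonneg_right ?_ (by positivity)
      rcases (norm_nonneg (MvPolynomial.eval y (A 0))).eq_or_lt with h0 | h0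
      · rw [← h0, Real.zero_rpow (by linarith)]
        positivity
      · have h4 : ‖MvPolynomial.eval y (A 0)‖ ^ (2 * (s + ρ)) ≤ (max M 1) ^ (2 * (s + ρ)) :=
          Real.rpow_le_rpow h0.le ((hM y (ball_subset_closedBall hy)).trans (le_max_left _ _))
            (by linarith)
        calc ‖MvPolynomial.eval y (A 0)‖ ^ (2 * s) =
            ‖MvPolynomial.eval y (A 0)‖ ^ (2 * (s + ρ)) *
              ‖MvPolynomial.eval y (A 0)‖ ^ (-(2 * ρ)) := by
              rw [← Real.rpow_add h0]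
              congr 1
              ring
          _ ≤ _ := mul_le_mul_of_nonneg_right h4 (by positivity)

/-- the weighted power of the bound -/
lemma LI_Y (D : Data u0 u e k A ρ c) {s q : ℝ}
    (hs : -ρ ≤ s) (hs0 : s < 0) (hq1 : 2 * (1 - k * ρ) ≤ q) (hq2 : q ≤ 2 * c)
    (htot : 0 < 2 * s * (e - k * u0) + q * u0 + 2 * ∑ i, (u i : ℝ)) :
    LI fun t => ‖MvPolynomial.eval t (A 0)‖ ^ (2 * s) * YY k A t ^ q := by
  have hk := D.kpos
  have hkρ := D.kρ
  have hq : 0 < q := by linarith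
  have hne : (Finset.Icc 1 k).Nonempty := ⟨1, Finset.mem_Icc.2 ⟨le_rfl, hk⟩⟩
  have hsum : LI fun t => (2 : ℝ) ^ q * ((Finset.Icc 1 k).card : ℝ) ^ q *
      ∑ j ∈ Finset.Icc 1 k, (‖MvPolynomial.eval t (A 0)‖ ^ (2 * s) *
      ((‖MvPolynomial.eval t (A j)‖ / ‖MvPolynomial.eval t (A 0)‖) ^ (1 / j : ℝ)) ^ q) := by
    intro R
    refine Integrable.const_mul ?_ _
    refine integrable_finsetSum _ fun j hj => ?_
    obtain ⟨hj1, hjk⟩ := Finset.mem_Icc.1 hj
    exact LI_term D hj1 hjk hs hs0 hq1 hq2 htot R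
  intro R
  refine hsum.mono ?_ R (Eventually.of_forall fun t _ => ?_)
  · refine ((eval_cont _).measurable.norm.pow_const _).mul (Measurable.pow_const ?_ _)
    unfold YY
    refine measurable_const.mul (Finset.measurable_sum _ fun j _ => ?_)
    exact ((eval_cont _).measurable.norm.div (eval_cont _).measurable.norm).pow_const _
  · have hY : 0 ≤ YY k A t := by
      unfold YY
      exact mul_nonneg (by norm_num) (Finset.sum_nonneg fun j _ => by positivity)
    rw [abs_of_nonneg (by positivity), ← Finset.mul_sum]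
    have h1 : YY k A t ^ q ≤ (2 : ℝ) ^ q * (((Finset.Icc 1 k).card : ℝ) ^ q *
        ∑ j ∈ Finset.Icc 1 k,
        ((‖MvPolynomial.eval t (A j)‖ / ‖MvPolynomial.eval t (A 0)‖) ^ (1 / j : ℝ)) ^ q) := by
      unfold YY
      rw [Real.mul_rpow (by norm_num) (Finset.sum_nonneg fun j _ => by positivity)]
      refine mul_le_mul_of_nonneg_left ?_ (by positivity)
      exact sum_pow_le _ hne _ (fun j => by positivity) hq.le
    calc ‖MvPolynomial.eval t (A 0)‖ ^ (2 * s) * YY k A t ^ q ≤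
        ‖MvPolynomial.eval t (A 0)‖ ^ (2 * s) * _ := mul_le_mul_of_nonneg_left h1 (by positivity)
      _ = _ := by ring

/-- **The analytic data of a weighted homogeneous polynomial with a point of high multiplicity.** -/
theorem Data.heavy (D : Data u0 u e k A ρ c) :
    Heavy2 u0 u k (e - k * u0) ρ (hform k A) (fun t => MvPolynomial.eval t (A 0)) (YY k A) := by
  have hk := D.kpos
  have hku := D.ku
  have hkρ := D.kρ
  have hρ0 := D.ρ0
  have hρe := D.ρe
  have heR := D.epos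
  have hkR : (0 : ℝ) < k := by exact_mod_cast hk
  have hu0 : (0 : ℝ) < u0 := by exact_mod_cast D.u0pos
  have hkuR : (k : ℝ) * u0 < e := by exact_mod_cast hku
  have hDR : ((e - k * u0 : ℕ) : ℝ) = e - k * u0 := by
    rw [Nat.cast_sub hku.le]
    push_cast
    rfl
  have hS : ∑ i, (u i : ℝ) = ρ * e - u0 := by linarith
  refine ⟨⟨hk, hρ0, hkρ, eval_cont _, ?_, ?_, ae_ne D.A0_ne, ?_, ?_⟩, D.u0pos, D.upos, ?_, ?_, ?_,
    ?_, D.dist⟩
  · unfold YY
    refine measurable_const.mul (Finset.measurable_sum _ fun j _ => ?_)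
    exact ((eval_cont _).measurable.norm.div (eval_cont _).measurable.norm).pow_const _
  · intro t ht
    obtain ⟨r, hr1, hr2⟩ := roots_bd (k := k) (fun j => MvPolynomial.eval t (A j)) ht
    exact ⟨r, fun x => by rw [ff_hform]; exact hr1 x, hr2⟩
  · obtain ⟨ε, hε, h⟩ := small_pow D.A0_ne
    exact ⟨min ε ρ, lt_min hε hρ0, min_le_right _ _, fun s hs hs0 =>
      h s (by have := min_le_left ε ρ; linarith) hs0⟩
  · intro s hs hs0
    have e1 : (2 - 2 * k * ρ : ℝ) = 2 * (1 - k * ρ) := by ring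
    have hc := D.hc
    refine LI_Y D hs.le hs0 (by linarith) (by linarith) ?_
    rw [hS]
    have h1 : 0 < (s + ρ) * (e - k * u0) := mul_pos (by linarith) (by linarith)
    nlinarith
  · rw [hDR, sub_add_cancel]
    exact hρe
  · have hc := D.hc
    refine ⟨2 * min c 1, ?_, ?_, ?_⟩
    · have : 0 < min c 1 := lt_min (by linarith) one_pos
      linarith
    · have := min_le_right c 1
      linarith
    · have h1 : 1 - k * ρ < min c 1 := lt_min hc (by nlinarith)
      refine LI_Y D le_rfl (by linarith) (by linarith) (by linarith [min_le_left c 1]) ?_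
      rw [hS]
      have h2 : 0 < (min c 1 - (1 - k * ρ)) * u0 := mul_pos (by linarith) hu0
      nlinarith
  · intro l t
    have h1 := eval_act (D.hom 0 (Nat.zero_le _)) (l : ℂ) t
    rw [Nat.sub_zero] at h1
    exact h1
  · intro l x t
    rw [ff_hform, ff_hform, Finset.mul_sum]
    refine Finset.sum_congr rfl fun j hj => ?_
    have hjk : j ≤ k := by
      have := Finset.mem_range.1 hj
      omega
    rw [eval_act (D.hom j hjk), mul_pow, ← pow_mul]
    have h1 : (l : ℂ) ^ (e - k * u0 + k * u0) = (l : ℂ) ^ (u0 * (k - j)) *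
        (l : ℂ) ^ (e - (k - j) * u0) := by
      rw [← pow_add]
      congr 1
      have h2 : (k - j) * u0 ≤ k * u0 := Nat.mul_le_mul_right _ (Nat.sub_le _ _)
      rw [mul_comm u0]
      omega
    rw [h1]
    ring

end Pool.Agent.KS6_81.HN
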