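import Pool.Agent.KS6_81.HN.Low

set_option autoImplicit false

/-! # The root `-W/d` -/

namespace Pool.Agent.KS6_81.HN

open Set Filter Topology Metric MeasureTheory
open scoped ContDiff Pointwise
open Pool.Agent.H628R4.TP (weylS IsBFunction)
open Pool.Agent.KS6_81.HP (Dr Dr_nonneg Dr_int Dr_low Dr_scal lower Ic)

variable {n k : ℕ} {ρ : ℝ} {f : MvPolynomial (Fin (n + 1)) ℂ} {A : EE n → ℂ} {Y : EE n → ℝ}
  {w0 D : ℕ} {w : Fin n → ℕ}

/-- the roots on a scaled line -/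
lemma root_scal (H : Heavy2 w0 w k D ρ f A Y) {l : ℝ} (hl : 0 < l) {t u : EE n}
    (htu : t = act w (l : ℂ) u) {r : Fin k → ℂ} (hr : ∀ x, ff f (x, t) = A t * ∏ i, (x - r i))
    (x : ℂ) : ff f (x, u) = A u * ∏ i, (x - ((l ^ w0 : ℝ) : ℂ)⁻¹ * r i) := by
  have hlC : (l : ℂ) ≠ 0 := by exact_mod_cast hl.ne'
  have hlw : ((l ^ w0 : ℝ) : ℂ) ≠ 0 := by
    push_cast
    exact pow_ne_zero _ hlC
  have h1 := H.hf l x u
  rw [← htu, hr, htu, H.hA] at h1
  have h2 : ∏ i, ((l : ℂ) ^ w0 * x - r i) =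
      ((l : ℂ) ^ w0) ^ k * ∏ i, (x - ((l ^ w0 : ℝ) : ℂ)⁻¹ * r i) := by
    have h3 : ∀ i, (l : ℂ) ^ w0 * x - r i = (l : ℂ) ^ w0 * (x - ((l ^ w0 : ℝ) : ℂ)⁻¹ * r i) := by
      intro i
      rw [mul_sub, ← mul_assoc, ← Complex.ofReal_pow, mul_inv_cancel₀ hlw, one_mul]
    simp only [h3]
    rw [Finset.prod_mul_distrib, Finset.prod_const, Finset.card_univ, Fintype.card_fin]
  rw [h2] at h1
  have h4 : (l : ℂ) ^ (D + k * w0) = (l : ℂ) ^ D * ((l : ℂ) ^ w0) ^ k := by
    rw [← pow_mul, ← pow_add]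
    congr 1
    ring
  rw [h4] at h1
  have h5 : (l : ℂ) ^ D * ((l : ℂ) ^ w0) ^ k ≠ 0 := mul_ne_zero (pow_ne_zero _ hlC)
    (pow_ne_zero _ (pow_ne_zero _ hlC))
  have h6 : (l : ℂ) ^ D * ((l : ℂ) ^ w0) ^ k * ff f (x, u) =
      (l : ℂ) ^ D * ((l : ℂ) ^ w0) ^ k * (A u * ∏ i, (x - ((l ^ w0 : ℝ) : ℂ)⁻¹ * r i)) := by
    rw [← h1]
    ring
  exact mul_left_cancel₀ h5 h6

/-- the volume of a product of scaled balls -/
lemma vol_pi (w : Fin n → ℕ) (t0 : EE n) {l ε : ℝ} (hl : 0 < l) (hε : 0 < ε) :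
    (volume : Measure (EE n)).real
      (Set.pi univ fun i => ball ((l : ℂ) ^ w i * t0 i) (l ^ w i * ε)) =
      l ^ (2 * ∑ i, w i) * (ε ^ 2 * Real.pi) ^ n := by
  rw [Measure.real, volume_pi_pi, ENNReal.toReal_prod]
  have h1 : ∀ i, (volume (ball ((l : ℂ) ^ w i * t0 i) (l ^ w i * ε))).toReal =
      l ^ (2 * w i) * (ε ^ 2 * Real.pi) := by
    intro i
    rw [Complex.volume_ball, ENNReal.toReal_mul, ENNReal.toReal_pow,
      ENNReal.toReal_ofReal (by positivity)]
    have h2 : ((NNReal.pi : NNReal) : ENNReal).toReal = Real.pi := by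
      rw [ENNReal.coe_toReal]
      rfl
    rw [h2]
    ring
  rw [Finset.prod_congr rfl fun i _ => h1 i, Finset.prod_mul_distrib, Finset.prod_const,
    Finset.card_univ, Fintype.card_fin, Finset.prod_pow_eq_pow_sum, Finset.mul_sum]

/-- **The regularized integral diverges.** -/
theorem diverge (H : Heavy2 w0 w k D ρ f A Y) : ∃ m C' : ℝ, 0 < m ∧ ∀ N : ℕ, 0 < N → ∀ c : ℝ,
    -ρ < c → c ≤ -ρ / 2 → c ≤ -ρ + 1 / (2 * (D + k * w0) * N) →
      N * m - C' ≤ (ZZ f k (c : ℂ)).re := by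
  have hk := H.hk
  have hkR : (0 : ℝ) < k := by exact_mod_cast hk
  have hρ0 := H.ρ0
  have hρ1 := H.toHeavy.ρ1
  set d : ℝ := (D : ℝ) + k * w0 with hd
  have hdR : 0 < d := by
    have h1 : (0 : ℝ) < D := by exact_mod_cast Heavy2.Dpos H
    positivity
  set s0 : ℝ := -ρ with hs0
  have hs0n : s0 < 0 := by linarith
  have hs01 : -1 ≤ s0 := by linarith
  set β : ℝ := 2 * k * s0 with hβd
  have hβ : -2 < β := by
    have h1 := H.toHeavy.kd
    rw [hβd, hs0]
    linarith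
  have hβ0 : β ≤ 0 := mul_nonpos_of_nonneg_of_nonpos (by positivity) hs0n.le
  obtain ⟨C, hC0, hC⟩ := lower (k := k) hk hβ hβ0 1
  obtain ⟨t0, i0, ε, η, hε, hη, hsum, h4, hun⟩ := unif H
  obtain ⟨M, hM1, hM⟩ := A_bd H.toHeavy 2
  obtain ⟨q, hq0, hq2, hLI⟩ := H.I3
  rw [← hs0] at hLI
  have hM0 : 0 < M := by linarith
  set κ : ℝ := (2 : ℝ) ^ (2 * k * s0 + 2) - 1 with hκ
  have hκ0 : 0 < κ := by
    have : 1 < (2 : ℝ) ^ (2 * k * s0 + 2) := Real.one_lt_rpow (by norm_num) (by linarith)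
    rw [hκ]
    linarith
  set V : ℝ := (ε ^ 2 * Real.pi) ^ n with hV
  have hV0 : 0 < V := by
    have := Real.pi_pos
    positivity
  set m0 : ℝ := κ * η * M ^ (-2 : ℝ) with hm0
  have hm00 : 0 < m0 := by positivity
  set C' : ℝ := C * (M ^ (2 : ℝ) * ∫ t in closedBall (0 : EE n) 2, ‖A t‖ ^ (2 * s0) * Y t ^ q) with hC'
  refine ⟨m0 * V / 2, C', by positivity, fun N hN c hc hc2 hcN => ?_⟩
  have hc0 : c < 0 := by linarith
  have hc1 : |c| ≤ 1 := by
    rw [abs_of_neg hc0]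
    linarith
  have hNR : (0 : ℝ) < N := by exact_mod_cast hN
  -- the functions
  set P : EE n → ℝ := fun t => rh0 t * (inn f k (c : ℂ) t).re with hP
  set Q : EE n → ℝ := fun t => rh0 t * (‖A t‖ ^ (2 * c) * Y t ^ q) with hQ
  obtain ⟨σ, hσ1, hσ2⟩ := exists_between hc
  have hcU : (c : ℂ) ∈ UU σ := by
    refine ⟨by rw [Complex.ofReal_re]; exact hσ2, by rw [Complex.ofReal_re]; exact hc0, ?_⟩
    rw [Complex.norm_real, Real.norm_eq_abs, abs_of_neg hc0]
    linarith
  have iP0 := rinn_int H.toHeavy hσ1 (hσ2.trans hc0) hcU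
  have iP : Integrable P := by
    refine iP0.re.congr (Eventually.of_forall fun t => ?_)
    show (((rh0 t : ℝ) : ℂ) * inn f k (c : ℂ) t).re = P t
    rw [Complex.re_ofReal_mul]
  have mQ : Measurable Q :=
    rh0.continuous.measurable.mul ((H.cA.measurable.norm.pow_const _).mul (H.mY.pow_const _))
  have Y0 : ∀ t, A t ≠ 0 → 0 ≤ Y t := by
    intro t ht
    obtain ⟨r, -, hr⟩ := H.root t ht
    exact (norm_nonneg _).trans (hr ⟨0, hk⟩)
  have bQ : ∀ᵐ t, ‖Q t‖ ≤ (closedBall (0 : EE n) 2).indicator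
      (fun t => M ^ (2 : ℝ) * (‖A t‖ ^ (2 * s0) * Y t ^ q)) t := by
    filter_upwards [H.ae] with t ht
    have hY := Y0 t ht
    have hA0 : 0 < ‖A t‖ := norm_pos_iff.2 ht
    by_cases ht2 : t ∈ closedBall (0 : EE n) 2
    · rw [indicator_of_mem ht2, Real.norm_eq_abs, abs_of_nonneg (by
        rw [hQ]
        exact mul_nonneg rh0.nonneg (by positivity))]
      have e1 : ‖A t‖ ^ (2 * c) ≤ M ^ (2 : ℝ) * ‖A t‖ ^ (2 * s0) :=
        pw_cmp hA0 hM1 (hM t ht2) hc.le (by linarith)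
      calc Q t ≤ 1 * ((M ^ (2 : ℝ) * ‖A t‖ ^ (2 * s0)) * Y t ^ q) := by
            rw [hQ]
            refine mul_le_mul rh0.le_one ?_ (by positivity) zero_le_one
            exact mul_le_mul_of_nonneg_right e1 (by positivity)
        _ = _ := by ring
    · rw [indicator_of_notMem ht2]
      rw [mem_closedBall_zero_iff, not_le] at ht2
      have h4 : rh0 t = 0 := rh0.zero_of_le_dist (by rw [dist_zero_right]; exact ht2.le)
      rw [hQ]
      simp only
      rw [h4, zero_mul, norm_zero]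
  have iE : Integrable ((closedBall (0 : EE n) 2).indicator
      (fun t => M ^ (2 : ℝ) * (‖A t‖ ^ (2 * s0) * Y t ^ q))) :=
    (integrable_indicator_iff measurableSet_closedBall).2 ((hLI 2).const_mul _)
  have iQ : Integrable Q := Integrable.mono' iE mQ.aestronglyMeasurable bQ
  have hQint : C * ∫ t, Q t ≤ C' := by
    rw [hC']
    refine mul_le_mul_of_nonneg_left ?_ hC0
    rw [← integral_const_mul, ← integral_indicator measurableSet_closedBall]
    refine integral_mono_ae iQ iE ?_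
    filter_upwards [bQ] with t ht
    exact (le_abs_self _).trans ht
  -- the positive function
  set F : EE n → ℝ := fun t => P t + C * Q t with hF
  have iF : Integrable F := iP.add (iQ.const_mul C)
  have hFlow : ∀ t, A t ≠ 0 → ∀ r : Fin k → ℂ, (∀ x, ff f (x, t) = A t * ∏ i, (x - r i)) →
      (∀ i, ‖r i‖ ≤ Y t) →
      rh0 t * (‖A t‖ ^ (2 * c) * (κ * ∫ x in closedBall (0 : ℂ) 1, Dr r c x)) ≤ F t := by
    intro t ht r hr hrY
    have hA0 : 0 < ‖A t‖ := norm_pos_iff.2 ht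
    have e1 : (inn f k (c : ℂ) t).re = ‖A t‖ ^ (2 * c) * (Ic r (c : ℂ)).re := by
      rw [inn_eq hr]
      have : ((‖A t‖ : ℝ) : ℂ) ^ (2 * (c : ℂ)) = ((‖A t‖ ^ (2 * c) : ℝ) : ℂ) := by
        rw [Complex.ofReal_cpow (norm_nonneg _)]
        push_cast
        rfl
      rw [this, Complex.re_ofReal_mul]
    have hmono : 2 * (k : ℝ) * s0 ≤ 2 * k * c := mul_le_mul_of_nonneg_left hc.le (by positivity)
    have e2 := hC c hc0 hmono hc1 q hq0 hq2 r (Y t) hrY
    have e3 : κ ≤ (2 : ℝ) ^ (2 * k * c + 2) - 1 := by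
      have : (2 : ℝ) ^ (2 * k * s0 + 2) ≤ (2 : ℝ) ^ (2 * k * c + 2) :=
        Real.rpow_le_rpow_of_exponent_le (by norm_num) (by linarith)
      rw [hκ]
      linarith
    have e4 : 0 ≤ ∫ x in closedBall (0 : ℂ) 1, Dr r c x :=
      integral_nonneg fun x => Dr_nonneg hk r c x
    have e5 : κ * (∫ x in closedBall (0 : ℂ) 1, Dr r c x) - C * Y t ^ q ≤ (Ic r (c : ℂ)).re := by
      have := mul_le_mul_of_nonneg_right e3 e4
      linarith
    have e6 : 0 ≤ ‖A t‖ ^ (2 * c) := by positivity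
    have e7 := mul_le_mul_of_nonneg_left e5 e6
    have e8 : 0 ≤ rh0 t := rh0.nonneg
    have e9 := mul_le_mul_of_nonneg_left e7 e8
    rw [hF, hP, hQ]
    simp only
    rw [e1]
    nlinarith
  have hF0 : ∀ᵐ t, 0 ≤ F t := by
    filter_upwards [H.ae] with t ht
    obtain ⟨r, hr, hrY⟩ := H.root t ht
    refine le_trans ?_ (hFlow t ht r hr hrY)
    refine mul_nonneg rh0.nonneg (mul_nonneg (by positivity) (mul_nonneg hκ0.le ?_))
    exact integral_nonneg fun x => Dr_nonneg hk r c x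
  -- the sets
  set l : ℕ → ℝ := fun j => (1 / 2 : ℝ) ^ j with hl
  have hl0 : ∀ j, 0 < l j := fun j => by positivity
  have hl1 : ∀ j, l j ≤ 1 := fun j => pow_le_one₀ (by norm_num) (by norm_num)
  have hw0 := H.w0pos
  set O : ℕ → Set (EE n) := fun j =>
    Set.pi univ fun i => ball ((l j : ℂ) ^ w i * t0 i) (l j ^ w i * ε) with hO
  have hOn : ∀ j, ∀ t ∈ O j, ∀ i, l j ^ w i * (‖t0 i‖ - ε) < ‖t i‖ ∧
      ‖t i‖ < l j ^ w i * (‖t0 i‖ + ε) := by
    intro j t ht i
    have ht' := (Set.mem_pi.1 ht) i (mem_univ _)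
    rw [mem_ball, dist_eq_norm] at ht'
    have h5 : ‖(l j : ℂ) ^ w i * t0 i‖ = l j ^ w i * ‖t0 i‖ := by
      rw [norm_mul, norm_pow, Complex.norm_real, Real.norm_eq_abs, abs_of_pos (hl0 j)]
    have h6 := norm_sub_norm_le ((l j : ℂ) ^ w i * t0 i) (t i)
    have h7 := norm_sub_norm_le (t i) ((l j : ℂ) ^ w i * t0 i)
    rw [norm_sub_rev] at h6
    rw [h5] at h6 h7
    constructor
    · linarith
    · linarith
  have hdisj : Set.Pairwise (↑(Finset.range N) : Set ℕ) (Function.onFun Disjoint O) := by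
    have hlt : ∀ i j, i < j → Disjoint (O i) (O j) := by
      intro i j hij
      rw [Set.disjoint_left]
      intro t hti htj
      have h5 := (hOn i t hti i0).1
      have h6 := (hOn j t htj i0).2
      have h7' : l j ≤ l i * (1 / 2) := by
        rw [hl]
        simp only
        rw [← pow_succ]
        exact pow_le_pow_of_le_one (by norm_num) (by norm_num) hij
      have hli := hl0 i
      have h7 : l j ^ w i0 ≤ l i ^ w i0 * (1 / 2) := by
        calc l j ^ w i0 ≤ (l i * (1 / 2)) ^ w i0 := pow_le_pow_left₀ (hl0 j).le h7' _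
          _ = l i ^ w i0 * (1 / 2) ^ w i0 := mul_pow _ _ _
          _ ≤ l i ^ w i0 * (1 / 2) ^ 1 := by
            refine mul_le_mul_of_nonneg_left ?_ (by positivity)
            exact pow_le_pow_of_le_one (by norm_num) (by norm_num) (H.wpos i0)
          _ = _ := by rw [pow_one]
      have h8 : 0 ≤ ‖t0 i0‖ + ε := by positivity
      have h9 := mul_le_mul_of_nonneg_right h7 h8
      have h10 : l i ^ w i0 * (1 / 2) * (‖t0 i0‖ + ε) ≤ l i ^ w i0 * (‖t0 i0‖ - ε) := by
        have : (1 / 2) * (‖t0 i0‖ + ε) ≤ ‖t0 i0‖ - ε := by linarith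
        have := mul_le_mul_of_nonneg_left this (pow_pos hli (w i0)).le
        linarith
      linarith
    intro i _ j _ hij
    rcases lt_or_gt_of_ne hij with h | h
    · exact hlt i j h
    · exact (hlt j i h).symm
  have hm : ∀ j, MeasurableSet (O j) := fun j =>
    MeasurableSet.univ_pi fun i => measurableSet_ball
  have hFO : ∀ j, ∀ t ∈ O j, m0 * l j ^ (2 * c * d + 2 * w0) ≤ F t := by
    intro j t ht
    have hlj := hl0 j
    have hljC : (l j : ℂ) ≠ 0 := by exact_mod_cast hlj.ne'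
    set u : EE n := fun i => ((l j : ℂ) ^ w i)⁻¹ * t i with hu
    have htu : t = act w (l j : ℂ) u := by
      funext i
      unfold act
      rw [hu]
      simp only
      rw [← mul_assoc, mul_inv_cancel₀ (pow_ne_zero _ hljC), one_mul]
    have hub : u ∈ ball t0 ε := by
      rw [mem_ball, dist_pi_lt_iff hε]
      intro i
      have ht' := (Set.mem_pi.1 ht) i (mem_univ _)
      rw [mem_ball, dist_eq_norm] at ht'
      rw [dist_eq_norm]
      have e1 : t i = (l j : ℂ) ^ w i * u i := congrFun htu i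
      rw [e1, ← mul_sub, norm_mul, norm_pow, Complex.norm_real, Real.norm_eq_abs,
        abs_of_pos hlj] at ht'
      exact lt_of_mul_lt_mul_left ht' (pow_pos hlj _).le
    obtain ⟨hAu, hun2⟩ := hun u hub
    have hAt : A t ≠ 0 := by
      rw [htu, H.hA]
      exact mul_ne_zero (pow_ne_zero _ hljC) hAu
    obtain ⟨r, hr, hrY⟩ := H.root t hAt
    refine le_trans ?_ (hFlow t hAt r hr hrY)
    have ht1 : ‖t‖ ≤ 1 := by
      refine (pi_norm_le_iff_of_nonneg zero_le_one).2 fun i => ?_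
      have h5 := (hOn j t ht i).2
      have h6 : l j ^ w i ≤ 1 := pow_le_one₀ hlj.le (hl1 j)
      have h7 : ‖t0 i‖ + ε ≤ 1 := by
        have := norm_le_pi_norm t0 i
        linarith
      have h8 := mul_le_mul h6 h7 (by positivity) zero_le_one
      linarith
    have hrh : rh0 t = 1 := rh0.one_of_mem_closedBall (mem_closedBall_zero_iff.2 ht1)
    rw [hrh, one_mul]
    have h5 := hun2 c hc hc2 (fun i => ((l j ^ w0 : ℝ) : ℂ)⁻¹ * r i) (root_scal H hlj htu hr)
    have hlw : 0 < l j ^ w0 := pow_pos hlj _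
    have hlw1 : l j ^ w0 ≤ 1 := pow_le_one₀ hlj.le (hl1 j)
    have hlwC : ((l j ^ w0 : ℝ) : ℂ) ≠ 0 := by exact_mod_cast hlw.ne'
    have hmono : 2 * (k : ℝ) * s0 ≤ 2 * k * c := mul_le_mul_of_nonneg_left hc.le (by positivity)
    have h6 := Dr_scal hk (fun i => ((l j ^ w0 : ℝ) : ℂ)⁻¹ * r i) c hlw hlw1 hβ hc0 hmono
    have h7 : (fun i => ((l j ^ w0 : ℝ) : ℂ) * (((l j ^ w0 : ℝ) : ℂ)⁻¹ * r i)) = r := by
      funext i
      rw [← mul_assoc, mul_inv_cancel₀ hlwC, one_mul]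
    rw [h7] at h6
    have h8 : (l j ^ w0) ^ (2 * k * c + 2) * η ≤ ∫ x in closedBall (0 : ℂ) 1, Dr r c x :=
      le_trans (mul_le_mul_of_nonneg_left h5 (by positivity)) h6
    have hu2 : u ∈ closedBall (0 : EE n) 2 := by
      rw [mem_closedBall_zero_iff]
      rw [mem_ball, dist_eq_norm] at hub
      have := norm_sub_norm_le u t0
      linarith
    have h9 : ‖A t‖ = l j ^ D * ‖A u‖ := by
      rw [htu, H.hA, norm_mul, norm_pow, Complex.norm_real, Real.norm_eq_abs, abs_of_pos hlj]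
    have h10 : l j ^ (2 * c * D) * M ^ (-2 : ℝ) ≤ ‖A t‖ ^ (2 * c) := by
      rw [h9, Real.mul_rpow (by positivity) (norm_nonneg _)]
      have e1 : (l j ^ D) ^ (2 * c) = l j ^ (2 * c * D) := by
        rw [← Real.rpow_natCast, ← Real.rpow_mul hlj.le]
        congr 1
        ring
      rw [e1]
      refine mul_le_mul_of_nonneg_left ?_ (by positivity)
      calc M ^ (-2 : ℝ) ≤ M ^ (2 * c) := Real.rpow_le_rpow_of_exponent_le hM1 (by linarith)
        _ ≤ ‖A u‖ ^ (2 * c) :=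
          Real.rpow_le_rpow_of_nonpos (norm_pos_iff.2 hAu) (hM u hu2) (by linarith)
    have h11 : l j ^ (2 * c * d + 2 * w0) = l j ^ (2 * c * D) * (l j ^ w0) ^ (2 * k * c + 2) := by
      rw [← Real.rpow_natCast (l j) w0, ← Real.rpow_mul hlj.le, ← Real.rpow_add hlj]
      congr 1
      rw [hd]
      ring
    calc m0 * l j ^ (2 * c * d + 2 * w0) =
        (l j ^ (2 * c * D) * M ^ (-2 : ℝ)) * (κ * ((l j ^ w0) ^ (2 * k * c + 2) * η)) := by
          rw [hm0, h11]
          ring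
      _ ≤ ‖A t‖ ^ (2 * c) * (κ * ∫ x in closedBall (0 : ℂ) 1, Dr r c x) := by
          refine mul_le_mul h10 (mul_le_mul_of_nonneg_left h8 hκ0.le) (by positivity)
            (by positivity)
  have hvol : ∀ j, (volume : Measure (EE n)).real (O j) = l j ^ (2 * ∑ i, w i) * V := fun j =>
    vol_pi w t0 (hl0 j) hε
  have hfinO : ∀ j, (volume : Measure (EE n)) (O j) < ⊤ := by
    intro j
    have h5 : O j ⊆ closedBall 0 1 := by
      intro t ht
      rw [mem_closedBall_zero_iff]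
      refine (pi_norm_le_iff_of_nonneg zero_le_one).2 fun i => ?_
      have h5 := (hOn j t ht i).2
      have h6 : l j ^ w i ≤ 1 := pow_le_one₀ (hl0 j).le (hl1 j)
      have h7 : ‖t0 i‖ + ε ≤ 1 := by
        have := norm_le_pi_norm t0 i
        linarith
      have h8 := mul_le_mul h6 h7 (by positivity) zero_le_one
      linarith
    exact (measure_mono h5).trans_lt measure_closedBall_lt_top
  have hsumF : ∑ j ∈ Finset.range N, ∫ t in O j, F t ≤ ∫ t, F t := by
    rw [← integral_biUnion_finset _ (fun j _ => hm j) hdisj fun j _ => iF.integrableOn]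
    exact setIntegral_le_integral iF hF0
  have hterm : ∀ j ∈ Finset.range N, m0 * V / 2 ≤ ∫ t in O j, F t := by
    intro j hj
    have hlj := hl0 j
    have hjN : j < N := Finset.mem_range.1 hj
    have h5 : ∫ _t in O j, m0 * l j ^ (2 * c * d + 2 * w0) ≤ ∫ t in O j, F t :=
      setIntegral_mono_on (integrableOn_const (hfinO j).ne) iF.integrableOn (hm j)
        (hFO j)
    refine le_trans ?_ h5
    rw [setIntegral_const, smul_eq_mul, hvol]
    have hWd : ρ * d = w0 + ∑ i, (w i : ℝ) := H.hρ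
    have h6 : l j ^ (2 * ∑ i, w i) * V * (m0 * l j ^ (2 * c * d + 2 * w0)) =
        m0 * V * l j ^ (2 * (c + ρ) * d) := by
      have : l j ^ (2 * (c + ρ) * d) =
          l j ^ (2 * ∑ i, w i : ℕ) * l j ^ (2 * c * d + 2 * w0) := by
        rw [← Real.rpow_natCast (l j) (2 * ∑ i, w i), ← Real.rpow_add hlj]
        congr 1
        push_cast
        linear_combination 2 * hWd
      rw [this]
      ring
    rw [h6]
    have h7 : 1 / 2 ≤ l j ^ (2 * (c + ρ) * d) := by
      have e1 : 0 ≤ 2 * (c + ρ) * d := by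
        have : 0 ≤ c + ρ := by linarith
        positivity
      have e2 : (2 * (c + ρ) * d) * N ≤ 1 := by
        have h8 : c + ρ ≤ 1 / (2 * d * N) := by
          rw [hs0] at hcN
          linarith
        have h9 := mul_le_mul_of_nonneg_right h8 (show 0 ≤ 2 * d * N by positivity)
        rw [one_div, inv_mul_cancel₀ (by positivity)] at h9
        linarith
      have e3 : l j ^ (2 * (c + ρ) * d) = (1 / 2 : ℝ) ^ (j * (2 * (c + ρ) * d)) := by
        rw [hl]
        simp only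
        rw [← Real.rpow_natCast, ← Real.rpow_mul (by norm_num)]
      rw [e3]
      have e4 : (j : ℝ) * (2 * (c + ρ) * d) ≤ 1 := by
        have : (j : ℝ) ≤ N := by exact_mod_cast hjN.le
        have := mul_le_mul_of_nonneg_right this e1
        linarith
      calc (1 / 2 : ℝ) = (1 / 2) ^ (1 : ℝ) := by rw [Real.rpow_one]
        _ ≤ (1 / 2 : ℝ) ^ (j * (2 * (c + ρ) * d)) :=
          Real.rpow_le_rpow_of_exponent_ge (by norm_num) (by norm_num) e4
    have h8 : 0 ≤ m0 * V := by positivity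
    calc m0 * V / 2 = m0 * V * (1 / 2) := by ring
      _ ≤ _ := mul_le_mul_of_nonneg_left h7 h8
  have hfin : N * (m0 * V / 2) ≤ ∫ t, F t := by
    refine le_trans ?_ hsumF
    refine le_trans (le_of_eq ?_) (Finset.sum_le_sum hterm)
    rw [Finset.sum_const, Finset.card_range, nsmul_eq_mul]
  have hFint : ∫ t, F t = (∫ t, P t) + C * ∫ t, Q t := by
    rw [hF]
    rw [integral_add iP (iQ.const_mul C), integral_const_mul]
  have hZ : (ZZ f k (c : ℂ)).re = ∫ t, P t := by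
    unfold ZZ
    have h5 := integral_re iP0
    have h6 : ∀ t, RCLike.re (((rh0 t : ℝ) : ℂ) * inn f k (c : ℂ) t) = P t := by
      intro t
      show (((rh0 t : ℝ) : ℂ) * inn f k (c : ℂ) t).re = P t
      rw [Complex.re_ofReal_mul]
    simp only [h6] at h5
    exact h5.symm
  rw [hZ]
  linarith

/-- **The root `-ρ = -W/d`.** -/
theorem root_heavy (H : Heavy2 w0 w k D ρ f A Y) (hf : f ≠ 0) {b : Polynomial ℂ}
    (hb : IsBFunction f b) : b.eval ((-ρ : ℝ) : ℂ) = 0 := by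
  have hk := H.hk
  have hρ0 := H.ρ0
  have hρ1 := H.toHeavy.ρ1
  set d : ℝ := (D : ℝ) + k * w0 with hd
  have hdR : 0 < d := by
    have h1 : (0 : ℝ) < D := by exact_mod_cast Heavy2.Dpos H
    positivity
  set s0 : ℝ := -ρ with hs0
  by_contra hb0
  obtain ⟨R, hR, hRe⟩ := ZZ_eq H.toHeavy hf hb
  obtain ⟨m, C', hm, hdiv⟩ := diverge H
  have hs0n : s0 < 0 := by linarith
  have hs01 : -1 < s0 := by linarith
  set B : ℝ → ℂ := fun c => b.eval (c : ℂ) * (b.map (starRingEnd ℂ)).eval (c : ℂ) with hB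
  have hBc : Continuous B := by
    rw [hB]
    exact (b.continuous.comp Complex.continuous_ofReal).mul
      ((b.map (starRingEnd ℂ)).continuous.comp Complex.continuous_ofReal)
  have hB0 : B s0 ≠ 0 := by
    rw [hB]
    simp only
    refine mul_ne_zero hb0 ?_
    have h1 : (b.map (starRingEnd ℂ)).eval (s0 : ℂ) = starRingEnd ℂ (b.eval (s0 : ℂ)) := by
      rw [Polynomial.eval_map, Polynomial.eval, Polynomial.hom_eval₂]
      simp
    rw [h1]
    exact (map_ne_zero _).2 hb0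
  have hRc : ContinuousAt R s0 := (hR s0 hs01).continuousAt
  have hlim : Tendsto (fun c => R c / B c) (𝓝[>] s0) (𝓝 (R s0 / B s0)) :=
    (hRc.tendsto.div hBc.continuousAt.tendsto hB0).mono_left nhdsWithin_le_nhds
  have hbd := hlim.norm.eventually (gt_mem_nhds (lt_add_one ‖R s0 / B s0‖))
  set Γ : ℝ := ‖R s0 / B s0‖ + 1 with hΓ
  have hBev : ∀ᶠ c : ℝ in 𝓝[>] s0, B c ≠ 0 :=
    (hBc.continuousAt.eventually_ne hB0).filter_mono nhdsWithin_le_nhds
  obtain ⟨N, hN⟩ := exists_nat_gt ((Γ + C') / m)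
  have hN2 : Γ + C' < (N + 1 : ℕ) * m := by
    rw [div_lt_iff₀ hm] at hN
    push_cast
    linarith
  have h1 : ∀ᶠ c : ℝ in 𝓝[>] s0, c ≤ s0 / 2 :=
    nhdsWithin_le_nhds (Iic_mem_nhds (show s0 < s0 / 2 by linarith))
  have h2 : ∀ᶠ c : ℝ in 𝓝[>] s0, c ≤ s0 + 1 / (2 * d * (N + 1 : ℕ)) := by
    have h3 : s0 < s0 + 1 / (2 * d * ((N + 1 : ℕ) : ℝ)) := by
      have : 0 < 1 / (2 * d * ((N + 1 : ℕ) : ℝ)) := by positivity
      linarith
    exact nhdsWithin_le_nhds (Iic_mem_nhds h3)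
  obtain ⟨c, hc1, hc2, hc3, hc4, hc5⟩ :=
    (hbd.and (hBev.and (h1.and (h2.and self_mem_nhdsWithin)))).exists
  have hcs : s0 < c := hc5
  have hc0 : c < 0 := by linarith
  have h3 := hRe c hcs hc0
  have h4 : ZZ f k (c : ℂ) = R c / B c := by
    rw [← h3, hB]
    simp only
    rw [mul_div_cancel_left₀ _ hc2]
  have h5 := hdiv (N + 1) (Nat.succ_pos _) c hcs hc3 hc4
  have h6 := Complex.abs_re_le_norm (ZZ f k (c : ℂ))
  have h7 := le_abs_self (ZZ f k (c : ℂ)).re
  rw [← h4] at hc1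
  linarith

end Pool.Agent.KS6_81.HN
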