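import Pool.Agent.KS6_81.HN.Mult3
import Pool.Agent.KS6_81.HN.Root

set_option autoImplicit false

/-! # Weighted homogeneous functions that are locally integrable away from the origin -/

namespace Pool.Agent.KS6_81.HN

open Set Filter Topology Metric MeasureTheory

variable {n : ℕ}

/-- the weighted action of a positive number as a linear equivalence -/
noncomputable def actL (w : Fin n → ℕ) {l : ℝ} (hl : 0 < l) : EE n ≃L[ℝ] EE n :=
  (LinearEquiv.mk (σ := RingHom.id ℝ) (σ' := RingHom.id ℝ)
    { toFun := act w (l : ℂ)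
      map_add' := fun x y => by
        funext i
        simp only [act, Pi.add_apply]
        ring
      map_smul' := fun c x => by
        funext i
        simp only [act, Pi.smul_apply, RingHom.id_apply, Complex.real_smul]
        ring }
    (act w ((l⁻¹ : ℝ) : ℂ))
    (fun x => by
      funext i
      have hlC : (l : ℂ) ≠ 0 := by exact_mod_cast hl.ne'
      show ((l⁻¹ : ℝ) : ℂ) ^ w i * ((l : ℂ) ^ w i * x i) = x i
      rw [← mul_assoc, ← mul_pow]
      push_cast
      rw [inv_mul_cancel₀ hlC, one_pow, one_mul])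
    (fun x => by
      funext i
      have hlC : (l : ℂ) ≠ 0 := by exact_mod_cast hl.ne'
      show (l : ℂ) ^ w i * (((l⁻¹ : ℝ) : ℂ) ^ w i * x i) = x i
      rw [← mul_assoc, ← mul_pow]
      push_cast
      rw [mul_inv_cancel₀ hlC, one_pow, one_mul])).toContinuousLinearEquiv

lemma actL_apply (w : Fin n → ℕ) {l : ℝ} (hl : 0 < l) (t : EE n) :
    actL w hl t = act w (l : ℂ) t := rfl

/-- the boxes -/
def box (w : Fin n → ℕ) (R l : ℝ) : Set (EE n) := {t | ∀ i, ‖t i‖ ≤ R * l ^ w i}

lemma box_closed (w : Fin n → ℕ) (R l : ℝ) : IsClosed (box w R l) := by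
  unfold box
  simp only [ofPred_forall]
  exact isClosed_iInter fun i => isClosed_le (continuous_apply i).norm continuous_const

/-- scaling of the integral -/
lemma lint_act (w : Fin n → ℕ) {l : ℝ} (hl : 0 < l) (S : Set (EE n)) (hS : MeasurableSet S)
    (F : EE n → ENNReal) (hF : Measurable F) :
    ∫⁻ t in S, F t = ENNReal.ofReal (l ^ (2 * ∑ i, w i)) *
      ∫⁻ t in (act w (l : ℂ)) ⁻¹' S, F (act w (l : ℂ) t) := by
  have h1 : ((volume : Measure (EE n)).map (actL w hl)).IsAddHaarMeasure :=
    (actL w hl).isAddHaarMeasure_map _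
  obtain ⟨c, hc0, hc⟩ : ∃ c : ENNReal, c ≠ ⊤ ∧
      (volume : Measure (EE n)).map (actL w hl) = c • (volume : Measure (EE n)) :=
    ⟨_, ENNReal.coe_ne_top, Measure.isAddLeftInvariant_eq_smul _ _⟩
  -- the constant
  set B : Set (EE n) := Set.pi univ fun i => ball (0 : ℂ) (l ^ w i) with hB
  have hBm : MeasurableSet B := MeasurableSet.univ_pi fun i => measurableSet_ball
  have hpre : (actL w hl) ⁻¹' B = Set.pi univ fun _ => ball (0 : ℂ) 1 := by
    ext t
    simp only [hB, mem_preimage, Set.mem_pi, mem_univ, forall_true_left, actL_apply, act,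
      mem_ball_zero_iff, norm_mul, norm_pow, Complex.norm_real, Real.norm_eq_abs, abs_of_pos hl]
    refine forall_congr' fun i => ?_
    have h2 : 0 < l ^ w i := pow_pos hl _
    constructor
    · intro h
      nlinarith
    · intro h
      nlinarith
  have hcB : c * volume B = volume (Set.pi univ fun _ : Fin n => ball (0 : ℂ) 1) := by
    have h2 := congrArg (fun m : Measure (EE n) => m B) hc
    rw [Measure.map_apply (actL w hl).continuous.measurable hBm, hpre, Measure.smul_apply,
      smul_eq_mul] at h2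
    exact h2.symm
  have e1 : volume B = ENNReal.ofReal (l ^ (2 * ∑ i, w i) * Real.pi ^ n) := by
    have h2 := vol_pi w (0 : EE n) hl one_pos
    simp only [Pi.zero_apply, mul_zero, mul_one, one_pow, one_mul] at h2
    rw [← h2, ofReal_measureReal (by
      rw [volume_pi_pi]
      exact (ENNReal.prod_lt_top fun i _ => measure_ball_lt_top).ne)]
  have e2 : volume (Set.pi univ fun _ : Fin n => ball (0 : ℂ) 1) = ENNReal.ofReal (Real.pi ^ n) := by
    have h2 := vol_pi w (0 : EE n) one_pos one_pos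
    simp only [Pi.zero_apply, mul_zero, mul_one, one_pow, one_mul] at h2
    rw [← h2, ofReal_measureReal (by
      rw [volume_pi_pi]
      exact (ENNReal.prod_lt_top fun i _ => measure_ball_lt_top).ne)]
  have hπ : 0 < Real.pi ^ n := pow_pos Real.pi_pos _
  have hc1 : ENNReal.ofReal (l ^ (2 * ∑ i, w i)) * c = 1 := by
    rw [e1, e2, ENNReal.ofReal_mul (by positivity), ← mul_assoc] at hcB
    have h3 : ENNReal.ofReal (Real.pi ^ n) ≠ 0 := by
      rw [Ne, ENNReal.ofReal_eq_zero, not_le]
      exact hπ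
    have h4 : c * ENNReal.ofReal (l ^ (2 * ∑ i, w i)) = 1 := by
      have h5 : c * ENNReal.ofReal (l ^ (2 * ∑ i, w i)) * ENNReal.ofReal (Real.pi ^ n) =
        1 * ENNReal.ofReal (Real.pi ^ n) := by rw [hcB, one_mul]
      exact (ENNReal.mul_left_inj h3 ENNReal.ofReal_ne_top).1 h5
    rw [mul_comm]
    exact h4
  have h2 : ∫⁻ t in S, F t ∂((volume : Measure (EE n)).map (actL w hl)) =
      ∫⁻ t in (actL w hl) ⁻¹' S, F (actL w hl t) :=
    setLIntegral_map hS hF (actL w hl).continuous.measurable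
  rw [hc, Measure.restrict_smul, lintegral_smul_measure, smul_eq_mul] at h2
  show _ = _ * ∫⁻ t in (actL w hl) ⁻¹' S, F (actL w hl t)
  rw [← h2, ← mul_assoc, hc1, one_mul]

/-- **Local integrability of weighted homogeneous functions.** -/
theorem LI_of_homog (w : Fin n → ℕ) (hw : ∀ i, 0 < w i) {G : EE n → ℝ} (hG : Measurable G)
    (hG0 : ∀ t, 0 ≤ G t) {δ : ℝ} (hδ : 0 < δ + 2 * ∑ i, (w i : ℝ))
    (hh : ∀ l : ℝ, 0 < l → ∀ t, G (act w (l : ℂ) t) = l ^ δ * G t)
    (hloc : ∀ t, t ≠ 0 → ∃ V ∈ 𝓝 t, IntegrableOn G V) : LI G := by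
  intro R
  rcases le_or_gt R 0 with hR | hR
  · have h1 : closedBall (0 : EE n) R ⊆ {0} := by
      intro t ht
      rw [mem_closedBall_zero_iff] at ht
      rw [mem_singleton_iff, ← norm_le_zero_iff]
      exact ht.trans hR
    refine IntegrableOn.mono_set ?_ h1
    rw [integrableOn_singleton_iff]
    right
    exact isCompact_singleton.measure_lt_top
  set l : ℝ := 1 / 2 with hl
  have hl0 : 0 < l := by norm_num [hl]
  have hl1 : l < 1 := by norm_num [hl]
  set F : EE n → ENNReal := fun t => ENNReal.ofReal (G t) with hF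
  have hFm : Measurable F := hG.ennreal_ofReal
  set B : ℕ → Set (EE n) := fun j => box w R (l ^ j) with hB
  have hBm : ∀ j, MeasurableSet (B j) := fun j => (box_closed w R (l ^ j)).measurableSet
  have hB0 : B 0 = closedBall 0 R := by
    ext t
    simp only [hB, box, mem_ofPred_eq, pow_zero, one_pow, mul_one, mem_closedBall_zero_iff]
    exact (pi_norm_le_iff_of_nonneg hR.le).symm
  have hBanti : Antitone B := by
    intro i j hij t ht m
    refine (ht m).trans (mul_le_mul_of_nonneg_left ?_ hR.le)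
    exact pow_le_pow_left₀ (pow_nonneg hl0.le _)
      (pow_le_pow_of_le_one hl0.le hl1.le hij) _
  have hpre : ∀ j, (act w (l : ℂ)) ⁻¹' (B (j + 1)) = B j := by
    intro j
    ext t
    simp only [hB, box, mem_preimage, mem_ofPred_eq, act, norm_mul, norm_pow, Complex.norm_real,
      Real.norm_eq_abs, abs_of_pos hl0]
    refine forall_congr' fun i => ?_
    have h2 : 0 < l ^ w i := pow_pos hl0 _
    have h3 : R * (l ^ (j + 1)) ^ w i = l ^ w i * (R * (l ^ j) ^ w i) := by
      rw [pow_succ, mul_pow]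
      ring
    rw [h3]
    exact mul_le_mul_iff_right₀ h2
  -- finiteness on the first shell
  have hI1 : ∫⁻ t in B 0 \ B 1, F t < ⊤ := by
    set r : ℝ := R * l ^ (∑ i, w i) with hr
    have hr0 : 0 < r := by positivity
    have hsub : B 0 \ B 1 ⊆ closedBall 0 R \ ball 0 r := by
      rintro t ⟨h1, h2⟩
      rw [hB0] at h1
      refine ⟨h1, fun h3 => h2 fun i => ?_⟩
      rw [mem_ball_zero_iff] at h3
      rw [pow_one]
      refine (norm_le_pi_norm t i).trans (h3.le.trans (mul_le_mul_of_nonneg_left ?_ hR.le))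
      exact pow_le_pow_of_le_one hl0.le hl1.le
        (Finset.single_le_sum (fun j _ => Nat.zero_le _) (Finset.mem_univ i))
    have hK : IsCompact (closedBall (0 : EE n) R \ ball 0 r) :=
      (isCompact_closedBall 0 R).diff isOpen_ball
    have h1 : LocallyIntegrableOn G (closedBall (0 : EE n) R \ ball 0 r) := by
      intro t ht
      obtain ⟨V, hV, hGV⟩ := hloc t (by
        rintro rfl
        exact ht.2 (mem_ball_self hr0))
      exact ⟨V, mem_nhdsWithin_of_mem_nhds hV, hGV⟩
    have h2 := (h1.integrableOn_isCompact hK).mono_set hsub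
    have h3 := h2.2
    rw [hasFiniteIntegral_iff_ofReal (Eventually.of_forall hG0)] at h3
    exact h3
  -- the recursion
  set q : ENNReal := ENNReal.ofReal (l ^ (δ + 2 * ∑ i, (w i : ℝ))) with hq
  have hrec : ∀ j, ∫⁻ t in B 1 \ B (j + 1), F t = q * ∫⁻ t in B 0 \ B j, F t := by
    intro j
    rw [lint_act w hl0 _ ((hBm 1).diff (hBm (j + 1))) F hFm, preimage_sdiff, hpre 0, hpre j]
    have h1 : ∀ t, F (act w (l : ℂ) t) = ENNReal.ofReal (l ^ δ) * F t := by
      intro t
      simp only [hF]
      rw [hh l hl0, ENNReal.ofReal_mul (by positivity)]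
    simp only [h1]
    rw [lintegral_const_mul _ hFm, ← mul_assoc, ← ENNReal.ofReal_mul (by positivity)]
    congr 2
    rw [Real.rpow_add hl0, mul_comm]
    congr 1
    have h2 : (2 * ∑ i, (w i : ℝ)) = ((2 * ∑ i, w i : ℕ) : ℝ) := by push_cast; rfl
    rw [h2, Real.rpow_natCast]
  have hq1 : q < 1 := by
    rw [hq, ENNReal.ofReal_lt_one]
    exact Real.rpow_lt_one hl0.le hl1 hδ
  set I : ENNReal := ∫⁻ t in B 0 \ B 1, F t with hI
  set K : ENNReal := I / (1 - q) with hK
  have h1q : (1 - q) ≠ 0 := (tsub_pos_of_lt hq1).ne'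
  have h1qt : (1 - q) ≠ ⊤ := (tsub_le_self.trans_lt ENNReal.one_lt_top).ne
  have hKt : K < ⊤ := ENNReal.div_lt_top hI1.ne h1q
  have hKeq : I + q * K = K := by
    have h1 : (1 - q) * K = I := ENNReal.mul_div_cancel h1q h1qt
    have h2 : (1 - q) * K + q * K = K := by
      rw [← add_mul, tsub_add_cancel_of_le hq1.le, one_mul]
    rw [h1] at h2
    exact h2
  have hbd : ∀ j, ∫⁻ t in B 0 \ B j, F t ≤ K := by
    intro j
    induction j with
    | zero => simp
    | succ j ih =>
      have h1 : B 0 \ B (j + 1) ⊆ (B 0 \ B 1) ∪ (B 1 \ B (j + 1)) := by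
        rintro t ⟨h1, h2⟩
        by_cases h3 : t ∈ B 1
        · exact Or.inr ⟨h3, h2⟩
        · exact Or.inl ⟨h1, h3⟩
      calc ∫⁻ t in B 0 \ B (j + 1), F t ≤ ∫⁻ t in (B 0 \ B 1) ∪ (B 1 \ B (j + 1)), F t :=
            lintegral_mono_set h1
        _ ≤ I + ∫⁻ t in B 1 \ B (j + 1), F t := lintegral_union_le _ _ _
        _ = I + q * ∫⁻ t in B 0 \ B j, F t := by rw [hrec]
        _ ≤ I + q * K := by gcongr
        _ = K := hKeq
  have hmono : Monotone fun j => B 0 \ B j := fun i j hij t ht =>
    ⟨ht.1, fun h => ht.2 (hBanti hij h)⟩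
  have hU : closedBall (0 : EE n) R ⊆ (⋃ j, B 0 \ B j) ∪ {0} := by
    intro t ht
    by_cases h0 : t = 0
    · exact Or.inr h0
    · left
      obtain ⟨i, hi⟩ : ∃ i, t i ≠ 0 := by
        by_contra hcon
        push Not at hcon
        exact h0 (funext hcon)
      have h1 : Tendsto (fun j : ℕ => R * (l ^ j) ^ w i) atTop (𝓝 (R * 0 ^ w i)) :=
        ((tendsto_pow_atTop_nhds_zero_of_lt_one hl0.le hl1).pow _).const_mul _
      rw [zero_pow (hw i).ne', mul_zero] at h1
      obtain ⟨j, hj⟩ := (h1.eventually (gt_mem_nhds (norm_pos_iff.2 hi))).exists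
      rw [mem_iUnion]
      refine ⟨j, ?_, fun h => absurd (h i) (not_le.2 hj)⟩
      rw [hB0]
      exact ht
  have hfin : ∫⁻ t in ⋃ j, B 0 \ B j, F t < ⊤ := by
    rw [setLIntegral_iUnion_of_directed F (by exact hmono.directed_le)]
    exact (iSup_le hbd).trans_lt hKt
  have hint : IntegrableOn G (⋃ j, B 0 \ B j) := by
    refine ⟨hG.aestronglyMeasurable, ?_⟩
    rw [hasFiniteIntegral_iff_ofReal (Eventually.of_forall hG0)]
    exact hfin
  have hint0 : IntegrableOn G ({0} : Set (EE n)) := by
    rw [integrableOn_singleton_iff]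
    right
    exact isCompact_singleton.measure_lt_top
  exact (hint.union hint0).mono_set hU

end Pool.Agent.KS6_81.HN
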