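import Pool.Agent.KS6_81.HN.Defs
import Pool.Agent.KS6_81.HN.Poly
import Pool.Agent.KS6_81.HN.Mild
import Pool.Agent.KS6_81.CN.LocB
import Pool.Graph.R_pool_sql_team_seeded_ab47071d.TH26.Cub.Weyl
import Pool.Agent.KS6_80.CC.Cls

set_option autoImplicit false

/-! # The root `-W/d` for weighted homogeneous polynomials with a heavy point -/

namespace Pool.Agent.KS6_81.HN

open MeasureTheory Topology
open Pool.Agent.H628R4.TP (weylS IsBFunction IsLocalBFunction)
open Pool.Agent.KS6_81.CN (HasRoot exact_root)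

variable {n : ℕ}

lemma HeavyVar.data {w : Fin (n + 1) → ℕ} {d : ℕ} {f : MvPolynomial (Fin (n + 1)) ℂ}
    (h : HeavyVar n w d f) : ∃ (φ : MvPolynomial (Fin (n + 1)) ℂ ≃ₐ[ℂ] MvPolynomial (Fin (n + 1)) ℂ)
      (u : Fin (n + 1) → ℕ) (e k : ℕ) (A : ℕ → MvPolynomial (Fin n) ℂ) (ρ c : ℝ),
      e * ∑ i, w i = d * ∑ i, u i ∧ φ f = hform k A ∧
      Data (u 0) (fun i => u i.succ) e k A ρ c := by
  obtain ⟨φ, u, U, e, k, A, ρ, c, rfl, h2, h3, h4, h5, h6, h7, h8, h9, h10⟩ := h
  have heR : (0 : ℝ) < e := by exact_mod_cast (by omega : 0 < e)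
  refine ⟨φ, u, e, k, A, ρ, c, h3, h7, ⟨h2 0, fun i => h2 _, ?_, ?_, h8, by linarith, ?_, ?_⟩⟩
  · rw [← Fin.sum_univ_succ]
    exact h4
  · rw [← Fin.sum_univ_succ]
    rw [eq_div_iff heR.ne']
    exact h5
  · intro j hj1 hjk q hq1 hq2 t ht
    have h11 := h9 j q hj1 hjk (by linarith) hq2 t ht
    have ho : IsOpen {t : EE n | t ≠ 0} := isOpen_ne
    rw [ho.nhdsWithin_eq ht] at h11
    exact h11
  · obtain ⟨t, x, y, g1, g2, g3, g4⟩ := h10
    rw [h7] at g3 g4
    exact ⟨t, x, y, g1, g2, g3, g4⟩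

lemma Data.ne_zero {u0 : ℕ} {u : Fin n → ℕ} {e k : ℕ} {A : ℕ → MvPolynomial (Fin n) ℂ} {ρ c : ℝ}
    (D : Data u0 u e k A ρ c) : hform k A ≠ 0 := by
  intro h
  obtain ⟨t, x, x', h0, -⟩ := D.dist
  obtain ⟨r, hr, -⟩ := D.heavy.root t h0
  obtain ⟨y, hy⟩ : ∃ y : ℂ, ∀ i, y ≠ r i := by
    have h3 : (Set.range r).Finite := Set.finite_range r
    obtain ⟨y, hy⟩ := h3.infinite_compl.nonempty
    exact ⟨y, fun i hi => hy ⟨i, hi.symm⟩⟩
  have h4 := hr y
  rw [h] at h4
  have h5 : ff (0 : MvPolynomial (Fin (n + 1)) ℂ) (y, t) = 0 := by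
    unfold ff
    rw [map_zero]
  rw [h5] at h4
  rcases mul_eq_zero.1 h4.symm with h6 | h6
  · exact h0 h6
  · obtain ⟨i, -, hi⟩ := Finset.prod_eq_zero_iff.1 h6
    exact hy i (sub_eq_zero.1 hi)

lemma HeavyVar.ne_zero {w : Fin (n + 1) → ℕ} {d : ℕ} {f : MvPolynomial (Fin (n + 1)) ℂ}
    (h : HeavyVar n w d f) : f ≠ 0 := by
  rintro rfl
  obtain ⟨φ, u, e, k, A, ρ, c, -, hφ, D⟩ := h.data
  rw [map_zero] at hφ
  exact D.ne_zero hφ.symm

/-- **The root `-W/d`, global functional equations.** -/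
theorem HeavyVar.root_global {w : Fin (n + 1) → ℕ} (hw : ∀ i, 0 < w i) {d : ℕ}
    {f : MvPolynomial (Fin (n + 1)) ℂ} (h : HeavyVar n w d f) {b : Polynomial ℂ}
    (hb : IsBFunction f b) : b.eval (-((∑ i, w i : ℕ) : ℂ) / d) = 0 := by
  obtain ⟨φ, u, e, k, A, ρ, c, hwu, hφ, D⟩ := h.data
  have hb2 := Pool.Agent.TH26.Cub.isB_of_equiv φ f b hb
  rw [hφ] at hb2
  have h1 := root_heavy D.heavy D.ne_zero hb2
  have he : 0 < e := by
    have := D.hke
    omega
  have hW : 0 < ∑ i, w i := Finset.sum_pos (fun i _ => hw i) ⟨0, Finset.mem_univ _⟩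
  have hd : 0 < d := by
    rcases Nat.eq_zero_or_pos d with h0 | h0
    · rw [h0, zero_mul] at hwu
      exact absurd hwu (Nat.mul_pos he hW).ne'
    · exact h0
  have e1 : ((-ρ : ℝ) : ℂ) = -((∑ i, w i : ℕ) : ℂ) / d := by
    have h2 : ρ = ((∑ i, w i : ℕ) : ℝ) / d := by
      rw [D.hρ, ← Fin.sum_univ_succ]
      have heR : (e : ℝ) ≠ 0 := by exact_mod_cast he.ne'
      have hdR : (d : ℝ) ≠ 0 := by exact_mod_cast hd.ne'
      rw [div_eq_div_iff heR hdR]
      have h3 : (e : ℝ) * (∑ i, w i : ℕ) = d * (∑ i, u i : ℕ) := by exact_mod_cast hwu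
      linarith
    rw [h2]
    push_cast
    ring
  rw [← e1]
  exact h1

/-- **The root `-W/d`.** -/
theorem HeavyVar.root {w : Fin (n + 1) → ℕ} (hw : ∀ i, 0 < w i) {d : ℕ}
    {f : MvPolynomial (Fin (n + 1)) ℂ} (hf : f.IsWeightedHomogeneous w d) (h : HeavyVar n w d f)
    {b : Polynomial ℂ} (hb : IsLocalBFunction f b) :
    b.eval (-((∑ i, w i : ℕ) : ℂ) / d) = 0 := by
  have h2 := Pool.Agent.T6.H16.RW.global_of_localW (w := fun i => (w i : ℤ)) (fun i => by
    show (0 : ℤ) < (w i : ℤ)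
    exact_mod_cast hw i) _ h.ne_zero _ (Pool.Agent.T6.H26.DC.wh_int hf) b hb
  exact h.root_global hw h2

theorem HeavyVar.hasRoot {w : Fin (n + 1) → ℕ} (hw : ∀ i, 0 < w i) {d : ℕ}
    {f : MvPolynomial (Fin (n + 1)) ℂ} (hf : f.IsWeightedHomogeneous w d) (h : HeavyVar n w d f) :
    HasRoot n w d f :=
  ⟨h.ne_zero, fun _ hb => exact_root (h.root hw hf hb)⟩

lemma trl_deg (t : EE n) (A : MvPolynomial (Fin n) ℂ) : (trl t A).totalDegree ≤ A.totalDegree := by
  unfold trl
  rw [MvPolynomial.aeval_def, MvPolynomial.eval₂_eq']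
  refine (MvPolynomial.totalDegree_finsetSum _ _).trans (Finset.sup_le fun m hm => ?_)
  refine (MvPolynomial.totalDegree_mul _ _).trans ?_
  have e1 : (algebraMap ℂ (MvPolynomial (Fin n) ℂ) (MvPolynomial.coeff m A)).totalDegree = 0 :=
    MvPolynomial.totalDegree_C _
  rw [e1, zero_add]
  refine (MvPolynomial.totalDegree_finsetProd _ _).trans ?_
  have h3 := MvPolynomial.le_totalDegree hm
  refine le_trans ?_ h3
  rw [Finsupp.sum_fintype _ _ (fun _ => rfl)]
  refine Finset.sum_le_sum fun i _ => ?_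
  refine (MvPolynomial.totalDegree_pow _ _).trans ?_
  have h4 : (MvPolynomial.X i + MvPolynomial.C (t i) : MvPolynomial (Fin n) ℂ).totalDegree ≤ 1 := by
    refine (MvPolynomial.totalDegree_add _ _).trans (max_le ?_ ?_)
    · rw [MvPolynomial.totalDegree_X]
    · rw [MvPolynomial.totalDegree_C]
      exact Nat.zero_le _
  calc m i * _ ≤ m i * 1 := Nat.mul_le_mul_left _ h4
    _ = m i := mul_one _

/-- **The condition on the tangent cone from multiplicities.** -/
theorem heavyVar_of_mult {u : Fin (n + 1) → ℕ} {e k r : ℕ} {A : ℕ → MvPolynomial (Fin n) ℂ}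
    {L : Fin r → MvPolynomial (Fin n) ℂ} {m : Fin r → ℕ} {o : ℕ → Fin r → ℕ} {α : ℂ}
    (hu : ∀ i, 0 < u i) (hk : k * ∑ i, u i < e)
    (hom : ∀ j ≤ k, (A j).IsWeightedHomogeneous (fun i => u i.succ) (e - (k - j) * u 0))
    (hA0 : A 0 = MvPolynomial.C α * ∏ i, L i ^ m i)
    (hdvd : ∀ j, 1 ≤ j → j ≤ k → ∏ i, L i ^ o j i ∣ A j)
    (hmult : ∀ t : Fin n → ℂ, t ≠ 0 → ∃ μ : Fin r → ℕ,
      (∀ i, MvPolynomial.homogeneousComponent (μ i) (MvPolynomial.aeval
        (fun l => MvPolynomial.X l + MvPolynomial.C (t l)) (L i)) ≠ 0) ∧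
      ∀ j, 1 ≤ j → j ≤ k → A j ≠ 0 → ∑ i, (μ i : ℤ) * max 0 ((j * ∑ l, u l : ℕ) * m i +
        ((e : ℤ) - (k * ∑ l, u l : ℕ)) * ((m i : ℤ) - o j i)) < (e * j : ℕ))
    (hdist : ∃ (t : Fin n → ℂ) (x y : ℂ), MvPolynomial.eval t (A 0) ≠ 0 ∧ x ≠ y ∧
      ∑ j ∈ Finset.range (k + 1), x ^ (k - j) * MvPolynomial.eval t (A j) = 0 ∧
      ∑ j ∈ Finset.range (k + 1), y ^ (k - j) * MvPolynomial.eval t (A j) = 0) :
    HeavyVar n u e (∑ j ∈ Finset.range (k + 1), MvPolynomial.X 0 ^ (k - j) *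
      MvPolynomial.rename Fin.succ (A j)) := by
  classical
  set U : ℕ := ∑ i, u i with hU
  have he : 0 < e := by omega
  have heR : (0 : ℝ) < e := by exact_mod_cast he
  have hU0 : 0 < U := Finset.sum_pos (fun i _ => hu i) ⟨0, Finset.mem_univ _⟩
  have hUR : (0 : ℝ) < U := by exact_mod_cast hU0
  have hkUR : (k : ℝ) * U < e := by exact_mod_cast hk
  set ρ : ℝ := U / e with hρ
  have hρe : ρ * e = U := div_mul_cancel₀ _ heR.ne'
  have hρ0 : 0 < ρ := div_pos hUR heR
  have hkρ : k * ρ < 1 := by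
    rw [hρ, ← mul_div_assoc, div_lt_one heR]
    exact hkUR
  have hα : α ≠ 0 := by
    rintro rfl
    obtain ⟨t, x, y, h0, -⟩ := hdist
    rw [hA0, map_zero, zero_mul, map_zero] at h0
    exact h0 rfl
  set T : ℝ := ∑ i, (m i : ℝ) * (L i).totalDegree with hT
  have hT0 : 0 ≤ T := Finset.sum_nonneg fun i _ => by positivity
  set η : ℝ := 1 / (e * (T + 1)) with hη
  have hη0 : 0 < η := by positivity
  have hηT : η * T * e < 1 := by
    rw [hη]
    have h1 : 1 / (e * (T + 1)) * T * e = T / (T + 1) := by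
      field_simp
    rw [h1, div_lt_one (by positivity)]
    linarith
  set c : ℝ := 1 - k * ρ + η with hc
  refine ⟨AlgEquiv.refl, u, U, e, k, A, ρ, c, rfl, hu, rfl, hk, hρe,
    by linarith, rfl, hom, ?_, ?_⟩
  · intro j q hj1 hjk hq1 hq2 t ht
    have hjR : (0 : ℝ) < j := by exact_mod_cast hj1
    have hq0 : 0 < q := by linarith
    by_cases hAj : A j = 0
    · refine ⟨Set.univ, Filter.univ_mem, ?_⟩
      have h1 : (fun t : Fin n → ℂ => ‖MvPolynomial.eval t (A 0)‖ ^ (-(2 * ρ)) *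
        (‖MvPolynomial.eval t (A j)‖ / ‖MvPolynomial.eval t (A 0)‖) ^ (2 * q / j)) = fun _ => 0 := by
        funext y
        rw [hAj, map_zero, norm_zero, zero_div, Real.zero_rpow (by positivity), mul_zero]
      rw [h1]
      exact integrableOn_zero
    · obtain ⟨μ, hμ, hμ2⟩ := hmult t ht
      obtain ⟨B, hB⟩ := hdvd j hj1 hjk
      have h1 := hμ2 j hj1 hjk hAj
      have h2 : ∑ i, (μ i : ℝ) * max 0 (((j * U : ℕ) : ℝ) * m i +
          ((e : ℝ) - (k * U : ℕ)) * ((m i : ℝ) - o j i)) ≤ (e * j : ℕ) - 1 := by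
        have h3 : ∑ i, (μ i : ℤ) * max 0 (((j * U : ℕ) : ℤ) * m i +
          ((e : ℤ) - (k * U : ℕ)) * ((m i : ℤ) - o j i)) ≤ (e * j : ℕ) - 1 := by
          have := h1
          omega
        exact_mod_cast h3
      have hμd : ∀ i, μ i ≤ (L i).totalDegree := by
        intro i
        by_contra hcon
        push Not at hcon
        exact hμ i (MvPolynomial.homogeneousComponent_eq_zero _ _
          (lt_of_le_of_lt (trl_deg t (L i)) hcon))
      have h4 : ∑ i, max 0 (ρ * m i + q / j * ((m i : ℝ) - o j i)) * μ i < 1 := by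
        have h5 : ∀ i, max 0 (ρ * m i + q / j * ((m i : ℝ) - o j i)) * μ i ≤
            (1 / (e * j)) * ((μ i : ℝ) * max 0 (((j * U : ℕ) : ℝ) * m i +
              ((e : ℝ) - (k * U : ℕ)) * ((m i : ℝ) - o j i))) +
              (η / j) * ((m i : ℝ) * (L i).totalDegree) := by
          intro i
          have e1 : (1 / (e * j)) * ((μ i : ℝ) * max 0 (((j * U : ℕ) : ℝ) * m i +
              ((e : ℝ) - (k * U : ℕ)) * ((m i : ℝ) - o j i))) = max 0 (ρ * m i +
                (1 - k * ρ) / j * ((m i : ℝ) - o j i)) * μ i := by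
            have e2 : max 0 (ρ * m i + (1 - k * ρ) / j * ((m i : ℝ) - o j i)) =
                (1 / (e * j)) * max 0 (((j * U : ℕ) : ℝ) * m i +
              ((e : ℝ) - (k * U : ℕ)) * ((m i : ℝ) - o j i)) := by
              rw [mul_max_of_nonneg _ _ (by positivity), mul_zero]
              congr 1
              rw [hρ]
              push_cast
              field_simp
            rw [e2]
            ring
          rw [e1]
          have e3 : max 0 (ρ * m i + q / j * ((m i : ℝ) - o j i)) ≤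
              max 0 (ρ * m i + (1 - k * ρ) / j * ((m i : ℝ) - o j i)) + (η / j) * m i := by
            refine max_le (by positivity) ?_
            have e4 : ρ * m i + q / j * ((m i : ℝ) - o j i) =
                (ρ * m i + (1 - k * ρ) / j * ((m i : ℝ) - o j i)) +
                  (q - (1 - k * ρ)) / j * ((m i : ℝ) - o j i) := by ring
            rw [e4]
            refine add_le_add (le_max_right _ _) ?_
            have e5 : (q - (1 - k * ρ)) / j ≤ η / j :=
              div_le_div_of_nonneg_right (by linarith) hjR.le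
            have e6 : 0 ≤ (q - (1 - k * ρ)) / j := div_nonneg (by linarith) hjR.le
            have e7 : (m i : ℝ) - o j i ≤ m i := by
              have : (0 : ℝ) ≤ o j i := Nat.cast_nonneg _
              linarith
            calc (q - (1 - k * ρ)) / j * ((m i : ℝ) - o j i) ≤ (q - (1 - k * ρ)) / j * m i :=
                  mul_le_mul_of_nonneg_left e7 e6
              _ ≤ _ := mul_le_mul_of_nonneg_right e5 (Nat.cast_nonneg _)
          have e8 : (μ i : ℝ) ≤ (L i).totalDegree := by exact_mod_cast hμd i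
          have e9 : (0 : ℝ) ≤ μ i := Nat.cast_nonneg _
          calc max 0 (ρ * m i + q / j * ((m i : ℝ) - o j i)) * μ i ≤
              (max 0 (ρ * m i + (1 - k * ρ) / j * ((m i : ℝ) - o j i)) + (η / j) * m i) * μ i :=
                mul_le_mul_of_nonneg_right e3 e9
            _ = max 0 (ρ * m i + (1 - k * ρ) / j * ((m i : ℝ) - o j i)) * μ i +
                (η / j) * (m i * μ i) := by ring
            _ ≤ _ := by
              have e10 : 0 ≤ η / j := by positivity
              have e11 : (m i : ℝ) * μ i ≤ m i * (L i).totalDegree :=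
                mul_le_mul_of_nonneg_left e8 (Nat.cast_nonneg _)
              have e12 := mul_le_mul_of_nonneg_left e11 e10
              linarith
        refine lt_of_le_of_lt (Finset.sum_le_sum fun i _ => h5 i) ?_
        rw [Finset.sum_add_distrib, ← Finset.mul_sum, ← Finset.mul_sum, ← hT]
        have h6 : (1 / (e * j) : ℝ) * ∑ i, (μ i : ℝ) * max 0 (((j * U : ℕ) : ℝ) * m i +
          ((e : ℝ) - (k * U : ℕ)) * ((m i : ℝ) - o j i)) ≤ (1 / (e * j)) * ((e * j : ℕ) - 1) :=
          mul_le_mul_of_nonneg_left h2 (by positivity)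
        have h7 : (1 / (e * j) : ℝ) * ((e * j : ℕ) - 1) = 1 - 1 / (e * j) := by
          push_cast
          field_simp
        have h8 : η / j * T < 1 / (e * j) := by
          rw [lt_div_iff₀ (by positivity)]
          have : η / j * T * (e * j) = η * T * e := by
            field_simp
          rw [this]
          exact hηT
        linarith
      have h5 := mild_of_mult L m (o j) t μ hμ hα hA0 (ρ := ρ) (q := q / j) (B := B)
        (by positivity) h4
      obtain ⟨V, hV, hI⟩ := h5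
      refine ⟨V, mem_nhdsWithin_of_mem_nhds hV, ?_⟩
      have e1 : 2 * (q / j) = 2 * q / (j : ℝ) := by ring
      rw [← hB, e1] at hI
      exact hI
  · obtain ⟨t, x, y, h0, hxy, h1, h2⟩ := hdist
    refine ⟨t, x, y, h0, hxy, ?_, ?_⟩
    · have h3 := ff_hform k A x t
      rw [h1] at h3
      exact h3
    · have h3 := ff_hform k A y t
      rw [h2] at h3
      exact h3

end Pool.Agent.KS6_81.HN
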